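import Mathlib

set_option autoImplicit false

namespace Pool.Agent.H629.LM

noncomputable section

abbrev K : Type := RatFunc ℚ

/-- the indeterminate `ν` -/
def nu : K := RatFunc.X

def bb (m : ℕ) (a : K) (j : ℕ) : K :=
  (-1) ^ j * (((m - j).factorial : K) / (j.factorial * (m - 2 * j).factorial)) *
    ∏ i ∈ Finset.Ico j (m - j), (a + i)

/-- Lommel polynomial as a Laurent series in `t = x / 2`. -/
def lommel (m : ℕ) (a : K) : LaurentSeries K :=
  ∑ j ∈ Finset.range (m / 2 + 1), HahnSeries.single (2 * (j : ℤ) - m) (bb m a j)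

def c (m n : ℕ) : K := (lommel m (nu + 2) / lommel (m + 1) (nu + 1)).coeff (2 * (n : ℤ) + 1)

/-- the power series `t^m R_m` -/
def ps (m : ℕ) (a : K) : PowerSeries K :=
  ∑ j ∈ Finset.range (m / 2 + 1), PowerSeries.C (bb m a j) * PowerSeries.X ^ (2 * j)

theorem nu_add_ne (k : ℕ) : nu + (k : K) ≠ 0 := by
  have h : nu + (k : K) = algebraMap (Polynomial ℚ) K (Polynomial.X + Polynomial.C (k : ℚ)) := by
    simp [nu, RatFunc.algebraMap_X]
  rw [h]
  intro h0
  have h1 := (map_eq_zero_iff _ (RatFunc.algebraMap_injective ℚ)).1 h0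
  have h2 := congrArg (fun p => Polynomial.coeff p 1) h1
  simp [Polynomial.coeff_X] at h2

theorem ofPS_mono (b : K) (k : ℕ) :
    HahnSeries.ofPowerSeries ℤ K (PowerSeries.C b * PowerSeries.X ^ k) =
      HahnSeries.single (k : ℤ) b := by
  rw [map_mul, HahnSeries.ofPowerSeries_C, HahnSeries.ofPowerSeries_X_pow, HahnSeries.C_apply,
    HahnSeries.single_mul_single, zero_add, mul_one]

theorem lommel_eq (m : ℕ) (a : K) :
    lommel m a = HahnSeries.single (-(m : ℤ)) (1 : K) * HahnSeries.ofPowerSeries ℤ K (ps m a) := by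
  unfold lommel ps
  rw [map_sum, Finset.mul_sum]
  refine Finset.sum_congr rfl fun j _ => ?_
  rw [ofPS_mono, HahnSeries.single_mul_single, one_mul]
  have h : 2 * (j : ℤ) - m = -(m : ℤ) + ((2 * j : ℕ) : ℤ) := by push_cast; ring
  rw [h]

theorem bb_zero_ne (m : ℕ) (s : ℕ) : bb m (nu + s) 0 ≠ 0 := by
  unfold bb
  refine mul_ne_zero (mul_ne_zero (by simp) ?_) ?_
  · refine div_ne_zero ?_ (mul_ne_zero ?_ ?_) <;>
      exact Nat.cast_ne_zero.2 (Nat.factorial_ne_zero _)
  · refine Finset.prod_ne_zero_iff.2 fun i _ => ?_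
    have h := nu_add_ne (s + i)
    rwa [Nat.cast_add, ← add_assoc] at h

theorem coeff_ps_zero (m : ℕ) (a : K) : PowerSeries.constantCoeff (ps m a) = bb m a 0 := by
  unfold ps
  rw [map_sum, Finset.sum_eq_single 0]
  · simp
  · intro j _ hj
    simp [hj]
  · intro h
    simp at h

/-- the power series `A B⁻¹` -/
def qq (m : ℕ) : PowerSeries K := ps m (nu + 2) * (ps (m + 1) (nu + 1))⁻¹

theorem qq_mul (m : ℕ) : ps (m + 1) (nu + 1) * qq m = ps m (nu + 2) := by
  have h : PowerSeries.constantCoeff (ps (m + 1) (nu + 1)) ≠ 0 := by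
    rw [coeff_ps_zero]
    have := bb_zero_ne (m + 1) 1
    rwa [Nat.cast_one] at this
  unfold qq
  rw [mul_left_comm, PowerSeries.mul_inv_cancel _ h, mul_one]

theorem quot_eq (m : ℕ) : lommel m (nu + 2) / lommel (m + 1) (nu + 1) =
    HahnSeries.ofPowerSeries ℤ K (PowerSeries.X * qq m) := by
  have hne : lommel (m + 1) (nu + 1) ≠ 0 := by
    rw [lommel_eq]
    refine mul_ne_zero ?_ ?_
    · rw [Ne, HahnSeries.single_eq_zero_iff]
      exact one_ne_zero
    · intro h
      have h1 : ps (m + 1) (nu + 1) = 0 :=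
        HahnSeries.ofPowerSeries_injective (Γ := ℤ) (by rw [h, map_zero])
      have h2 := coeff_ps_zero (m + 1) (nu + 1)
      rw [h1, map_zero] at h2
      have := bb_zero_ne (m + 1) 1
      rw [Nat.cast_one] at this
      exact this h2.symm
  rw [div_eq_iff hne, lommel_eq, lommel_eq, ← qq_mul, map_mul, map_mul, HahnSeries.ofPowerSeries_X]
  have h1 : HahnSeries.single (-(m : ℤ)) (1 : K) =
      HahnSeries.single (1 : ℤ) (1 : K) * HahnSeries.single (-((m + 1 : ℕ) : ℤ)) (1 : K) := by
    rw [HahnSeries.single_mul_single, one_mul]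
    have h : -(m : ℤ) = 1 + -((m + 1 : ℕ) : ℤ) := by push_cast; ring
    rw [← h]
  rw [h1]
  ring

theorem c_eq (m n : ℕ) : c m n = PowerSeries.coeff (2 * n) (qq m) := by
  unfold c
  rw [quot_eq]
  have h : (2 * (n : ℤ) + 1) = ((2 * n + 1 : ℕ) : ℤ) := by push_cast; ring
  rw [h, LaurentSeries.coeff_coe_powerSeries, PowerSeries.coeff_succ_X_mul]

/-- the recurrence -/
theorem rec (m n : ℕ) :
    ∑ j ∈ Finset.range ((m + 1) / 2 + 1), (if j ≤ n then bb (m + 1) (nu + 1) j * c m (n - j)
      else 0) = if n < m / 2 + 1 then bb m (nu + 2) n else 0 := by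
  have h := congrArg (PowerSeries.coeff (2 * n)) (qq_mul m)
  have h1 : PowerSeries.coeff (2 * n) (ps m (nu + 2)) =
      if n < m / 2 + 1 then bb m (nu + 2) n else 0 := by
    unfold ps
    rw [map_sum]
    split_ifs with hn
    · rw [Finset.sum_eq_single n]
      · rw [PowerSeries.coeff_C_mul, PowerSeries.coeff_X_pow, if_pos rfl, mul_one]
      · intro j _ hj
        rw [PowerSeries.coeff_C_mul, PowerSeries.coeff_X_pow, if_neg (by omega), mul_zero]
      · intro h
        exact absurd (Finset.mem_range.2 hn) h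
    · refine Finset.sum_eq_zero fun j hj => ?_
      have := Finset.mem_range.1 hj
      rw [PowerSeries.coeff_C_mul, PowerSeries.coeff_X_pow, if_neg (by omega), mul_zero]
  rw [h1] at h
  rw [← h]
  unfold ps
  rw [Finset.sum_mul, map_sum]
  refine Finset.sum_congr rfl fun j _ => ?_
  rw [mul_assoc, PowerSeries.coeff_C_mul, PowerSeries.coeff_X_pow_mul']
  by_cases hj : j ≤ n
  · rw [if_pos hj, if_pos (by omega), c_eq]
    congr 2
    congr 1
    omega
  · rw [if_neg hj, if_neg (by omega), mul_zero]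

end

end Pool.Agent.H629.LM
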