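import Pool.Agent.H629.LM.Step

set_option autoImplicit false

namespace Pool.Agent.H629.LM

noncomputable section

theorem f_mid {m n j : ℕ} (h : 2 * j = m) : f m n j = 1 := by simp [f, h]

theorem f_low {m n j : ℕ} (h : 2 * j < m) : f m n j = (n + 1) / (j + 1) := by
  unfold f
  rw [if_neg (by omega)]
  have hA : ((n : ℤ) + 1) / ((j : ℤ) + 1) = (((n + 1) / (j + 1) : ℕ) : ℤ) := by push_cast; rfl
  have hB : ((n : ℤ) + m + 1 - 2 * j) / ((m : ℤ) + 1 - j) ≤ ((n : ℤ) + 1) / ((j : ℤ) + 1) := by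
    have h1 : (0 : ℤ) < (m : ℤ) + 1 - j := by omega
    have h2 : (0 : ℤ) < (j : ℤ) + 1 := by omega
    rw [← Int.lt_add_one_iff, Int.ediv_lt_iff_lt_mul h1]
    set q : ℤ := ((n : ℤ) + 1) / ((j : ℤ) + 1) with hq
    have h3 : (n : ℤ) + 1 < (q + 1) * ((j : ℤ) + 1) := by
      rw [← Int.ediv_lt_iff_lt_mul h2]; omega
    have hq0 : 0 ≤ q := Int.ediv_nonneg (by omega) (by omega)
    have h4 : (0 : ℤ) ≤ q * ((m : ℤ) - 2 * j) := mul_nonneg hq0 (by omega)
    nlinarith
  rw [max_eq_left hB, hA, Int.toNat_natCast]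

theorem f_high {m n j : ℕ} (h : m < 2 * j) (hj : j ≤ m) :
    f m n j = if j ≤ n then 1 + (n - j) / (m - j + 1) else 0 := by
  unfold f
  rw [if_neg (by omega)]
  have h1 : (0 : ℤ) < (m : ℤ) + 1 - j := by omega
  have h2 : (0 : ℤ) < (j : ℤ) + 1 := by omega
  split_ifs with hn
  · have hB : ((n : ℤ) + m + 1 - 2 * j) / ((m : ℤ) + 1 - j) =
        ((1 + (n - j) / (m - j + 1) : ℕ) : ℤ) := by
      have e : ((n : ℤ) + m + 1 - 2 * j) = ((n : ℤ) - j) + 1 * ((m : ℤ) + 1 - j) := by ring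
      rw [e, Int.add_mul_ediv_right _ _ (by omega)]
      push_cast [Nat.cast_sub hn, Nat.cast_sub hj]
      rw [show (m : ℤ) + 1 - j = m - j + 1 by ring]
      ring
    have hA : ((n : ℤ) + 1) / ((j : ℤ) + 1) ≤ ((n : ℤ) + m + 1 - 2 * j) / ((m : ℤ) + 1 - j) := by
      rw [Int.le_ediv_iff_mul_le h1]
      set q : ℤ := ((n : ℤ) + 1) / ((j : ℤ) + 1) with hq
      have h3 : q * ((j : ℤ) + 1) ≤ (n : ℤ) + 1 := by
        rw [← Int.le_ediv_iff_mul_le h2]
      have hq1 : 1 ≤ q := by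
        rw [hq, Int.le_ediv_iff_mul_le h2]; omega
      have h4 : (0 : ℤ) ≤ (q - 1) * (2 * (j : ℤ) - m) := mul_nonneg (by omega) (by omega)
      nlinarith
    rw [max_eq_right hA, hB, Int.toNat_natCast]
  · have hA : ((n : ℤ) + 1) / ((j : ℤ) + 1) = 0 :=
      Int.ediv_eq_zero_of_lt (by omega) (by omega)
    have hB : ((n : ℤ) + m + 1 - 2 * j) / ((m : ℤ) + 1 - j) ≤ 0 := by
      rw [← Int.lt_add_one_iff, Int.ediv_lt_iff_lt_mul h1]
      omega
    rw [hA, max_eq_left hB]
    rfl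

theorem div_diff {a b k : ℕ} (hk : k ≤ b) (h : a ≤ k) (ha : 0 < a) : (b - k) / a + 1 ≤ b / a := by
  have h1 : (b - k) / a + 1 = (b - k + a) / a := (Nat.add_div_right _ ha).symm
  rw [h1]
  exact Nat.div_le_div_right (by omega)

theorem fle {m n k j : ℕ} (hn : m + 1 ≤ n) (hk1 : 1 ≤ k) (hk2 : 2 * k ≤ m + 1) (hj : j ≤ m) :
    1 + f m (n - k) j ≤ f m n j + (if k ≤ j ∧ j < m + 1 - k then 1 else 0) := by
  rcases lt_trichotomy (2 * j) m with h | h | h
  · rw [f_low h, f_low h]
    split_ifs with hc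
    · have := Nat.div_le_div_right (c := j + 1) (show n - k + 1 ≤ n + 1 by omega)
      omega
    · have hkj : j + 1 ≤ k := by omega
      have := div_diff (a := j + 1) (b := n + 1) (k := k) (by omega) hkj (by omega)
      rw [show n + 1 - k = n - k + 1 by omega] at this
      omega
  · rw [f_mid h, f_mid h, if_pos (by omega)]
  · rw [f_high h hj, f_high h hj, if_pos (show j ≤ n by omega)]
    by_cases hjk : j ≤ n - k
    · rw [if_pos hjk]
      split_ifs with hc
      · have := Nat.div_le_div_right (c := m - j + 1) (show n - k - j ≤ n - j by omega)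
        omega
      · have hkj : m - j + 1 ≤ k := by omega
        have := div_diff (a := m - j + 1) (b := n - j) (k := k) (by omega) hkj (by omega)
        rw [show n - j - k = n - k - j by omega] at this
        omega
    · rw [if_neg hjk]
      exact le_trans (Nat.le_add_right 1 _) (Nat.le_add_right _ _)

theorem bb_choose {m j : ℕ} (a : K) (h : 2 * j ≤ m) :
    bb m a j = (-1) ^ j * ((m - j).choose j : K) * ∏ i ∈ Finset.Ico j (m - j), (a + i) := by
  unfold bb
  rw [Nat.cast_choose K (show j ≤ m - j by omega), show m - j - j = m - 2 * j by omega]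

theorem prod_ind (m k : ℕ) :
    ∏ i ∈ Finset.Ico k (m + 1 - k), (nu + 1 + (i : K)) =
      ∏ j ∈ Finset.range (m + 1), (nu + 1 + (j : K)) ^ (if k ≤ j ∧ j < m + 1 - k then 1 else 0) := by
  have h : Finset.Ico k (m + 1 - k) =
      (Finset.range (m + 1)).filter (fun j => k ≤ j ∧ j < m + 1 - k) := by
    ext i
    simp only [Finset.mem_Ico, Finset.mem_filter, Finset.mem_range]
    omega
  rw [h, Finset.prod_filter]
  refine Finset.prod_congr rfl fun j _ => ?_
  split_ifs <;> simp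

/-- the quotient `D_n / (D_{n-k} y_1 ... y_k)` -/
def RR (m n k : ℕ) : K := ∏ j ∈ Finset.range (m + 1), (nu + 1 + (j : K)) ^
  (f m n j + (if k ≤ j ∧ j < m + 1 - k then 1 else 0) - (1 + f m (n - k) j))

theorem x_ne (j : ℕ) : nu + 1 + (j : K) ≠ 0 := by
  have h := nu_add_ne (1 + j)
  rwa [Nat.cast_add, ← add_assoc, Nat.cast_one] at h

theorem x_mem' (j : ℕ) : nu + 1 + (j : K) ∈ S := add_mem (add_mem nu_mem (one_mem _)) (nat_mem j)

theorem RR_mem (m n k : ℕ) : RR m n k ∈ S := prod_mem fun j _ => pow_mem (x_mem' j) _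

theorem bb_D {m n k : ℕ} (hn : m + 1 ≤ n) (hk1 : 1 ≤ k) (hk2 : 2 * k ≤ m + 1) :
    bb (m + 1) (nu + 1) k * D m n =
      (-1) ^ k * ((m + 1 - k).choose k : K) * RR m n k * bb (m + 1) (nu + 1) 0 * D m (n - k) := by
  rw [bb_choose _ hk2, bb_choose _ (Nat.zero_le _)]
  simp only [pow_zero, Nat.sub_zero, Nat.choose_zero_right, Nat.cast_one, one_mul]
  rw [prod_ind, ← Finset.range_eq_Ico]
  unfold D RR
  have h : (∏ j ∈ Finset.range (m + 1), (nu + 1 + (j : K)) ^
      (if k ≤ j ∧ j < m + 1 - k then 1 else 0)) * (∏ j ∈ Finset.range (m + 1),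
        (nu + 1 + (j : K)) ^ f m n j) =
      (∏ j ∈ Finset.range (m + 1), (nu + 1 + (j : K)) ^
        (f m n j + (if k ≤ j ∧ j < m + 1 - k then 1 else 0) - (1 + f m (n - k) j))) *
      (∏ j ∈ Finset.range (m + 1), (nu + 1 + (j : K))) *
      ∏ j ∈ Finset.range (m + 1), (nu + 1 + (j : K)) ^ f m (n - k) j := by
    rw [← Finset.prod_mul_distrib, ← Finset.prod_mul_distrib, ← Finset.prod_mul_distrib]
    refine Finset.prod_congr rfl fun j hj => ?_
    have hj' : j ≤ m := by have := Finset.mem_range.1 hj; omega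
    rw [← pow_add, ← pow_succ, ← pow_add]
    congr 1
    have := fle hn hk1 hk2 hj'
    omega
  rw [mul_assoc, h]
  ring

/-- integer polynomials in `ν` -/
def phiZ : Polynomial ℤ →+* K :=
  (algebraMap (Polynomial ℚ) K).comp (Polynomial.mapRingHom (Int.castRingHom ℚ))

def Rz : Subring K := phiZ.range

theorem S_le {x : K} (hx : x ∈ S) : x ∈ Rz := by
  obtain ⟨p, rfl⟩ := hx
  refine ⟨p.map (Nat.castRingHom ℤ), ?_⟩
  simp only [phiZ, phi, RingHom.comp_apply, Polynomial.coe_mapRingHom, Polynomial.map_map]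
  congr 2

theorem large {m n : ℕ} (hn : m + 1 ≤ n) (ih : ∀ i < n, D m i * c m i ∈ Rz) :
    D m n * c m n ∈ Rz := by
  have h := rec m n
  rw [if_neg (by omega), Finset.sum_range_succ', if_pos (Nat.zero_le _), Nat.sub_zero] at h
  have hb : bb (m + 1) (nu + 1) 0 ≠ 0 := by
    have := bb_zero_ne (m + 1) 1
    rwa [Nat.cast_one] at this
  have e : D m n * c m n = ∑ j ∈ Finset.range ((m + 1) / 2),
      -((-1) ^ (j + 1) * ((m + 1 - (j + 1)).choose (j + 1) : K)) * RR m n (j + 1) *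
        (D m (n - (j + 1)) * c m (n - (j + 1))) := by
    apply mul_left_cancel₀ hb
    have h1 : bb (m + 1) (nu + 1) 0 * c m n = -∑ j ∈ Finset.range ((m + 1) / 2),
        (if j + 1 ≤ n then bb (m + 1) (nu + 1) (j + 1) * c m (n - (j + 1)) else 0) := by
      linear_combination h
    rw [mul_left_comm, h1, mul_neg, Finset.mul_sum, Finset.mul_sum, ← Finset.sum_neg_distrib]
    refine Finset.sum_congr rfl fun j hj => ?_
    have hj' := Finset.mem_range.1 hj
    rw [if_pos (by omega)]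
    have := bb_D (m := m) (n := n) (k := j + 1) hn (by omega) (by omega)
    linear_combination (-(c m (n - (j + 1)))) * this
  rw [e]
  refine sum_mem fun j hj => ?_
  have hj' := Finset.mem_range.1 hj
  refine mul_mem (mul_mem (neg_mem (mul_mem (pow_mem (neg_mem (one_mem _)) _) ?_))
    (S_le (RR_mem _ _ _))) (ih _ (by omega))
  exact S_le (nat_mem _)

end

end Pool.Agent.H629.LM
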