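import Pool.Agent.H629.LM.Kish

set_option autoImplicit false

namespace Pool.Agent.H629.LM

noncomputable section

theorem bb_bt {m j : ℕ} (a : K) (h : 2 * j ≤ m) : bb m a j = bt m a j := bb_choose a h

theorem XC (m : ℕ) : XX (m + 1) * PowerSeries.mk (c m) = ZZ (m + 1) := by
  ext n
  rw [PowerSeries.coeff_mul]
  simp only [XX, ZZ, psS, PowerSeries.coeff_mk]
  rw [Finset.Nat.sum_antidiagonal_eq_sum_range_succ
    (fun i j => bt (m + 1) (nu + 1) i * c m j) n]
  have h := rec m n
  have hr : (if n < m / 2 + 1 then bb m (nu + 2) n else 0) = bt m (nu + 2) n := by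
    split_ifs with hn
    · exact bb_bt _ (by omega)
    · rw [bt_zero_of _ (by omega)]
  rw [hr] at h
  rw [← h]
  have h1 : ∑ k ∈ Finset.range n.succ, bt (m + 1) (nu + 1) k * c m (n - k) =
      ∑ k ∈ Finset.range (n + (m + 1) / 2 + 1),
        if k ≤ n then bt (m + 1) (nu + 1) k * c m (n - k) else 0 := by
    rw [← Finset.sum_filter]
    refine Finset.sum_congr ?_ fun _ _ => rfl
    ext i
    simp only [Finset.mem_range, Finset.mem_filter]
    omega
  have h2 : ∑ j ∈ Finset.range ((m + 1) / 2 + 1),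
      (if j ≤ n then bb (m + 1) (nu + 1) j * c m (n - j) else 0) =
      ∑ k ∈ Finset.range (n + (m + 1) / 2 + 1),
        if k ≤ n then bt (m + 1) (nu + 1) k * c m (n - k) else 0 := by
    have h3 : ∑ j ∈ Finset.range ((m + 1) / 2 + 1),
        (if j ≤ n then bb (m + 1) (nu + 1) j * c m (n - j) else 0) =
        ∑ j ∈ Finset.range ((m + 1) / 2 + 1),
        (if j ≤ n then bt (m + 1) (nu + 1) j * c m (n - j) else 0) := by
      refine Finset.sum_congr rfl fun j hj => ?_
      have := Finset.mem_range.1 hj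
      rw [bb_bt _ (by omega)]
    rw [h3]
    refine Finset.sum_subset ?_ ?_
    · intro i hi
      simp only [Finset.mem_range] at hi ⊢
      omega
    · intro i _ hi
      simp only [Finset.mem_range, not_lt] at hi
      rw [bt_zero_of _ (by omega), zero_mul, ite_self]
  rw [h1, h2]

open PowerSeries in
theorem ricc (m : ℕ) : ∃ φ : PowerSeries K,
    X * d⁄dX K (PowerSeries.mk (c m)) + C (nu + 1) * PowerSeries.mk (c m) - 1 -
      X * PowerSeries.mk (c m) ^ 2 = X ^ (m + 1) * φ := by
  have T := (TV (m + 1)).1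
  have h := XC m
  have hd : d⁄dX K (ZZ (m + 1)) = XX (m + 1) * d⁄dX K (PowerSeries.mk (c m)) +
      PowerSeries.mk (c m) * d⁄dX K (XX (m + 1)) := by
    rw [← h, Derivation.leibniz]
    simp only [smul_eq_mul]
  have hu : constantCoeff (XX (m + 1) ^ 2) ≠ 0 := by
    rw [map_pow]
    refine pow_ne_zero 2 ?_
    rw [← PowerSeries.coeff_zero_eq_constantCoeff_apply, XX, psS, PowerSeries.coeff_mk,
      ← bb_bt _ (Nat.zero_le _)]
    have := bb_zero_ne (m + 1) 1
    rwa [Nat.cast_one] at this
  refine ⟨-(XX (m + 1) ^ 2)⁻¹, ?_⟩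
  have hi := PowerSeries.mul_inv_cancel _ hu
  have key : XX (m + 1) ^ 2 * (X * d⁄dX K (PowerSeries.mk (c m)) +
      C (nu + 1) * PowerSeries.mk (c m) - 1 - X * PowerSeries.mk (c m) ^ 2) = -X ^ (m + 1) := by
    rw [hd, ← h] at T
    linear_combination T
  calc _ = (XX (m + 1) ^ 2 * (XX (m + 1) ^ 2)⁻¹) * (X * d⁄dX K (PowerSeries.mk (c m)) +
      C (nu + 1) * PowerSeries.mk (c m) - 1 - X * PowerSeries.mk (c m) ^ 2) := by
        rw [hi, one_mul]
    _ = _ := by linear_combination ((XX (m + 1) ^ 2)⁻¹) * key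

open PowerSeries in
/-- Kishore's convolution formula for `n ≤ m` -/
theorem conv0 (m : ℕ) : (nu + 1) * c m 0 = 1 := by
  obtain ⟨φ, h⟩ := ricc m
  have h0 := congrArg (PowerSeries.coeff 0) h
  rw [map_sub, map_sub, map_add, PowerSeries.coeff_X_pow_mul', if_neg (by omega)] at h0
  simp only [PowerSeries.coeff_zero_X_mul, PowerSeries.coeff_C_mul, PowerSeries.coeff_mk,
    PowerSeries.coeff_zero_one] at h0
  linear_combination h0

open PowerSeries in
theorem conv (m n : ℕ) (hn : n + 1 ≤ m) : (nu + 1 + ((n + 1 : ℕ) : K)) * c m (n + 1) =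
    ∑ ij ∈ Finset.HasAntidiagonal.antidiagonal n, c m ij.1 * c m ij.2 := by
  obtain ⟨φ, h⟩ := ricc m
  have h0 := congrArg (PowerSeries.coeff (n + 1)) h
  rw [map_sub, map_sub, map_add, PowerSeries.coeff_X_pow_mul', if_neg (by omega),
    PowerSeries.coeff_succ_X_mul, PowerSeries.coeff_succ_X_mul, PowerSeries.coeff_C_mul,
    PowerSeries.coeff_mk, PowerSeries.coeff_derivative, PowerSeries.coeff_mk, pow_two,
    PowerSeries.coeff_mul, PowerSeries.coeff_one, if_neg (by omega)] at h0
  simp only [PowerSeries.coeff_mk] at h0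
  push_cast
  linear_combination h0

/-- Kishore's denominators -/
def DK (m n : ℕ) : K := ∏ j ∈ Finset.range (m + 1), (nu + 1 + (j : K)) ^ ((n + 1) / (j + 1))

theorem DK_mul {m n i j : ℕ} (hn : n + 1 ≤ m) (hij : i + j = n) : ∃ E ∈ S,
    DK m (n + 1) = (nu + 1 + ((n + 1 : ℕ) : K)) * E * (DK m i * DK m j) := by
  refine ⟨∏ l ∈ Finset.range (m + 1), (nu + 1 + (l : K)) ^ ((n + 1 + 1) / (l + 1) -
    ((i + 1) / (l + 1) + (j + 1) / (l + 1) + if l = n + 1 then 1 else 0)),
    prod_mem fun l _ => pow_mem (x_mem' l) _, ?_⟩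
  have h1 : nu + 1 + ((n + 1 : ℕ) : K) = ∏ l ∈ Finset.range (m + 1),
      (nu + 1 + (l : K)) ^ (if l = n + 1 then 1 else 0) := by
    rw [Finset.prod_eq_single (n + 1)]
    · simp
    · intro l _ hl
      simp [hl]
    · intro h
      exact absurd (Finset.mem_range.2 (by omega)) h
  rw [h1]
  unfold DK
  rw [← Finset.prod_mul_distrib, ← Finset.prod_mul_distrib, ← Finset.prod_mul_distrib]
  refine Finset.prod_congr rfl fun l _ => ?_
  rw [← pow_add, ← pow_add, ← pow_add]
  congr 1
  have key : (i + 1) / (l + 1) + (j + 1) / (l + 1) + (if l = n + 1 then 1 else 0) ≤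
      (n + 1 + 1) / (l + 1) := by
    split_ifs with hl
    · rw [Nat.div_eq_of_lt (show i + 1 < l + 1 by omega),
        Nat.div_eq_of_lt (show j + 1 < l + 1 by omega), hl, Nat.div_self (by omega)]
    · have : (i + 1) / (l + 1) + (j + 1) / (l + 1) ≤ (i + 1 + (j + 1)) / (l + 1) :=
        Nat.div_add_div_le_add_div
      rw [show i + 1 + (j + 1) = n + 1 + 1 by omega] at this
      omega
  omega

theorem kish (m : ℕ) : ∀ n, n ≤ m → DK m n * c m n ∈ S := by
  intro n
  induction n using Nat.strong_induction_on with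
  | _ n ih =>
    intro hn
    cases n with
    | zero =>
      have h : DK m 0 = nu + 1 := by
        unfold DK
        rw [Finset.prod_eq_single 0]
        · simp
        · intro l _ hl
          rw [Nat.div_eq_of_lt (by omega), pow_zero]
        · intro h
          simp at h
      rw [h, conv0]
      exact one_mem S
    | succ n =>
      have hx := x_ne (n + 1)
      choose E hE using fun ij : ℕ × ℕ => fun (h : ij.1 + ij.2 = n) =>
        DK_mul (m := m) (n := n) (i := ij.1) (j := ij.2) hn h
      have e : DK m (n + 1) * c m (n + 1) = ∑ ij ∈ (Finset.HasAntidiagonal.antidiagonal n).attach,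
          E ij.1 (Finset.HasAntidiagonal.mem_antidiagonal.1 ij.2) *
            ((DK m ij.1.1 * c m ij.1.1) * (DK m ij.1.2 * c m ij.1.2)) := by
        apply mul_left_cancel₀ hx
        rw [mul_left_comm, conv m n hn, ← Finset.sum_attach, Finset.mul_sum, Finset.mul_sum]
        refine Finset.sum_congr rfl fun ij _ => ?_
        rw [(hE ij.1 (Finset.HasAntidiagonal.mem_antidiagonal.1 ij.2)).2]
        ring
      rw [e]
      refine sum_mem fun ij _ => ?_
      have h1 := Finset.HasAntidiagonal.mem_antidiagonal.1 ij.2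
      exact mul_mem (hE ij.1 h1).1 (mul_mem (ih _ (by omega) (by omega))
        (ih _ (by omega) (by omega)))

theorem fK {m n j : ℕ} (hn : n ≤ m) (hj : j ≤ m) : (n + 1) / (j + 1) ≤ f m n j := by
  rcases lt_trichotomy (2 * j) m with h | h | h
  · rw [f_low h]
  · rw [f_mid h]
    have : (n + 1) / (j + 1) < 2 := by
      rw [Nat.div_lt_iff_lt_mul (by omega)]; omega
    omega
  · rw [f_high h hj]
    split_ifs with hc
    · have : (n + 1) / (j + 1) < 2 := by
        rw [Nat.div_lt_iff_lt_mul (by omega)]; omega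
      exact le_trans (by omega : (n + 1) / (j + 1) ≤ 1) (Nat.le_add_right _ _)
    · rw [Nat.div_eq_of_lt (by omega)]

theorem small {m n : ℕ} (hn : n ≤ m) : D m n * c m n ∈ S := by
  have h : D m n = (∏ j ∈ Finset.range (m + 1), (nu + 1 + (j : K)) ^
      (f m n j - (n + 1) / (j + 1))) * DK m n := by
    unfold D DK
    rw [← Finset.prod_mul_distrib]
    refine Finset.prod_congr rfl fun j hj => ?_
    have := fK hn (show j ≤ m by have := Finset.mem_range.1 hj; omega)
    rw [← pow_add]
    congr 1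
    omega
  rw [h, mul_assoc]
  exact mul_mem (prod_mem fun j _ => pow_mem (x_mem' j) _) (kish m n hn)

theorem integral (m n : ℕ) : D m n * c m n ∈ Rz := by
  induction n using Nat.strong_induction_on with
  | _ n ih =>
    rcases Nat.lt_or_ge m n with h | h
    · exact large h ih
    · exact S_le (small h)

end

end Pool.Agent.H629.LM
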