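import Pool.Agent.H629.LM.IntA

set_option autoImplicit false

namespace Pool.Agent.H629.LM

noncomputable section

theorem algT {R : Type*} [CommRing R] {s a b p X0 X1 Z0 Z1 X0' X1' Z0' Z1' : R}
    (T0 : s * (Z0' * X0 - Z0 * X0') + b * (Z0 * X0) = X0 ^ 2 + s * Z0 ^ 2 - p)
    (T1 : s * (Z1' * X1 - Z1 * X1') + b * (Z1 * X1) = X1 ^ 2 + s * Z1 ^ 2 - s * p)
    (V : s * ((Z1' * X0 - X1' * Z0) + (Z0' * X1 - X0' * Z1)) + b * (Z1 * X0 + X1 * Z0) -
      2 * (X1 * X0 + s * Z1 * Z0) = -((a - 1) * p))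
    (W : Z0 * X1 - X0 * Z1 = -p) :
    s * ((a * Z1' - (Z0 + s * Z0')) * (a * X1 - s * X0) -
        (a * Z1 - s * Z0) * (a * X1' - (X0 + s * X0'))) +
      b * ((a * Z1 - s * Z0) * (a * X1 - s * X0)) =
      (a * X1 - s * X0) ^ 2 + s * (a * Z1 - s * Z0) ^ 2 - s * (s * p) := by
  linear_combination a ^ 2 * T1 + s ^ 2 * T0 - a * s * V - a * s * W

theorem algV {R : Type*} [CommRing R] {s a b p X0 X1 Z0 Z1 X0' X1' Z0' Z1' : R}
    (T1 : s * (Z1' * X1 - Z1 * X1') + b * (Z1 * X1) = X1 ^ 2 + s * Z1 ^ 2 - s * p)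
    (V : s * ((Z1' * X0 - X1' * Z0) + (Z0' * X1 - X0' * Z1)) + b * (Z1 * X0 + X1 * Z0) -
      2 * (X1 * X0 + s * Z1 * Z0) = -((a - 1) * p))
    (W : Z0 * X1 - X0 * Z1 = -p) :
    s * (((a * Z1' - (Z0 + s * Z0')) * X1 - (a * X1' - (X0 + s * X0')) * Z1) +
        (Z1' * (a * X1 - s * X0) - X1' * (a * Z1 - s * Z0))) +
      b * ((a * Z1 - s * Z0) * X1 + (a * X1 - s * X0) * Z1) -
      2 * ((a * X1 - s * X0) * X1 + s * (a * Z1 - s * Z0) * Z1) = -(a * (s * p)) := by
  linear_combination 2 * a * T1 - s * V - s * W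

theorem algW {R : Type*} [CommRing R] {s a p X0 X1 Z0 Z1 : R}
    (W : Z0 * X1 - X0 * Z1 = -p) :
    Z1 * (a * X1 - s * X0) - X1 * (a * Z1 - s * Z0) = -(s * p) := by
  linear_combination s * W

/-- coefficients of the Lommel polynomials, for all indices -/
def bt (m : ℕ) (a : K) (j : ℕ) : K :=
  (-1) ^ j * ((m - j).choose j : K) * ∏ i ∈ Finset.Ico j (m - j), (a + i)

theorem bt_zero_of {m j : ℕ} (a : K) (h : m < 2 * j) : bt m a j = 0 := by
  unfold bt
  rw [Nat.choose_eq_zero_of_lt (by omega)]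
  simp

theorem bt_rec0 (k : ℕ) (a : K) : bt (k + 2) a 0 = (a + (k + 1)) * bt (k + 1) a 0 := by
  simp only [bt, pow_zero, Nat.sub_zero, Nat.choose_zero_right, Nat.cast_one, one_mul]
  rw [Finset.prod_Ico_succ_top (by omega)]
  push_cast
  ring

theorem bt_rec (k j : ℕ) (a : K) :
    bt (k + 2) a (j + 1) = (a + (k + 1)) * bt (k + 1) a (j + 1) - bt k a j := by
  rcases lt_or_ge k (2 * j) with h | h
  · rw [bt_zero_of a (by omega), bt_zero_of a (by omega), bt_zero_of a h]; ring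
  rcases eq_or_lt_of_le h with h | h
  · subst h
    rw [bt_zero_of (m := 2 * j + 1) a (by omega)]
    unfold bt
    rw [show 2 * j + 2 - (j + 1) = j + 1 by omega, show 2 * j - j = j by omega,
      Finset.Ico_self, Finset.Ico_self]
    simp [pow_succ]
  · unfold bt
    rw [show k + 2 - (j + 1) = (k - j) + 1 by omega, show k + 1 - (j + 1) = k - j by omega,
      Finset.prod_Ico_succ_top (show j + 1 ≤ k - j by omega),
      Finset.prod_eq_prod_Ico_succ_bot (show j < k - j by omega), Nat.choose_succ_succ]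
    have hc := Nat.choose_succ_right_eq (k - j) j
    have hc' : ((k - j).choose (j + 1) : K) * ((j : K) + 1) =
        ((k - j).choose j : K) * ((k : K) - 2 * j) := by
      have e : ((k - j - j : ℕ) : K) = (k : K) - 2 * j := by
        rw [show k - j - j = k - 2 * j by omega, Nat.cast_sub (by omega)]
        push_cast; ring
      rw [← e]
      exact_mod_cast hc
    rw [Nat.cast_sub (show j ≤ k by omega)]
    push_cast
    rw [pow_succ]
    linear_combination ((-1) ^ j * ∏ i ∈ Finset.Ico (j + 1) (k - j), (a + (i : K))) * hc'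

def psS (m : ℕ) (a : K) : PowerSeries K := PowerSeries.mk (bt m a)

theorem psS_zero (a : K) : psS 0 a = 1 := by
  ext j
  rw [psS, PowerSeries.coeff_mk, PowerSeries.coeff_one]
  rcases Nat.eq_zero_or_pos j with rfl | h
  · simp [bt]
  · rw [bt_zero_of a (by omega), if_neg (by omega)]

theorem psS_one (a : K) : psS 1 a = PowerSeries.C a := by
  ext j
  rw [psS, PowerSeries.coeff_mk, PowerSeries.coeff_C]
  rcases Nat.eq_zero_or_pos j with rfl | h
  · simp [bt]
  · rw [bt_zero_of a (by omega), if_neg (by omega)]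

theorem psS_rec (k : ℕ) (a : K) :
    psS (k + 2) a = PowerSeries.C (a + (k + 1)) * psS (k + 1) a - PowerSeries.X * psS k a := by
  ext j
  rw [map_sub, PowerSeries.coeff_C_mul]
  cases j with
  | zero =>
    rw [PowerSeries.coeff_zero_X_mul, sub_zero]
    simp only [psS, PowerSeries.coeff_mk]
    exact bt_rec0 k a
  | succ j =>
    rw [PowerSeries.coeff_succ_X_mul]
    simp only [psS, PowerSeries.coeff_mk]
    exact bt_rec k j a

def XX (k : ℕ) : PowerSeries K := psS k (nu + 1)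

def ZZ : ℕ → PowerSeries K
  | 0 => 0
  | k + 1 => psS k (nu + 2)

theorem XX_rec (k : ℕ) :
    XX (k + 2) = PowerSeries.C (nu + (k + 2)) * XX (k + 1) - PowerSeries.X * XX k := by
  unfold XX
  rw [psS_rec, show nu + 1 + ((k : K) + 1) = nu + (k + 2) by ring]

theorem ZZ_rec (k : ℕ) :
    ZZ (k + 2) = PowerSeries.C (nu + (k + 2)) * ZZ (k + 1) - PowerSeries.X * ZZ k := by
  cases k with
  | zero =>
    simp only [ZZ]
    rw [psS_one, psS_zero]
    simp
  | succ k =>
    show psS (k + 2) (nu + 2) = _ * psS (k + 1) (nu + 2) - _ * psS k (nu + 2)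
    rw [psS_rec]
    push_cast
    rw [show nu + 2 + ((k : K) + 1) = nu + (k + 1 + 2) by ring]

open PowerSeries in
theorem der_rec {F0 F1 F2 : PowerSeries K} {a : K} (h : F2 = C a * F1 - X * F0) :
    d⁄dX K F2 = C a * d⁄dX K F1 - (F0 + X * d⁄dX K F0) := by
  rw [h, map_sub, Derivation.leibniz, Derivation.leibniz, PowerSeries.derivative_C,
    PowerSeries.derivative_X]
  simp only [smul_eq_mul, mul_zero, add_zero, mul_one]
  ring

open PowerSeries in
theorem TV (k : ℕ) :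
    (X * (d⁄dX K (ZZ k) * XX k - ZZ k * d⁄dX K (XX k)) + C (nu + 1) * (ZZ k * XX k) =
      XX k ^ 2 + X * ZZ k ^ 2 - X ^ k) ∧
    (X * (d⁄dX K (ZZ (k + 1)) * XX (k + 1) - ZZ (k + 1) * d⁄dX K (XX (k + 1))) +
      C (nu + 1) * (ZZ (k + 1) * XX (k + 1)) =
      XX (k + 1) ^ 2 + X * ZZ (k + 1) ^ 2 - X * X ^ k) ∧
    (X * ((d⁄dX K (ZZ (k + 1)) * XX k - d⁄dX K (XX (k + 1)) * ZZ k) +
      (d⁄dX K (ZZ k) * XX (k + 1) - d⁄dX K (XX k) * ZZ (k + 1))) +
      C (nu + 1) * (ZZ (k + 1) * XX k + XX (k + 1) * ZZ k) -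
      2 * (XX (k + 1) * XX k + X * ZZ (k + 1) * ZZ k) = -((C (nu + (k + 2)) - 1) * X ^ k)) ∧
    (ZZ k * XX (k + 1) - XX k * ZZ (k + 1) = -X ^ k) := by
  induction k with
  | zero =>
    have z0 : ZZ 0 = 0 := rfl
    have z1 : ZZ (0 + 1) = 1 := psS_zero _
    have x0 : XX 0 = 1 := psS_zero _
    have x1 : XX (0 + 1) = C (nu + 1) := psS_one _
    have e : (C (nu + ((0 : ℕ) + 2)) : PowerSeries K) = C (nu + 1) + 1 := by
      rw [← map_one C, ← map_add]
      congr 1
      push_cast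
      ring
    rw [z0, z1, x0, x1, e]
    have d1 : d⁄dX K (1 : PowerSeries K) = 0 := by
      have : d⁄dX K (C (1 : K)) = 0 := PowerSeries.derivative_C
      rwa [map_one] at this
    rw [d1, PowerSeries.derivative_C, map_zero]
    refine ⟨by ring, by ring, by ring, by ring⟩
  | succ k ih =>
    obtain ⟨T0, T1, V, W⟩ := ih
    have hX := XX_rec k
    have hZ := ZZ_rec k
    have dX' := der_rec hX
    have dZ' := der_rec hZ
    have e : (C (nu + ((k + 1 : ℕ) + 2)) : PowerSeries K) - 1 = C (nu + (k + 2)) := by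
      rw [← map_one C, ← map_sub]
      congr 1
      push_cast
      ring
    refine ⟨?_, ?_, ?_, ?_⟩
    · rw [pow_succ' X k]
      exact T1
    · rw [show k + 1 + 1 = k + 2 from rfl, dX', dZ', hX, hZ, pow_succ' X k]
      exact algT T0 T1 V W
    · rw [show k + 1 + 1 = k + 2 from rfl, dX', dZ', hX, hZ, pow_succ' X k, e]
      exact algV T1 V W
    · rw [show k + 1 + 1 = k + 2 from rfl, hX, hZ, pow_succ' X k]
      exact algW W

end

end Pool.Agent.H629.LM
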