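import Pool.Agent.H629.LM.Step

set_option autoImplicit false

namespace Pool.Agent.H629.LM.M0

open Pool.Agent.H629.LM

theorem main (n : ℕ) : D 0 n * c 0 n ∈ S := by
  have h := rec 0 n
  have hD : D 0 n = nu + 1 := by simp [D, f]
  have hb : bb 1 (nu + 1) 0 = nu + 1 := by simp [bb]
  rcases Nat.eq_zero_or_pos n with rfl | hn
  · have h2 : (nu + 1) * c 0 0 = 1 := by
      simpa [hb, bb] using h
    rw [hD, h2]
    exact one_mem S
  · rw [if_neg (by omega)] at h
    have h2 : (nu + 1) * c 0 n = 0 := by
      simpa [hb] using h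
    rw [hD, h2]
    exact zero_mem S

end Pool.Agent.H629.LM.M0
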