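import Pool.Agent.H629.LM.Step

set_option autoImplicit false

namespace Pool.Agent.H629.LM.M1

open Pool.Agent.H629.LM

noncomputable section

theorem b0 : bb 2 (nu + 1) 0 = 1 * ((nu+1)*(nu+2)) := by
  unfold bb; norm_num [Finset.prod_Ico_succ_top, Finset.prod_range_succ, Nat.factorial]; left; ring

theorem b1 : bb 2 (nu + 1) 1 = (-1) * (1) := by
  unfold bb; norm_num [Finset.prod_Ico_succ_top, Finset.prod_range_succ, Nat.factorial]; try ring

theorem a0 : bb 1 (nu + 2) 0 = 1 * ((nu+2)) := by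
  unfold bb; norm_num [Finset.prod_Ico_succ_top, Finset.prod_range_succ, Nat.factorial]; try ring

theorem Dx (n : ℕ) : D 1 n = (nu+1)^f 1 n 0 * (nu+2)^f 1 n 1 := by
  unfold D; simp only [Finset.prod_range_succ, Finset.prod_range_zero, one_mul]; norm_num [add_assoc]

theorem D0 : D 1 0 = (nu+1)^1*(nu+2)^0 := by
  rw [Dx, show f 1 0 0 = 1 from rfl, show f 1 0 1 = 0 from rfl]

theorem f0 (n : ℕ) (hn : 0 ≤ n) : f 1 (n + 1) 0 = f 1 n 0 + 1 := by
  simp only [f]; norm_num; omega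

theorem f1 (n : ℕ) (hn : 0 ≤ n) : f 1 (n + 1) 1 = f 1 n 1 + 1 := by
  simp only [f]; norm_num; omega

theorem Ds (n : ℕ) (hn : 0 ≤ n) : D 1 (n + 1) = D 1 n * ((nu+1)*(nu+2)) := by
  rw [Dx, Dx, f0 n hn, f1 n hn]
  simp only [pow_add, pow_one]
  ring

theorem c0 : ((nu+1)^1*(nu+2)^0) * c 1 0 = 1 := by
  have h := rec 1 0
  have h2 : 1 * ((nu+1)*(nu+2)) * c 1 0 = 1 * ((nu+2)) := by
    simpa [Finset.sum_range_succ, b0, b1, a0] using h
  have h0 : (nu+1)*(nu+2) ≠ 0 := by
    have e := nu_add_ne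
    have e1 := e 1; have e2 := e 2; push_cast at e1 e2
    simp only [Ne, mul_eq_zero, not_or]
    tauto
  apply mul_left_cancel₀ h0
  linear_combination ((nu+1)^1*(nu+2)^0) * h2

theorem m0 : D 1 0 * c 1 0 ∈ S := by
  have e : D 1 0 * c 1 0 = ev [1] := by
    rw [D0, c0]; simp only [ev]; push_cast; ring
  rw [e]; exact ev_mem _

theorem rr (n : ℕ) : ((nu+1)*(nu+2)) * c 1 (n + 1) - c 1 n = 0 := by
  have h := rec 1 (n + 1)
  rw [if_neg (by omega)] at h
  simp only [Nat.reduceAdd, Nat.reduceDiv, Finset.sum_range_succ, Finset.sum_range_zero, zero_add] at h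
  rw [if_pos (by omega), if_pos (by omega)] at h
  simp only [Nat.add_sub_cancel, Nat.sub_zero, b0, b1] at h
  linear_combination h

theorem main (n : ℕ) : D 1 n * c 1 n ∈ S := by
  induction n with
  | zero => exact m0
  | succ n ih =>
    have e : D 1 (n + 1) * c 1 (n + 1) = D 1 n * c 1 n := by
      rw [Ds n (by omega)]; linear_combination (D 1 n) * rr n
    rw [e]; exact ih

end

end Pool.Agent.H629.LM.M1
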