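import Pool.Agent.H629.LM.Step5

set_option autoImplicit false
set_option maxRecDepth 4000

namespace Pool.Agent.H629.LM.M10

open Pool.Agent.H629.LM

noncomputable section

theorem b0 : bb 11 (nu + 1) 0 = 1 * ((nu+1)*(nu+2)*(nu+3)*(nu+4)*(nu+5)*(nu+6)*(nu+7)*(nu+8)*(nu+9)*(nu+10)*(nu+11)) := by
  unfold bb; norm_num [Finset.prod_Ico_succ_top, Finset.prod_range_succ, Nat.factorial]; try ring

theorem b1 : bb 11 (nu + 1) 1 = (-10) * ((nu+2)*(nu+3)*(nu+4)*(nu+5)*(nu+6)*(nu+7)*(nu+8)*(nu+9)*(nu+10)) := by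
  unfold bb; norm_num [Finset.prod_Ico_succ_top, Finset.prod_range_succ, Nat.factorial]; try ring

theorem b2 : bb 11 (nu + 1) 2 = 36 * ((nu+3)*(nu+4)*(nu+5)*(nu+6)*(nu+7)*(nu+8)*(nu+9)) := by
  unfold bb; norm_num [Finset.prod_Ico_succ_top, Finset.prod_range_succ, Nat.factorial]; try ring

theorem b3 : bb 11 (nu + 1) 3 = (-56) * ((nu+4)*(nu+5)*(nu+6)*(nu+7)*(nu+8)) := by
  unfold bb; norm_num [Finset.prod_Ico_succ_top, Finset.prod_range_succ, Nat.factorial]; try ring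

theorem b4 : bb 11 (nu + 1) 4 = 35 * ((nu+5)*(nu+6)*(nu+7)) := by
  unfold bb; norm_num [Finset.prod_Ico_succ_top, Finset.prod_range_succ, Nat.factorial]; try ring

theorem b5 : bb 11 (nu + 1) 5 = (-6) * ((nu+6)) := by
  unfold bb; norm_num [Finset.prod_Ico_succ_top, Finset.prod_range_succ, Nat.factorial]; try ring

theorem a0 : bb 10 (nu + 2) 0 = 1 * ((nu+2)*(nu+3)*(nu+4)*(nu+5)*(nu+6)*(nu+7)*(nu+8)*(nu+9)*(nu+10)*(nu+11)) := by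
  unfold bb; norm_num [Finset.prod_Ico_succ_top, Finset.prod_range_succ, Nat.factorial]; try ring

theorem a1 : bb 10 (nu + 2) 1 = (-9) * ((nu+3)*(nu+4)*(nu+5)*(nu+6)*(nu+7)*(nu+8)*(nu+9)*(nu+10)) := by
  unfold bb; norm_num [Finset.prod_Ico_succ_top, Finset.prod_range_succ, Nat.factorial]; try ring

theorem a2 : bb 10 (nu + 2) 2 = 28 * ((nu+4)*(nu+5)*(nu+6)*(nu+7)*(nu+8)*(nu+9)) := by
  unfold bb; norm_num [Finset.prod_Ico_succ_top, Finset.prod_range_succ, Nat.factorial]; try ring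

theorem a3 : bb 10 (nu + 2) 3 = (-35) * ((nu+5)*(nu+6)*(nu+7)*(nu+8)) := by
  unfold bb; norm_num [Finset.prod_Ico_succ_top, Finset.prod_range_succ, Nat.factorial]; try ring

theorem a4 : bb 10 (nu + 2) 4 = 15 * ((nu+6)*(nu+7)) := by
  unfold bb; norm_num [Finset.prod_Ico_succ_top, Finset.prod_range_succ, Nat.factorial]; try ring

theorem a5 : bb 10 (nu + 2) 5 = (-1) * (1) := by
  unfold bb; norm_num [Finset.prod_Ico_succ_top, Finset.prod_range_succ, Nat.factorial]; try ring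

theorem Dx (n : ℕ) : D 10 n = (nu+1)^f 10 n 0 * (nu+2)^f 10 n 1 * (nu+3)^f 10 n 2 * (nu+4)^f 10 n 3 * (nu+5)^f 10 n 4 * (nu+6)^f 10 n 5 * (nu+7)^f 10 n 6 * (nu+8)^f 10 n 7 * (nu+9)^f 10 n 8 * (nu+10)^f 10 n 9 * (nu+11)^f 10 n 10 := by
  unfold D; simp only [Finset.prod_range_succ, Finset.prod_range_zero, one_mul]; norm_num [add_assoc]

theorem D0 : D 10 0 = (nu+1)^1*(nu+2)^0*(nu+3)^0*(nu+4)^0*(nu+5)^0*(nu+6)^1*(nu+7)^0*(nu+8)^0*(nu+9)^0*(nu+10)^0*(nu+11)^0 := by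
  rw [Dx, show f 10 0 0 = 1 from rfl, show f 10 0 1 = 0 from rfl, show f 10 0 2 = 0 from rfl, show f 10 0 3 = 0 from rfl, show f 10 0 4 = 0 from rfl, show f 10 0 5 = 1 from rfl, show f 10 0 6 = 0 from rfl, show f 10 0 7 = 0 from rfl, show f 10 0 8 = 0 from rfl, show f 10 0 9 = 0 from rfl, show f 10 0 10 = 0 from rfl]

theorem D1 : D 10 1 = (nu+1)^2*(nu+2)^1*(nu+3)^0*(nu+4)^0*(nu+5)^0*(nu+6)^1*(nu+7)^0*(nu+8)^0*(nu+9)^0*(nu+10)^0*(nu+11)^0 := by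
  rw [Dx, show f 10 1 0 = 2 from rfl, show f 10 1 1 = 1 from rfl, show f 10 1 2 = 0 from rfl, show f 10 1 3 = 0 from rfl, show f 10 1 4 = 0 from rfl, show f 10 1 5 = 1 from rfl, show f 10 1 6 = 0 from rfl, show f 10 1 7 = 0 from rfl, show f 10 1 8 = 0 from rfl, show f 10 1 9 = 0 from rfl, show f 10 1 10 = 0 from rfl]

theorem D2 : D 10 2 = (nu+1)^3*(nu+2)^1*(nu+3)^1*(nu+4)^0*(nu+5)^0*(nu+6)^1*(nu+7)^0*(nu+8)^0*(nu+9)^0*(nu+10)^0*(nu+11)^0 := by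
  rw [Dx, show f 10 2 0 = 3 from rfl, show f 10 2 1 = 1 from rfl, show f 10 2 2 = 1 from rfl, show f 10 2 3 = 0 from rfl, show f 10 2 4 = 0 from rfl, show f 10 2 5 = 1 from rfl, show f 10 2 6 = 0 from rfl, show f 10 2 7 = 0 from rfl, show f 10 2 8 = 0 from rfl, show f 10 2 9 = 0 from rfl, show f 10 2 10 = 0 from rfl]

theorem D3 : D 10 3 = (nu+1)^4*(nu+2)^2*(nu+3)^1*(nu+4)^1*(nu+5)^0*(nu+6)^1*(nu+7)^0*(nu+8)^0*(nu+9)^0*(nu+10)^0*(nu+11)^0 := by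
  rw [Dx, show f 10 3 0 = 4 from rfl, show f 10 3 1 = 2 from rfl, show f 10 3 2 = 1 from rfl, show f 10 3 3 = 1 from rfl, show f 10 3 4 = 0 from rfl, show f 10 3 5 = 1 from rfl, show f 10 3 6 = 0 from rfl, show f 10 3 7 = 0 from rfl, show f 10 3 8 = 0 from rfl, show f 10 3 9 = 0 from rfl, show f 10 3 10 = 0 from rfl]

theorem D4 : D 10 4 = (nu+1)^5*(nu+2)^2*(nu+3)^1*(nu+4)^1*(nu+5)^1*(nu+6)^1*(nu+7)^0*(nu+8)^0*(nu+9)^0*(nu+10)^0*(nu+11)^0 := by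
  rw [Dx, show f 10 4 0 = 5 from rfl, show f 10 4 1 = 2 from rfl, show f 10 4 2 = 1 from rfl, show f 10 4 3 = 1 from rfl, show f 10 4 4 = 1 from rfl, show f 10 4 5 = 1 from rfl, show f 10 4 6 = 0 from rfl, show f 10 4 7 = 0 from rfl, show f 10 4 8 = 0 from rfl, show f 10 4 9 = 0 from rfl, show f 10 4 10 = 0 from rfl]

theorem D5 : D 10 5 = (nu+1)^6*(nu+2)^3*(nu+3)^2*(nu+4)^1*(nu+5)^1*(nu+6)^1*(nu+7)^0*(nu+8)^0*(nu+9)^0*(nu+10)^0*(nu+11)^0 := by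
  rw [Dx, show f 10 5 0 = 6 from rfl, show f 10 5 1 = 3 from rfl, show f 10 5 2 = 2 from rfl, show f 10 5 3 = 1 from rfl, show f 10 5 4 = 1 from rfl, show f 10 5 5 = 1 from rfl, show f 10 5 6 = 0 from rfl, show f 10 5 7 = 0 from rfl, show f 10 5 8 = 0 from rfl, show f 10 5 9 = 0 from rfl, show f 10 5 10 = 0 from rfl]

theorem D6 : D 10 6 = (nu+1)^7*(nu+2)^3*(nu+3)^2*(nu+4)^1*(nu+5)^1*(nu+6)^1*(nu+7)^1*(nu+8)^0*(nu+9)^0*(nu+10)^0*(nu+11)^0 := by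
  rw [Dx, show f 10 6 0 = 7 from rfl, show f 10 6 1 = 3 from rfl, show f 10 6 2 = 2 from rfl, show f 10 6 3 = 1 from rfl, show f 10 6 4 = 1 from rfl, show f 10 6 5 = 1 from rfl, show f 10 6 6 = 1 from rfl, show f 10 6 7 = 0 from rfl, show f 10 6 8 = 0 from rfl, show f 10 6 9 = 0 from rfl, show f 10 6 10 = 0 from rfl]

theorem D7 : D 10 7 = (nu+1)^8*(nu+2)^4*(nu+3)^2*(nu+4)^2*(nu+5)^1*(nu+6)^1*(nu+7)^1*(nu+8)^1*(nu+9)^0*(nu+10)^0*(nu+11)^0 := by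
  rw [Dx, show f 10 7 0 = 8 from rfl, show f 10 7 1 = 4 from rfl, show f 10 7 2 = 2 from rfl, show f 10 7 3 = 2 from rfl, show f 10 7 4 = 1 from rfl, show f 10 7 5 = 1 from rfl, show f 10 7 6 = 1 from rfl, show f 10 7 7 = 1 from rfl, show f 10 7 8 = 0 from rfl, show f 10 7 9 = 0 from rfl, show f 10 7 10 = 0 from rfl]

theorem D8 : D 10 8 = (nu+1)^9*(nu+2)^4*(nu+3)^3*(nu+4)^2*(nu+5)^1*(nu+6)^1*(nu+7)^1*(nu+8)^1*(nu+9)^1*(nu+10)^0*(nu+11)^0 := by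
  rw [Dx, show f 10 8 0 = 9 from rfl, show f 10 8 1 = 4 from rfl, show f 10 8 2 = 3 from rfl, show f 10 8 3 = 2 from rfl, show f 10 8 4 = 1 from rfl, show f 10 8 5 = 1 from rfl, show f 10 8 6 = 1 from rfl, show f 10 8 7 = 1 from rfl, show f 10 8 8 = 1 from rfl, show f 10 8 9 = 0 from rfl, show f 10 8 10 = 0 from rfl]

theorem D9 : D 10 9 = (nu+1)^10*(nu+2)^5*(nu+3)^3*(nu+4)^2*(nu+5)^2*(nu+6)^1*(nu+7)^1*(nu+8)^1*(nu+9)^1*(nu+10)^1*(nu+11)^0 := by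
  rw [Dx, show f 10 9 0 = 10 from rfl, show f 10 9 1 = 5 from rfl, show f 10 9 2 = 3 from rfl, show f 10 9 3 = 2 from rfl, show f 10 9 4 = 2 from rfl, show f 10 9 5 = 1 from rfl, show f 10 9 6 = 1 from rfl, show f 10 9 7 = 1 from rfl, show f 10 9 8 = 1 from rfl, show f 10 9 9 = 1 from rfl, show f 10 9 10 = 0 from rfl]

theorem D10 : D 10 10 = (nu+1)^11*(nu+2)^5*(nu+3)^3*(nu+4)^2*(nu+5)^2*(nu+6)^1*(nu+7)^1*(nu+8)^1*(nu+9)^1*(nu+10)^1*(nu+11)^1 := by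
  rw [Dx, show f 10 10 0 = 11 from rfl, show f 10 10 1 = 5 from rfl, show f 10 10 2 = 3 from rfl, show f 10 10 3 = 2 from rfl, show f 10 10 4 = 2 from rfl, show f 10 10 5 = 1 from rfl, show f 10 10 6 = 1 from rfl, show f 10 10 7 = 1 from rfl, show f 10 10 8 = 1 from rfl, show f 10 10 9 = 1 from rfl, show f 10 10 10 = 1 from rfl]

theorem D11 : D 10 11 = (nu+1)^12*(nu+2)^6*(nu+3)^4*(nu+4)^3*(nu+5)^2*(nu+6)^1*(nu+7)^2*(nu+8)^2*(nu+9)^2*(nu+10)^2*(nu+11)^2 := by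
  rw [Dx, show f 10 11 0 = 12 from rfl, show f 10 11 1 = 6 from rfl, show f 10 11 2 = 4 from rfl, show f 10 11 3 = 3 from rfl, show f 10 11 4 = 2 from rfl, show f 10 11 5 = 1 from rfl, show f 10 11 6 = 2 from rfl, show f 10 11 7 = 2 from rfl, show f 10 11 8 = 2 from rfl, show f 10 11 9 = 2 from rfl, show f 10 11 10 = 2 from rfl]

theorem D12 : D 10 12 = (nu+1)^13*(nu+2)^6*(nu+3)^4*(nu+4)^3*(nu+5)^2*(nu+6)^1*(nu+7)^2*(nu+8)^2*(nu+9)^2*(nu+10)^2*(nu+11)^3 := by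
  rw [Dx, show f 10 12 0 = 13 from rfl, show f 10 12 1 = 6 from rfl, show f 10 12 2 = 4 from rfl, show f 10 12 3 = 3 from rfl, show f 10 12 4 = 2 from rfl, show f 10 12 5 = 1 from rfl, show f 10 12 6 = 2 from rfl, show f 10 12 7 = 2 from rfl, show f 10 12 8 = 2 from rfl, show f 10 12 9 = 2 from rfl, show f 10 12 10 = 3 from rfl]

theorem D13 : D 10 13 = (nu+1)^14*(nu+2)^7*(nu+3)^4*(nu+4)^3*(nu+5)^2*(nu+6)^1*(nu+7)^2*(nu+8)^2*(nu+9)^2*(nu+10)^3*(nu+11)^4 := by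
  rw [Dx, show f 10 13 0 = 14 from rfl, show f 10 13 1 = 7 from rfl, show f 10 13 2 = 4 from rfl, show f 10 13 3 = 3 from rfl, show f 10 13 4 = 2 from rfl, show f 10 13 5 = 1 from rfl, show f 10 13 6 = 2 from rfl, show f 10 13 7 = 2 from rfl, show f 10 13 8 = 2 from rfl, show f 10 13 9 = 3 from rfl, show f 10 13 10 = 4 from rfl]

def g (n : ℕ) : K := (nu+2)^(if n % 2 = 1 then 1 else 0) * (nu+10)^(if n % 2 = 1 then 1 else 0)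

def h (n : ℕ) : K := (nu+3)^(if n % 3 = 2 then 1 else 0) * (nu+9)^(if n % 3 = 2 then 1 else 0)

def k (n : ℕ) : K := (nu+4)^(if n % 4 = 3 then 1 else 0) * (nu+8)^(if n % 4 = 3 then 1 else 0)

def l (n : ℕ) : K := (nu+5)^(if n % 5 = 4 then 1 else 0) * (nu+7)^(if n % 5 = 1 then 1 else 0)

theorem f0 (n : ℕ) (hn : 9 ≤ n) : f 10 (n + 1) 0 = f 10 n 0 + 1 := by
  simp only [f]; norm_num; omega

theorem f1 (n : ℕ) (hn : 9 ≤ n) : f 10 (n + 1) 1 = f 10 n 1 + (if (n + 1) % 2 = 1 then 1 else 0) := by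
  simp only [f]; norm_num; split_ifs <;> omega

theorem f2 (n : ℕ) (hn : 9 ≤ n) : f 10 (n + 1) 2 = f 10 n 2 + (if (n + 1) % 3 = 2 then 1 else 0) := by
  simp only [f]; norm_num; split_ifs <;> omega

theorem f3 (n : ℕ) (hn : 9 ≤ n) : f 10 (n + 1) 3 = f 10 n 3 + (if (n + 1) % 4 = 3 then 1 else 0) := by
  simp only [f]; norm_num; split_ifs <;> omega

theorem f4 (n : ℕ) (hn : 9 ≤ n) : f 10 (n + 1) 4 = f 10 n 4 + (if (n + 1) % 5 = 4 then 1 else 0) := by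
  simp only [f]; norm_num; split_ifs <;> omega

theorem f5 (n : ℕ) (_hn : 9 ≤ n) : f 10 (n + 1) 5 = f 10 n 5 := by
  simp [f]

theorem f6 (n : ℕ) (hn : 9 ≤ n) : f 10 (n + 1) 6 = f 10 n 6 + (if (n + 1) % 5 = 1 then 1 else 0) := by
  simp only [f]; norm_num; split_ifs <;> omega

theorem f7 (n : ℕ) (hn : 9 ≤ n) : f 10 (n + 1) 7 = f 10 n 7 + (if (n + 1) % 4 = 3 then 1 else 0) := by
  simp only [f]; norm_num; split_ifs <;> omega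

theorem f8 (n : ℕ) (hn : 9 ≤ n) : f 10 (n + 1) 8 = f 10 n 8 + (if (n + 1) % 3 = 2 then 1 else 0) := by
  simp only [f]; norm_num; split_ifs <;> omega

theorem f9 (n : ℕ) (hn : 9 ≤ n) : f 10 (n + 1) 9 = f 10 n 9 + (if (n + 1) % 2 = 1 then 1 else 0) := by
  simp only [f]; norm_num; split_ifs <;> omega

theorem f10 (n : ℕ) (hn : 9 ≤ n) : f 10 (n + 1) 10 = f 10 n 10 + 1 := by
  simp only [f]; norm_num; omega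

theorem Ds (n : ℕ) (hn : 9 ≤ n) : D 10 (n + 1) = D 10 n * ((nu+1)*(nu+11)) * (g (n + 1) * h (n + 1) * k (n + 1) * l (n + 1)) := by
  rw [Dx, Dx, f0 n hn, f1 n hn, f2 n hn, f3 n hn, f4 n hn, f5 n hn, f6 n hn, f7 n hn, f8 n hn, f9 n hn, f10 n hn]
  simp only [g, h, k, l, pow_add, pow_one]
  ring

theorem rr (n : ℕ) (hn : 1 ≤ n) : ((nu+1)*(nu+11)) * ((nu+2)*(nu+10)) * ((nu+3)*(nu+9)) * ((nu+4)*(nu+8)) * ((nu+5)*(nu+7)) * (nu+6) * c 10 (n + 5) - 10 * (((nu+2)*(nu+10)) * ((nu+3)*(nu+9)) * ((nu+4)*(nu+8)) * ((nu+5)*(nu+7)) * (nu+6)) * c 10 (n + 4) + 36 * (((nu+3)*(nu+9)) * ((nu+4)*(nu+8)) * ((nu+5)*(nu+7)) * (nu+6)) * c 10 (n + 3) - 56 * (((nu+4)*(nu+8)) * ((nu+5)*(nu+7)) * (nu+6)) * c 10 (n + 2) + 35 * (((nu+5)*(nu+7)) * (nu+6)) * c 10 (n + 1) - 6 * (nu+6) * c 10 n = 0 := by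
  have h := rec 10 (n + 5)
  rw [if_neg (by omega)] at h
  simp only [Nat.reduceAdd, Nat.reduceDiv, Finset.sum_range_succ, Finset.sum_range_zero, zero_add] at h
  rw [if_pos (show 0 ≤ n + 5 by omega), if_pos (show 1 ≤ n + 5 by omega), if_pos (show 2 ≤ n + 5 by omega), if_pos (show 3 ≤ n + 5 by omega), if_pos (show 4 ≤ n + 5 by omega), if_pos (show 5 ≤ n + 5 by omega)] at h
  simp only [Nat.add_sub_cancel, Nat.sub_zero, show n + 5 - 1 = n + 4 from rfl, show n + 5 - 2 = n + 3 from rfl, show n + 5 - 3 = n + 2 from rfl, show n + 5 - 4 = n + 1 from rfl, b0, b1, b2, b3, b4, b5] at h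
  linear_combination h

theorem c0 : ((nu+1)^1*(nu+2)^0*(nu+3)^0*(nu+4)^0*(nu+5)^0*(nu+6)^1*(nu+7)^0*(nu+8)^0*(nu+9)^0*(nu+10)^0*(nu+11)^0) * c 10 0 = 6 + 1*nu := by
  have h := rec 10 0
  have h2 : 1 * ((nu+1)*(nu+2)*(nu+3)*(nu+4)*(nu+5)*(nu+6)*(nu+7)*(nu+8)*(nu+9)*(nu+10)*(nu+11)) * c 10 0 = 1 * ((nu+2)*(nu+3)*(nu+4)*(nu+5)*(nu+6)*(nu+7)*(nu+8)*(nu+9)*(nu+10)*(nu+11)) := by
    simpa [Finset.sum_range_succ, b0, b1, b2, b3, b4, b5, a0] using h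
  have h0 : (nu+1)*(nu+2)*(nu+3)*(nu+4)*(nu+5)*(nu+6)*(nu+7)*(nu+8)*(nu+9)*(nu+10)*(nu+11) ≠ 0 := by
    have e := nu_add_ne
    have e1 := e 1; have e2 := e 2; have e3 := e 3; have e4 := e 4; have e5 := e 5; have e6 := e 6; have e7 := e 7; have e8 := e 8; have e9 := e 9; have e10 := e 10; have e11 := e 11; push_cast at e1 e2 e3 e4 e5 e6 e7 e8 e9 e10 e11
    simp only [Ne, mul_eq_zero, not_or]
    tauto
  apply mul_left_cancel₀ h0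
  linear_combination ((nu+1)^1*(nu+2)^0*(nu+3)^0*(nu+4)^0*(nu+5)^0*(nu+6)^1*(nu+7)^0*(nu+8)^0*(nu+9)^0*(nu+10)^0*(nu+11)^0) * h2

theorem c1 : ((nu+1)^2*(nu+2)^1*(nu+3)^0*(nu+4)^0*(nu+5)^0*(nu+6)^1*(nu+7)^0*(nu+8)^0*(nu+9)^0*(nu+10)^0*(nu+11)^0) * c 10 1 = 6 + 1*nu := by
  have h := rec 10 1
  have h2 : 1 * ((nu+1)*(nu+2)*(nu+3)*(nu+4)*(nu+5)*(nu+6)*(nu+7)*(nu+8)*(nu+9)*(nu+10)*(nu+11)) * c 10 1 + (-10) * ((nu+2)*(nu+3)*(nu+4)*(nu+5)*(nu+6)*(nu+7)*(nu+8)*(nu+9)*(nu+10)) * c 10 0 = (-9) * ((nu+3)*(nu+4)*(nu+5)*(nu+6)*(nu+7)*(nu+8)*(nu+9)*(nu+10)) := by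
    simpa [Finset.sum_range_succ, b0, b1, b2, b3, b4, b5, a1] using h
  have h0 : (nu+1)*(nu+2)*(nu+3)*(nu+4)*(nu+5)*(nu+6)*(nu+7)*(nu+8)*(nu+9)*(nu+10)*(nu+11) ≠ 0 := by
    have e := nu_add_ne
    have e1 := e 1; have e2 := e 2; have e3 := e 3; have e4 := e 4; have e5 := e 5; have e6 := e 6; have e7 := e 7; have e8 := e 8; have e9 := e 9; have e10 := e 10; have e11 := e 11; push_cast at e1 e2 e3 e4 e5 e6 e7 e8 e9 e10 e11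
    simp only [Ne, mul_eq_zero, not_or]
    tauto
  apply mul_left_cancel₀ h0
  linear_combination ((nu+1)^2*(nu+2)^1*(nu+3)^0*(nu+4)^0*(nu+5)^0*(nu+6)^1*(nu+7)^0*(nu+8)^0*(nu+9)^0*(nu+10)^0*(nu+11)^0) * h2 - ((-10) * ((nu+2)*(nu+3)*(nu+4)*(nu+5)*(nu+6)*(nu+7)*(nu+8)*(nu+9)*(nu+10))) * ((nu+1)^1*(nu+2)^1*(nu+3)^0*(nu+4)^0*(nu+5)^0*(nu+6)^0*(nu+7)^0*(nu+8)^0*(nu+9)^0*(nu+10)^0*(nu+11)^0) * c0

theorem c2 : ((nu+1)^3*(nu+2)^1*(nu+3)^1*(nu+4)^0*(nu+5)^0*(nu+6)^1*(nu+7)^0*(nu+8)^0*(nu+9)^0*(nu+10)^0*(nu+11)^0) * c 10 2 = 12 + 2*nu := by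
  have h := rec 10 2
  have h2 : 1 * ((nu+1)*(nu+2)*(nu+3)*(nu+4)*(nu+5)*(nu+6)*(nu+7)*(nu+8)*(nu+9)*(nu+10)*(nu+11)) * c 10 2 + (-10) * ((nu+2)*(nu+3)*(nu+4)*(nu+5)*(nu+6)*(nu+7)*(nu+8)*(nu+9)*(nu+10)) * c 10 1 + 36 * ((nu+3)*(nu+4)*(nu+5)*(nu+6)*(nu+7)*(nu+8)*(nu+9)) * c 10 0 = 28 * ((nu+4)*(nu+5)*(nu+6)*(nu+7)*(nu+8)*(nu+9)) := by
    simpa [Finset.sum_range_succ, b0, b1, b2, b3, b4, b5, a2] using h
  have h0 : (nu+1)*(nu+2)*(nu+3)*(nu+4)*(nu+5)*(nu+6)*(nu+7)*(nu+8)*(nu+9)*(nu+10)*(nu+11) ≠ 0 := by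
    have e := nu_add_ne
    have e1 := e 1; have e2 := e 2; have e3 := e 3; have e4 := e 4; have e5 := e 5; have e6 := e 6; have e7 := e 7; have e8 := e 8; have e9 := e 9; have e10 := e 10; have e11 := e 11; push_cast at e1 e2 e3 e4 e5 e6 e7 e8 e9 e10 e11
    simp only [Ne, mul_eq_zero, not_or]
    tauto
  apply mul_left_cancel₀ h0
  linear_combination ((nu+1)^3*(nu+2)^1*(nu+3)^1*(nu+4)^0*(nu+5)^0*(nu+6)^1*(nu+7)^0*(nu+8)^0*(nu+9)^0*(nu+10)^0*(nu+11)^0) * h2 - ((-10) * ((nu+2)*(nu+3)*(nu+4)*(nu+5)*(nu+6)*(nu+7)*(nu+8)*(nu+9)*(nu+10))) * ((nu+1)^1*(nu+2)^0*(nu+3)^1*(nu+4)^0*(nu+5)^0*(nu+6)^0*(nu+7)^0*(nu+8)^0*(nu+9)^0*(nu+10)^0*(nu+11)^0) * c1 - (36 * ((nu+3)*(nu+4)*(nu+5)*(nu+6)*(nu+7)*(nu+8)*(nu+9))) * ((nu+1)^2*(nu+2)^1*(nu+3)^1*(nu+4)^0*(nu+5)^0*(nu+6)^0*(nu+7)^0*(nu+8)^0*(nu+9)^0*(nu+10)^0*(nu+11)^0)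 * c0

theorem c3 : ((nu+1)^4*(nu+2)^2*(nu+3)^1*(nu+4)^1*(nu+5)^0*(nu+6)^1*(nu+7)^0*(nu+8)^0*(nu+9)^0*(nu+10)^0*(nu+11)^0) * c 10 3 = 66 + 41*nu + 5*nu^2 := by
  have h := rec 10 3
  have h2 : 1 * ((nu+1)*(nu+2)*(nu+3)*(nu+4)*(nu+5)*(nu+6)*(nu+7)*(nu+8)*(nu+9)*(nu+10)*(nu+11)) * c 10 3 + (-10) * ((nu+2)*(nu+3)*(nu+4)*(nu+5)*(nu+6)*(nu+7)*(nu+8)*(nu+9)*(nu+10)) * c 10 2 + 36 * ((nu+3)*(nu+4)*(nu+5)*(nu+6)*(nu+7)*(nu+8)*(nu+9)) * c 10 1 + (-56) * ((nu+4)*(nu+5)*(nu+6)*(nu+7)*(nu+8)) * c 10 0 = (-35) * ((nu+5)*(nu+6)*(nu+7)*(nu+8)) := by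
    simpa [Finset.sum_range_succ, b0, b1, b2, b3, b4, b5, a3] using h
  have h0 : (nu+1)*(nu+2)*(nu+3)*(nu+4)*(nu+5)*(nu+6)*(nu+7)*(nu+8)*(nu+9)*(nu+10)*(nu+11) ≠ 0 := by
    have e := nu_add_ne
    have e1 := e 1; have e2 := e 2; have e3 := e 3; have e4 := e 4; have e5 := e 5; have e6 := e 6; have e7 := e 7; have e8 := e 8; have e9 := e 9; have e10 := e 10; have e11 := e 11; push_cast at e1 e2 e3 e4 e5 e6 e7 e8 e9 e10 e11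
    simp only [Ne, mul_eq_zero, not_or]
    tauto
  apply mul_left_cancel₀ h0
  linear_combination ((nu+1)^4*(nu+2)^2*(nu+3)^1*(nu+4)^1*(nu+5)^0*(nu+6)^1*(nu+7)^0*(nu+8)^0*(nu+9)^0*(nu+10)^0*(nu+11)^0) * h2 - ((-10) * ((nu+2)*(nu+3)*(nu+4)*(nu+5)*(nu+6)*(nu+7)*(nu+8)*(nu+9)*(nu+10))) * ((nu+1)^1*(nu+2)^1*(nu+3)^0*(nu+4)^1*(nu+5)^0*(nu+6)^0*(nu+7)^0*(nu+8)^0*(nu+9)^0*(nu+10)^0*(nu+11)^0) * c2 - (36 * ((nu+3)*(nu+4)*(nu+5)*(nu+6)*(nu+7)*(nu+8)*(nu+9))) * ((nu+1)^2*(nu+2)^1*(nu+3)^1*(nu+4)^1*(nu+5)^0*(nu+6)^0*(nu+7)^0*(nu+8)^0*(nu+9)^0*(nu+10)^0*(nu+11)^0) * c1 - ((-56) * ((nu+4)*(nu+5)*(nu+6)*(nu+7)*(nu+8))) * ((nu+1)^3*(nu+2)^2*(nu+3)^1*(nu+4)^1*(nu+5)^0*(nu+6)^0*(nu+7)^0*(nu+8)^0*(nu+9)^0*(nu+10)^0*(nu+11)^0) * c0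

theorem c4 : ((nu+1)^5*(nu+2)^2*(nu+3)^1*(nu+4)^1*(nu+5)^1*(nu+6)^1*(nu+7)^0*(nu+8)^0*(nu+9)^0*(nu+10)^0*(nu+11)^0) * c 10 4 = 228 + 122*nu + 14*nu^2 := by
  have h := rec 10 4
  have h2 : 1 * ((nu+1)*(nu+2)*(nu+3)*(nu+4)*(nu+5)*(nu+6)*(nu+7)*(nu+8)*(nu+9)*(nu+10)*(nu+11)) * c 10 4 + (-10) * ((nu+2)*(nu+3)*(nu+4)*(nu+5)*(nu+6)*(nu+7)*(nu+8)*(nu+9)*(nu+10)) * c 10 3 + 36 * ((nu+3)*(nu+4)*(nu+5)*(nu+6)*(nu+7)*(nu+8)*(nu+9)) * c 10 2 + (-56) * ((nu+4)*(nu+5)*(nu+6)*(nu+7)*(nu+8)) * c 10 1 + 35 * ((nu+5)*(nu+6)*(nu+7)) * c 10 0 = 15 * ((nu+6)*(nu+7)) := by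
    simpa [Finset.sum_range_succ, b0, b1, b2, b3, b4, b5, a4] using h
  have h0 : (nu+1)*(nu+2)*(nu+3)*(nu+4)*(nu+5)*(nu+6)*(nu+7)*(nu+8)*(nu+9)*(nu+10)*(nu+11) ≠ 0 := by
    have e := nu_add_ne
    have e1 := e 1; have e2 := e 2; have e3 := e 3; have e4 := e 4; have e5 := e 5; have e6 := e 6; have e7 := e 7; have e8 := e 8; have e9 := e 9; have e10 := e 10; have e11 := e 11; push_cast at e1 e2 e3 e4 e5 e6 e7 e8 e9 e10 e11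
    simp only [Ne, mul_eq_zero, not_or]
    tauto
  apply mul_left_cancel₀ h0
  linear_combination ((nu+1)^5*(nu+2)^2*(nu+3)^1*(nu+4)^1*(nu+5)^1*(nu+6)^1*(nu+7)^0*(nu+8)^0*(nu+9)^0*(nu+10)^0*(nu+11)^0) * h2 - ((-10) * ((nu+2)*(nu+3)*(nu+4)*(nu+5)*(nu+6)*(nu+7)*(nu+8)*(nu+9)*(nu+10))) * ((nu+1)^1*(nu+2)^0*(nu+3)^0*(nu+4)^0*(nu+5)^1*(nu+6)^0*(nu+7)^0*(nu+8)^0*(nu+9)^0*(nu+10)^0*(nu+11)^0) * c3 - (36 * ((nu+3)*(nu+4)*(nu+5)*(nu+6)*(nu+7)*(nu+8)*(nu+9))) * ((nu+1)^2*(nu+2)^1*(nu+3)^0*(nu+4)^1*(nu+5)^1*(nu+6)^0*(nu+7)^0*(nu+8)^0*(nu+9)^0*(nu+10)^0*(nu+11)^0) * c2 - ((-56) * ((nu+4)*(nu+5)*(nu+6)*(nu+7)*(nu+8))) * ((nu+1)^3*(nu+2)^1*(nu+3)^1*(nu+4)^1*(nu+5)^1*(nu+6)^0*(nu+7)^0*(nu+8)^0*(nu+9)^0*(nu+10)^0*(nu+11)^0) * c1 - (35 * ((nu+5)*(nu+6)*(nu+7))) * ((nu+1)^4*(nu+2)^2*(nu+3)^1*(nu+4)^1*(nu+5)^1*(nu+6)^0*(nu+7)^0*(nu+8)^0*(nu+9)^0*(nu+10)^0*(nu+11)^0)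 * c0

theorem c5 : ((nu+1)^6*(nu+2)^3*(nu+3)^2*(nu+4)^1*(nu+5)^1*(nu+6)^1*(nu+7)^0*(nu+8)^0*(nu+9)^0*(nu+10)^0*(nu+11)^0) * c 10 5 = 946 + 1026*nu + 362*nu^2 + 42*nu^3 := by
  have h := rec 10 5
  have h2 : 1 * ((nu+1)*(nu+2)*(nu+3)*(nu+4)*(nu+5)*(nu+6)*(nu+7)*(nu+8)*(nu+9)*(nu+10)*(nu+11)) * c 10 5 + (-10) * ((nu+2)*(nu+3)*(nu+4)*(nu+5)*(nu+6)*(nu+7)*(nu+8)*(nu+9)*(nu+10)) * c 10 4 + 36 * ((nu+3)*(nu+4)*(nu+5)*(nu+6)*(nu+7)*(nu+8)*(nu+9)) * c 10 3 + (-56) * ((nu+4)*(nu+5)*(nu+6)*(nu+7)*(nu+8)) * c 10 2 + 35 * ((nu+5)*(nu+6)*(nu+7)) * c 10 1 + (-6) * ((nu+6)) * c 10 0 = (-1) * (1) := by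
    simpa [Finset.sum_range_succ, b0, b1, b2, b3, b4, b5, a5] using h
  have h0 : (nu+1)*(nu+2)*(nu+3)*(nu+4)*(nu+5)*(nu+6)*(nu+7)*(nu+8)*(nu+9)*(nu+10)*(nu+11) ≠ 0 := by
    have e := nu_add_ne
    have e1 := e 1; have e2 := e 2; have e3 := e 3; have e4 := e 4; have e5 := e 5; have e6 := e 6; have e7 := e 7; have e8 := e 8; have e9 := e 9; have e10 := e 10; have e11 := e 11; push_cast at e1 e2 e3 e4 e5 e6 e7 e8 e9 e10 e11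
    simp only [Ne, mul_eq_zero, not_or]
    tauto
  apply mul_left_cancel₀ h0
  linear_combination ((nu+1)^6*(nu+2)^3*(nu+3)^2*(nu+4)^1*(nu+5)^1*(nu+6)^1*(nu+7)^0*(nu+8)^0*(nu+9)^0*(nu+10)^0*(nu+11)^0) * h2 - ((-10) * ((nu+2)*(nu+3)*(nu+4)*(nu+5)*(nu+6)*(nu+7)*(nu+8)*(nu+9)*(nu+10))) * ((nu+1)^1*(nu+2)^1*(nu+3)^1*(nu+4)^0*(nu+5)^0*(nu+6)^0*(nu+7)^0*(nu+8)^0*(nu+9)^0*(nu+10)^0*(nu+11)^0) * c4 - (36 * ((nu+3)*(nu+4)*(nu+5)*(nu+6)*(nu+7)*(nu+8)*(nu+9))) * ((nu+1)^2*(nu+2)^1*(nu+3)^1*(nu+4)^0*(nu+5)^1*(nu+6)^0*(nu+7)^0*(nu+8)^0*(nu+9)^0*(nu+10)^0*(nu+11)^0) * c3 - ((-56) * ((nu+4)*(nu+5)*(nu+6)*(nu+7)*(nu+8))) * ((nu+1)^3*(nu+2)^2*(nu+3)^1*(nu+4)^1*(nu+5)^1*(nu+6)^0*(nu+7)^0*(nu+8)^0*(nu+9)^0*(nu+10)^0*(nu+11)^0) * c2 - (35 * ((nu+5)*(nu+6)*(nu+7))) * ((nu+1)^4*(nu+2)^2*(nu+3)^2*(nu+4)^1*(nu+5)^1*(nu+6)^0*(nu+7)^0*(nu+8)^0*(nu+9)^0*(nu+10)^0*(nu+11)^0)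 * c1 - ((-6) * ((nu+6))) * ((nu+1)^5*(nu+2)^3*(nu+3)^2*(nu+4)^1*(nu+5)^1*(nu+6)^0*(nu+7)^0*(nu+8)^0*(nu+9)^0*(nu+10)^0*(nu+11)^0) * c0

theorem c6 : ((nu+1)^7*(nu+2)^3*(nu+3)^2*(nu+4)^1*(nu+5)^1*(nu+6)^1*(nu+7)^1*(nu+8)^0*(nu+9)^0*(nu+10)^0*(nu+11)^0) * c 10 6 = 4580 + 4324*nu + 1316*nu^2 + 132*nu^3 := by
  have h := rec 10 6
  have h2 : 1 * ((nu+1)*(nu+2)*(nu+3)*(nu+4)*(nu+5)*(nu+6)*(nu+7)*(nu+8)*(nu+9)*(nu+10)*(nu+11)) * c 10 6 + (-10) * ((nu+2)*(nu+3)*(nu+4)*(nu+5)*(nu+6)*(nu+7)*(nu+8)*(nu+9)*(nu+10)) * c 10 5 + 36 * ((nu+3)*(nu+4)*(nu+5)*(nu+6)*(nu+7)*(nu+8)*(nu+9)) * c 10 4 + (-56) * ((nu+4)*(nu+5)*(nu+6)*(nu+7)*(nu+8)) * c 10 3 + 35 * ((nu+5)*(nu+6)*(nu+7)) * c 10 2 + (-6) * ((nu+6)) * c 10 1 = 0 := by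
    simpa [Finset.sum_range_succ, b0, b1, b2, b3, b4, b5] using h
  have h0 : (nu+1)*(nu+2)*(nu+3)*(nu+4)*(nu+5)*(nu+6)*(nu+7)*(nu+8)*(nu+9)*(nu+10)*(nu+11) ≠ 0 := by
    have e := nu_add_ne
    have e1 := e 1; have e2 := e 2; have e3 := e 3; have e4 := e 4; have e5 := e 5; have e6 := e 6; have e7 := e 7; have e8 := e 8; have e9 := e 9; have e10 := e 10; have e11 := e 11; push_cast at e1 e2 e3 e4 e5 e6 e7 e8 e9 e10 e11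
    simp only [Ne, mul_eq_zero, not_or]
    tauto
  apply mul_left_cancel₀ h0
  linear_combination ((nu+1)^7*(nu+2)^3*(nu+3)^2*(nu+4)^1*(nu+5)^1*(nu+6)^1*(nu+7)^1*(nu+8)^0*(nu+9)^0*(nu+10)^0*(nu+11)^0) * h2 - ((-10) * ((nu+2)*(nu+3)*(nu+4)*(nu+5)*(nu+6)*(nu+7)*(nu+8)*(nu+9)*(nu+10))) * ((nu+1)^1*(nu+2)^0*(nu+3)^0*(nu+4)^0*(nu+5)^0*(nu+6)^0*(nu+7)^1*(nu+8)^0*(nu+9)^0*(nu+10)^0*(nu+11)^0) * c5 - (36 * ((nu+3)*(nu+4)*(nu+5)*(nu+6)*(nu+7)*(nu+8)*(nu+9))) * ((nu+1)^2*(nu+2)^1*(nu+3)^1*(nu+4)^0*(nu+5)^0*(nu+6)^0*(nu+7)^1*(nu+8)^0*(nu+9)^0*(nu+10)^0*(nu+11)^0) * c4 - ((-56) * ((nu+4)*(nu+5)*(nu+6)*(nu+7)*(nu+8))) * ((nu+1)^3*(nu+2)^1*(nu+3)^1*(nu+4)^0*(nu+5)^1*(nu+6)^0*(nu+7)^1*(nu+8)^0*(nu+9)^0*(nu+10)^0*(nu+11)^0) * c3 - (35 * ((nu+5)*(nu+6)*(nu+7))) * ((nu+1)^4*(nu+2)^2*(nu+3)^1*(nu+4)^1*(nu+5)^1*(nu+6)^0*(nu+7)^1*(nu+8)^0*(nu+9)^0*(nu+10)^0*(nu+11)^0)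 * c2 - ((-6) * ((nu+6))) * ((nu+1)^5*(nu+2)^2*(nu+3)^2*(nu+4)^1*(nu+5)^1*(nu+6)^0*(nu+7)^1*(nu+8)^0*(nu+9)^0*(nu+10)^0*(nu+11)^0) * c1

theorem c7 : ((nu+1)^8*(nu+2)^4*(nu+3)^2*(nu+4)^2*(nu+5)^1*(nu+6)^1*(nu+7)^1*(nu+8)^1*(nu+9)^0*(nu+10)^0*(nu+11)^0) * c 10 7 = 202738 + 311387*nu + 185430*nu^2 + 53752*nu^3 + 7640*nu^4 + 429*nu^5 := by
  have h := rec 10 7
  have h2 : 1 * ((nu+1)*(nu+2)*(nu+3)*(nu+4)*(nu+5)*(nu+6)*(nu+7)*(nu+8)*(nu+9)*(nu+10)*(nu+11)) * c 10 7 + (-10) * ((nu+2)*(nu+3)*(nu+4)*(nu+5)*(nu+6)*(nu+7)*(nu+8)*(nu+9)*(nu+10)) * c 10 6 + 36 * ((nu+3)*(nu+4)*(nu+5)*(nu+6)*(nu+7)*(nu+8)*(nu+9)) * c 10 5 + (-56) * ((nu+4)*(nu+5)*(nu+6)*(nu+7)*(nu+8)) * c 10 4 + 35 * ((nu+5)*(nu+6)*(nu+7)) * c 10 3 + (-6) * ((nu+6)) * c 10 2 = 0 := by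
    simpa [Finset.sum_range_succ, b0, b1, b2, b3, b4, b5] using h
  have h0 : (nu+1)*(nu+2)*(nu+3)*(nu+4)*(nu+5)*(nu+6)*(nu+7)*(nu+8)*(nu+9)*(nu+10)*(nu+11) ≠ 0 := by
    have e := nu_add_ne
    have e1 := e 1; have e2 := e 2; have e3 := e 3; have e4 := e 4; have e5 := e 5; have e6 := e 6; have e7 := e 7; have e8 := e 8; have e9 := e 9; have e10 := e 10; have e11 := e 11; push_cast at e1 e2 e3 e4 e5 e6 e7 e8 e9 e10 e11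
    simp only [Ne, mul_eq_zero, not_or]
    tauto
  apply mul_left_cancel₀ h0
  linear_combination ((nu+1)^8*(nu+2)^4*(nu+3)^2*(nu+4)^2*(nu+5)^1*(nu+6)^1*(nu+7)^1*(nu+8)^1*(nu+9)^0*(nu+10)^0*(nu+11)^0) * h2 - ((-10) * ((nu+2)*(nu+3)*(nu+4)*(nu+5)*(nu+6)*(nu+7)*(nu+8)*(nu+9)*(nu+10))) * ((nu+1)^1*(nu+2)^1*(nu+3)^0*(nu+4)^1*(nu+5)^0*(nu+6)^0*(nu+7)^0*(nu+8)^1*(nu+9)^0*(nu+10)^0*(nu+11)^0) * c6 - (36 * ((nu+3)*(nu+4)*(nu+5)*(nu+6)*(nu+7)*(nu+8)*(nu+9))) * ((nu+1)^2*(nu+2)^1*(nu+3)^0*(nu+4)^1*(nu+5)^0*(nu+6)^0*(nu+7)^1*(nu+8)^1*(nu+9)^0*(nu+10)^0*(nu+11)^0) * c5 - ((-56) * ((nu+4)*(nu+5)*(nu+6)*(nu+7)*(nu+8))) * ((nu+1)^3*(nu+2)^2*(nu+3)^1*(nu+4)^1*(nu+5)^0*(nu+6)^0*(nu+7)^1*(nu+8)^1*(nu+9)^0*(nu+10)^0*(nu+11)^0) * c4 - (35 * ((nu+5)*(nu+6)*(nu+7))) * ((nu+1)^4*(nu+2)^2*(nu+3)^1*(nu+4)^1*(nu+5)^1*(nu+6)^0*(nu+7)^1*(nu+8)^1*(nu+9)^0*(nu+10)^0*(nu+11)^0)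 * c3 - ((-6) * ((nu+6))) * ((nu+1)^5*(nu+2)^3*(nu+3)^1*(nu+4)^2*(nu+5)^1*(nu+6)^0*(nu+7)^1*(nu+8)^1*(nu+9)^0*(nu+10)^0*(nu+11)^0) * c2

theorem c8 : ((nu+1)^9*(nu+2)^4*(nu+3)^3*(nu+4)^2*(nu+5)^1*(nu+6)^1*(nu+7)^1*(nu+8)^1*(nu+9)^1*(nu+10)^0*(nu+11)^0) * c 10 8 = 3786092 + 6425694*nu + 4434158*nu^2 + 1596148*nu^3 + 317136*nu^4 + 33134*nu^5 + 1430*nu^6 := by
  have h := rec 10 8
  have h2 : 1 * ((nu+1)*(nu+2)*(nu+3)*(nu+4)*(nu+5)*(nu+6)*(nu+7)*(nu+8)*(nu+9)*(nu+10)*(nu+11)) * c 10 8 + (-10) * ((nu+2)*(nu+3)*(nu+4)*(nu+5)*(nu+6)*(nu+7)*(nu+8)*(nu+9)*(nu+10)) * c 10 7 + 36 * ((nu+3)*(nu+4)*(nu+5)*(nu+6)*(nu+7)*(nu+8)*(nu+9)) * c 10 6 + (-56) * ((nu+4)*(nu+5)*(nu+6)*(nu+7)*(nu+8)) * c 10 5 + 35 * ((nu+5)*(nu+6)*(nu+7)) * c 10 4 + (-6) * ((nu+6)) * c 10 3 = 0 := by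
    simpa [Finset.sum_range_succ, b0, b1, b2, b3, b4, b5] using h
  have h0 : (nu+1)*(nu+2)*(nu+3)*(nu+4)*(nu+5)*(nu+6)*(nu+7)*(nu+8)*(nu+9)*(nu+10)*(nu+11) ≠ 0 := by
    have e := nu_add_ne
    have e1 := e 1; have e2 := e 2; have e3 := e 3; have e4 := e 4; have e5 := e 5; have e6 := e 6; have e7 := e 7; have e8 := e 8; have e9 := e 9; have e10 := e 10; have e11 := e 11; push_cast at e1 e2 e3 e4 e5 e6 e7 e8 e9 e10 e11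
    simp only [Ne, mul_eq_zero, not_or]
    tauto
  apply mul_left_cancel₀ h0
  linear_combination ((nu+1)^9*(nu+2)^4*(nu+3)^3*(nu+4)^2*(nu+5)^1*(nu+6)^1*(nu+7)^1*(nu+8)^1*(nu+9)^1*(nu+10)^0*(nu+11)^0) * h2 - ((-10) * ((nu+2)*(nu+3)*(nu+4)*(nu+5)*(nu+6)*(nu+7)*(nu+8)*(nu+9)*(nu+10))) * ((nu+1)^1*(nu+2)^0*(nu+3)^1*(nu+4)^0*(nu+5)^0*(nu+6)^0*(nu+7)^0*(nu+8)^0*(nu+9)^1*(nu+10)^0*(nu+11)^0) * c7 - (36 * ((nu+3)*(nu+4)*(nu+5)*(nu+6)*(nu+7)*(nu+8)*(nu+9))) * ((nu+1)^2*(nu+2)^1*(nu+3)^1*(nu+4)^1*(nu+5)^0*(nu+6)^0*(nu+7)^0*(nu+8)^1*(nu+9)^1*(nu+10)^0*(nu+11)^0) * c6 - ((-56) * ((nu+4)*(nu+5)*(nu+6)*(nu+7)*(nu+8))) * ((nu+1)^3*(nu+2)^1*(nu+3)^1*(nu+4)^1*(nu+5)^0*(nu+6)^0*(nu+7)^1*(nu+8)^1*(nu+9)^1*(nu+10)^0*(nu+11)^0) * c5 - (35 * ((nu+5)*(nu+6)*(nu+7))) * ((nu+1)^4*(nu+2)^2*(nu+3)^2*(nu+4)^1*(nu+5)^0*(nu+6)^0*(nu+7)^1*(nu+8)^1*(nu+9)^1*(nu+10)^0*(nu+11)^0)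 * c4 - ((-6) * ((nu+6))) * ((nu+1)^5*(nu+2)^2*(nu+3)^2*(nu+4)^1*(nu+5)^1*(nu+6)^0*(nu+7)^1*(nu+8)^1*(nu+9)^1*(nu+10)^0*(nu+11)^0) * c3

theorem c9 : ((nu+1)^10*(nu+2)^5*(nu+3)^3*(nu+4)^2*(nu+5)^2*(nu+6)^1*(nu+7)^1*(nu+8)^1*(nu+9)^1*(nu+10)^1*(nu+11)^0) * c 10 9 = 261868876 + 579783114*nu + 547167306*nu^2 + 287834558*nu^3 + 92481350*nu^4 + 18631334*nu^5 + 2305702*nu^6 + 160850*nu^7 + 4862*nu^8 := by
  have h := rec 10 9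
  have h2 : 1 * ((nu+1)*(nu+2)*(nu+3)*(nu+4)*(nu+5)*(nu+6)*(nu+7)*(nu+8)*(nu+9)*(nu+10)*(nu+11)) * c 10 9 + (-10) * ((nu+2)*(nu+3)*(nu+4)*(nu+5)*(nu+6)*(nu+7)*(nu+8)*(nu+9)*(nu+10)) * c 10 8 + 36 * ((nu+3)*(nu+4)*(nu+5)*(nu+6)*(nu+7)*(nu+8)*(nu+9)) * c 10 7 + (-56) * ((nu+4)*(nu+5)*(nu+6)*(nu+7)*(nu+8)) * c 10 6 + 35 * ((nu+5)*(nu+6)*(nu+7)) * c 10 5 + (-6) * ((nu+6)) * c 10 4 = 0 := by
    simpa [Finset.sum_range_succ, b0, b1, b2, b3, b4, b5] using h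
  have h0 : (nu+1)*(nu+2)*(nu+3)*(nu+4)*(nu+5)*(nu+6)*(nu+7)*(nu+8)*(nu+9)*(nu+10)*(nu+11) ≠ 0 := by
    have e := nu_add_ne
    have e1 := e 1; have e2 := e 2; have e3 := e 3; have e4 := e 4; have e5 := e 5; have e6 := e 6; have e7 := e 7; have e8 := e 8; have e9 := e 9; have e10 := e 10; have e11 := e 11; push_cast at e1 e2 e3 e4 e5 e6 e7 e8 e9 e10 e11
    simp only [Ne, mul_eq_zero, not_or]
    tauto
  apply mul_left_cancel₀ h0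
  linear_combination ((nu+1)^10*(nu+2)^5*(nu+3)^3*(nu+4)^2*(nu+5)^2*(nu+6)^1*(nu+7)^1*(nu+8)^1*(nu+9)^1*(nu+10)^1*(nu+11)^0) * h2 - ((-10) * ((nu+2)*(nu+3)*(nu+4)*(nu+5)*(nu+6)*(nu+7)*(nu+8)*(nu+9)*(nu+10))) * ((nu+1)^1*(nu+2)^1*(nu+3)^0*(nu+4)^0*(nu+5)^1*(nu+6)^0*(nu+7)^0*(nu+8)^0*(nu+9)^0*(nu+10)^1*(nu+11)^0) * c8 - (36 * ((nu+3)*(nu+4)*(nu+5)*(nu+6)*(nu+7)*(nu+8)*(nu+9))) * ((nu+1)^2*(nu+2)^1*(nu+3)^1*(nu+4)^0*(nu+5)^1*(nu+6)^0*(nu+7)^0*(nu+8)^0*(nu+9)^1*(nu+10)^1*(nu+11)^0) * c7 - ((-56) * ((nu+4)*(nu+5)*(nu+6)*(nu+7)*(nu+8))) * ((nu+1)^3*(nu+2)^2*(nu+3)^1*(nu+4)^1*(nu+5)^1*(nu+6)^0*(nu+7)^0*(nu+8)^1*(nu+9)^1*(nu+10)^1*(nu+11)^0) * c6 - (35 * ((nu+5)*(nu+6)*(nu+7))) * ((nu+1)^4*(nu+2)^2*(nu+3)^1*(nu+4)^1*(nu+5)^1*(nu+6)^0*(nu+7)^1*(nu+8)^1*(nu+9)^1*(nu+10)^1*(nu+11)^0) * c5 - ((-6) * ((nu+6))) * ((nu+1)^5*(nu+2)^3*(nu+3)^2*(nu+4)^1*(nu+5)^1*(nu+6)^0*(nu+7)^1*(nu+8)^1*(nu+9)^1*(nu+10)^1*(nu+11)^0)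 * c4

theorem c10 : ((nu+1)^11*(nu+2)^5*(nu+3)^3*(nu+4)^2*(nu+5)^2*(nu+6)^1*(nu+7)^1*(nu+8)^1*(nu+9)^1*(nu+10)^1*(nu+11)^1) * c 10 10 = 1992367192 + 4028104212*nu + 3458238276*nu^2 + 1649756012*nu^3 + 479550668*nu^4 + 87264812*nu^5 + 9748732*nu^6 + 614228*nu^7 + 16796*nu^8 := by
  have h := rec 10 10
  have h2 : 1 * ((nu+1)*(nu+2)*(nu+3)*(nu+4)*(nu+5)*(nu+6)*(nu+7)*(nu+8)*(nu+9)*(nu+10)*(nu+11)) * c 10 10 + (-10) * ((nu+2)*(nu+3)*(nu+4)*(nu+5)*(nu+6)*(nu+7)*(nu+8)*(nu+9)*(nu+10)) * c 10 9 + 36 * ((nu+3)*(nu+4)*(nu+5)*(nu+6)*(nu+7)*(nu+8)*(nu+9)) * c 10 8 + (-56) * ((nu+4)*(nu+5)*(nu+6)*(nu+7)*(nu+8)) * c 10 7 + 35 * ((nu+5)*(nu+6)*(nu+7)) * c 10 6 + (-6) * ((nu+6)) * c 10 5 = 0 := by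
    simpa [Finset.sum_range_succ, b0, b1, b2, b3, b4, b5] using h
  have h0 : (nu+1)*(nu+2)*(nu+3)*(nu+4)*(nu+5)*(nu+6)*(nu+7)*(nu+8)*(nu+9)*(nu+10)*(nu+11) ≠ 0 := by
    have e := nu_add_ne
    have e1 := e 1; have e2 := e 2; have e3 := e 3; have e4 := e 4; have e5 := e 5; have e6 := e 6; have e7 := e 7; have e8 := e 8; have e9 := e 9; have e10 := e 10; have e11 := e 11; push_cast at e1 e2 e3 e4 e5 e6 e7 e8 e9 e10 e11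
    simp only [Ne, mul_eq_zero, not_or]
    tauto
  apply mul_left_cancel₀ h0
  linear_combination ((nu+1)^11*(nu+2)^5*(nu+3)^3*(nu+4)^2*(nu+5)^2*(nu+6)^1*(nu+7)^1*(nu+8)^1*(nu+9)^1*(nu+10)^1*(nu+11)^1) * h2 - ((-10) * ((nu+2)*(nu+3)*(nu+4)*(nu+5)*(nu+6)*(nu+7)*(nu+8)*(nu+9)*(nu+10))) * ((nu+1)^1*(nu+2)^0*(nu+3)^0*(nu+4)^0*(nu+5)^0*(nu+6)^0*(nu+7)^0*(nu+8)^0*(nu+9)^0*(nu+10)^0*(nu+11)^1) * c9 - (36 * ((nu+3)*(nu+4)*(nu+5)*(nu+6)*(nu+7)*(nu+8)*(nu+9))) * ((nu+1)^2*(nu+2)^1*(nu+3)^0*(nu+4)^0*(nu+5)^1*(nu+6)^0*(nu+7)^0*(nu+8)^0*(nu+9)^0*(nu+10)^1*(nu+11)^1) * c8 - ((-56) * ((nu+4)*(nu+5)*(nu+6)*(nu+7)*(nu+8))) * ((nu+1)^3*(nu+2)^1*(nu+3)^1*(nu+4)^0*(nu+5)^1*(nu+6)^0*(nu+7)^0*(nu+8)^0*(nu+9)^1*(nu+10)^1*(nu+11)^1) * c7 - (35 * ((nu+5)*(nu+6)*(nu+7))) * ((nu+1)^4*(nu+2)^2*(nu+3)^1*(nu+4)^1*(nu+5)^1*(nu+6)^0*(nu+7)^0*(nu+8)^1*(nu+9)^1*(nu+10)^1*(nu+11)^1)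 * c6 - ((-6) * ((nu+6))) * ((nu+1)^5*(nu+2)^2*(nu+3)^1*(nu+4)^1*(nu+5)^1*(nu+6)^0*(nu+7)^1*(nu+8)^1*(nu+9)^1*(nu+10)^1*(nu+11)^1) * c5

theorem c11 : ((nu+1)^12*(nu+2)^6*(nu+3)^4*(nu+4)^3*(nu+5)^2*(nu+6)^1*(nu+7)^2*(nu+8)^2*(nu+9)^2*(nu+10)^2*(nu+11)^2) * c 10 11 = 1833566538064792 + 6219122394533212*nu + 9638384280975066*nu^2 + 9058672948134953*nu^3 + 5777735291066940*nu^4 + 2650947805442590*nu^5 + 904638697146582*nu^6 + 234013455895903*nu^7 + 46310641179328*nu^8 + 7018459164688*nu^9 + 808770239142*nu^10 + 69666879479*nu^11 + 4346898860*nu^12 + 185663830*nu^13 + 4858730*nu^14 + 58785*nu^15 := by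
  have h := rec 10 11
  have h2 : 1 * ((nu+1)*(nu+2)*(nu+3)*(nu+4)*(nu+5)*(nu+6)*(nu+7)*(nu+8)*(nu+9)*(nu+10)*(nu+11)) * c 10 11 + (-10) * ((nu+2)*(nu+3)*(nu+4)*(nu+5)*(nu+6)*(nu+7)*(nu+8)*(nu+9)*(nu+10)) * c 10 10 + 36 * ((nu+3)*(nu+4)*(nu+5)*(nu+6)*(nu+7)*(nu+8)*(nu+9)) * c 10 9 + (-56) * ((nu+4)*(nu+5)*(nu+6)*(nu+7)*(nu+8)) * c 10 8 + 35 * ((nu+5)*(nu+6)*(nu+7)) * c 10 7 + (-6) * ((nu+6)) * c 10 6 = 0 := by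
    simpa [Finset.sum_range_succ, b0, b1, b2, b3, b4, b5] using h
  have h0 : (nu+1)*(nu+2)*(nu+3)*(nu+4)*(nu+5)*(nu+6)*(nu+7)*(nu+8)*(nu+9)*(nu+10)*(nu+11) ≠ 0 := by
    have e := nu_add_ne
    have e1 := e 1; have e2 := e 2; have e3 := e 3; have e4 := e 4; have e5 := e 5; have e6 := e 6; have e7 := e 7; have e8 := e 8; have e9 := e 9; have e10 := e 10; have e11 := e 11; push_cast at e1 e2 e3 e4 e5 e6 e7 e8 e9 e10 e11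
    simp only [Ne, mul_eq_zero, not_or]
    tauto
  apply mul_left_cancel₀ h0
  linear_combination ((nu+1)^12*(nu+2)^6*(nu+3)^4*(nu+4)^3*(nu+5)^2*(nu+6)^1*(nu+7)^2*(nu+8)^2*(nu+9)^2*(nu+10)^2*(nu+11)^2) * h2 - ((-10) * ((nu+2)*(nu+3)*(nu+4)*(nu+5)*(nu+6)*(nu+7)*(nu+8)*(nu+9)*(nu+10))) * ((nu+1)^1*(nu+2)^1*(nu+3)^1*(nu+4)^1*(nu+5)^0*(nu+6)^0*(nu+7)^1*(nu+8)^1*(nu+9)^1*(nu+10)^1*(nu+11)^1) * c10 - (36 * ((nu+3)*(nu+4)*(nu+5)*(nu+6)*(nu+7)*(nu+8)*(nu+9))) * ((nu+1)^2*(nu+2)^1*(nu+3)^1*(nu+4)^1*(nu+5)^0*(nu+6)^0*(nu+7)^1*(nu+8)^1*(nu+9)^1*(nu+10)^1*(nu+11)^2) * c9 - ((-56) * ((nu+4)*(nu+5)*(nu+6)*(nu+7)*(nu+8))) * ((nu+1)^3*(nu+2)^2*(nu+3)^1*(nu+4)^1*(nu+5)^1*(nu+6)^0*(nu+7)^1*(nu+8)^1*(nu+9)^1*(nu+10)^2*(nu+11)^2) * c8 - (35 * ((nu+5)*(nu+6)*(nu+7))) * ((nu+1)^4*(nu+2)^2*(nu+3)^2*(nu+4)^1*(nu+5)^1*(nu+6)^0*(nu+7)^1*(nu+8)^1*(nu+9)^2*(nu+10)^2*(nu+11)^2)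 * c7 - ((-6) * ((nu+6))) * ((nu+1)^5*(nu+2)^3*(nu+3)^2*(nu+4)^2*(nu+5)^1*(nu+6)^0*(nu+7)^1*(nu+8)^2*(nu+9)^2*(nu+10)^2*(nu+11)^2) * c6

theorem c12 : ((nu+1)^13*(nu+2)^6*(nu+3)^4*(nu+4)^3*(nu+5)^2*(nu+6)^1*(nu+7)^2*(nu+8)^2*(nu+9)^2*(nu+10)^2*(nu+11)^3) * c 10 12 = 13950256493387728 + 44634748820036872*nu + 65237986113052908*nu^2 + 57826205726745182*nu^3 + 34794499445893968*nu^4 + 15069321933754012*nu^5 + 4858173639693516*nu^6 + 1188589465004986*nu^7 + 222782315032144*nu^8 + 32033448812176*nu^9 + 3509572331076*nu^10 + 288138045362*nu^11 + 17186195600*nu^12 + 704172940*nu^13 + 17752580*nu^14 + 207990*nu^15 := by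
  have h := rec 10 12
  have h2 : 1 * ((nu+1)*(nu+2)*(nu+3)*(nu+4)*(nu+5)*(nu+6)*(nu+7)*(nu+8)*(nu+9)*(nu+10)*(nu+11)) * c 10 12 + (-10) * ((nu+2)*(nu+3)*(nu+4)*(nu+5)*(nu+6)*(nu+7)*(nu+8)*(nu+9)*(nu+10)) * c 10 11 + 36 * ((nu+3)*(nu+4)*(nu+5)*(nu+6)*(nu+7)*(nu+8)*(nu+9)) * c 10 10 + (-56) * ((nu+4)*(nu+5)*(nu+6)*(nu+7)*(nu+8)) * c 10 9 + 35 * ((nu+5)*(nu+6)*(nu+7)) * c 10 8 + (-6) * ((nu+6)) * c 10 7 = 0 := by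
    simpa [Finset.sum_range_succ, b0, b1, b2, b3, b4, b5] using h
  have h0 : (nu+1)*(nu+2)*(nu+3)*(nu+4)*(nu+5)*(nu+6)*(nu+7)*(nu+8)*(nu+9)*(nu+10)*(nu+11) ≠ 0 := by
    have e := nu_add_ne
    have e1 := e 1; have e2 := e 2; have e3 := e 3; have e4 := e 4; have e5 := e 5; have e6 := e 6; have e7 := e 7; have e8 := e 8; have e9 := e 9; have e10 := e 10; have e11 := e 11; push_cast at e1 e2 e3 e4 e5 e6 e7 e8 e9 e10 e11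
    simp only [Ne, mul_eq_zero, not_or]
    tauto
  apply mul_left_cancel₀ h0
  linear_combination ((nu+1)^13*(nu+2)^6*(nu+3)^4*(nu+4)^3*(nu+5)^2*(nu+6)^1*(nu+7)^2*(nu+8)^2*(nu+9)^2*(nu+10)^2*(nu+11)^3) * h2 - ((-10) * ((nu+2)*(nu+3)*(nu+4)*(nu+5)*(nu+6)*(nu+7)*(nu+8)*(nu+9)*(nu+10))) * ((nu+1)^1*(nu+2)^0*(nu+3)^0*(nu+4)^0*(nu+5)^0*(nu+6)^0*(nu+7)^0*(nu+8)^0*(nu+9)^0*(nu+10)^0*(nu+11)^1) * c11 - (36 * ((nu+3)*(nu+4)*(nu+5)*(nu+6)*(nu+7)*(nu+8)*(nu+9))) * ((nu+1)^2*(nu+2)^1*(nu+3)^1*(nu+4)^1*(nu+5)^0*(nu+6)^0*(nu+7)^1*(nu+8)^1*(nu+9)^1*(nu+10)^1*(nu+11)^2) * c10 - ((-56) * ((nu+4)*(nu+5)*(nu+6)*(nu+7)*(nu+8))) * ((nu+1)^3*(nu+2)^1*(nu+3)^1*(nu+4)^1*(nu+5)^0*(nu+6)^0*(nu+7)^1*(nu+8)^1*(nu+9)^1*(nu+10)^1*(nu+11)^3) * c9 - (35 * ((nu+5)*(nu+6)*(nu+7))) * ((nu+1)^4*(nu+2)^2*(nu+3)^1*(nu+4)^1*(nu+5)^1*(nu+6)^0*(nu+7)^1*(nu+8)^1*(nu+9)^1*(nu+10)^2*(nu+11)^3)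 * c8 - ((-6) * ((nu+6))) * ((nu+1)^5*(nu+2)^2*(nu+3)^2*(nu+4)^1*(nu+5)^1*(nu+6)^0*(nu+7)^1*(nu+8)^1*(nu+9)^2*(nu+10)^2*(nu+11)^3) * c7

theorem c13 : ((nu+1)^14*(nu+2)^7*(nu+3)^4*(nu+4)^3*(nu+5)^2*(nu+6)^1*(nu+7)^2*(nu+8)^2*(nu+9)^2*(nu+10)^3*(nu+11)^4) * c 10 13 = 2122744416090392528 + 7657402180274856920*nu + 12710273819140890028*nu^2 + 12901863068735743274*nu^3 + 8977445920133624100*nu^4 + 4548629706627508942*nu^5 + 1739614727464385676*nu^6 + 513554030876604378*nu^7 + 118624589937229700*nu^8 + 21590838529068702*nu^9 + 3100807688996260*nu^10 + 349901765666798*nu^11 + 30689340275596*nu^12 + 2051504761306*nu^13 + 101103023652*nu^14 + 3467501326*nu^15 + 74036732*nu^16 + 742626*nu^17 := by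
  have h := rec 10 13
  have h2 : 1 * ((nu+1)*(nu+2)*(nu+3)*(nu+4)*(nu+5)*(nu+6)*(nu+7)*(nu+8)*(nu+9)*(nu+10)*(nu+11)) * c 10 13 + (-10) * ((nu+2)*(nu+3)*(nu+4)*(nu+5)*(nu+6)*(nu+7)*(nu+8)*(nu+9)*(nu+10)) * c 10 12 + 36 * ((nu+3)*(nu+4)*(nu+5)*(nu+6)*(nu+7)*(nu+8)*(nu+9)) * c 10 11 + (-56) * ((nu+4)*(nu+5)*(nu+6)*(nu+7)*(nu+8)) * c 10 10 + 35 * ((nu+5)*(nu+6)*(nu+7)) * c 10 9 + (-6) * ((nu+6)) * c 10 8 = 0 := by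
    simpa [Finset.sum_range_succ, b0, b1, b2, b3, b4, b5] using h
  have h0 : (nu+1)*(nu+2)*(nu+3)*(nu+4)*(nu+5)*(nu+6)*(nu+7)*(nu+8)*(nu+9)*(nu+10)*(nu+11) ≠ 0 := by
    have e := nu_add_ne
    have e1 := e 1; have e2 := e 2; have e3 := e 3; have e4 := e 4; have e5 := e 5; have e6 := e 6; have e7 := e 7; have e8 := e 8; have e9 := e 9; have e10 := e 10; have e11 := e 11; push_cast at e1 e2 e3 e4 e5 e6 e7 e8 e9 e10 e11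
    simp only [Ne, mul_eq_zero, not_or]
    tauto
  apply mul_left_cancel₀ h0
  linear_combination ((nu+1)^14*(nu+2)^7*(nu+3)^4*(nu+4)^3*(nu+5)^2*(nu+6)^1*(nu+7)^2*(nu+8)^2*(nu+9)^2*(nu+10)^3*(nu+11)^4) * h2 - ((-10) * ((nu+2)*(nu+3)*(nu+4)*(nu+5)*(nu+6)*(nu+7)*(nu+8)*(nu+9)*(nu+10))) * ((nu+1)^1*(nu+2)^1*(nu+3)^0*(nu+4)^0*(nu+5)^0*(nu+6)^0*(nu+7)^0*(nu+8)^0*(nu+9)^0*(nu+10)^1*(nu+11)^1) * c12 - (36 * ((nu+3)*(nu+4)*(nu+5)*(nu+6)*(nu+7)*(nu+8)*(nu+9))) * ((nu+1)^2*(nu+2)^1*(nu+3)^0*(nu+4)^0*(nu+5)^0*(nu+6)^0*(nu+7)^0*(nu+8)^0*(nu+9)^0*(nu+10)^1*(nu+11)^2) * c11 - ((-56) * ((nu+4)*(nu+5)*(nu+6)*(nu+7)*(nu+8))) * ((nu+1)^3*(nu+2)^2*(nu+3)^1*(nu+4)^1*(nu+5)^0*(nu+6)^0*(nu+7)^1*(nu+8)^1*(nu+9)^1*(nu+10)^2*(nu+11)^3) * c10 - (35 * ((nu+5)*(nu+6)*(nu+7))) * ((nu+1)^4*(nu+2)^2*(nu+3)^1*(nu+4)^1*(nu+5)^0*(nu+6)^0*(nu+7)^1*(nu+8)^1*(nu+9)^1*(nu+10)^2*(nu+11)^4)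 * c9 - ((-6) * ((nu+6))) * ((nu+1)^5*(nu+2)^3*(nu+3)^1*(nu+4)^1*(nu+5)^1*(nu+6)^0*(nu+7)^1*(nu+8)^1*(nu+9)^1*(nu+10)^3*(nu+11)^4) * c8

theorem m0 : D 10 0 * c 10 0 ∈ S := by
  have e : D 10 0 * c 10 0 = ev [6, 1] := by
    rw [D0, c0]; simp only [ev]; push_cast; ring
  rw [e]; exact ev_mem _

theorem m1 : D 10 1 * c 10 1 ∈ S := by
  have e : D 10 1 * c 10 1 = ev [6, 1] := by
    rw [D1, c1]; simp only [ev]; push_cast; ring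
  rw [e]; exact ev_mem _

theorem m2 : D 10 2 * c 10 2 ∈ S := by
  have e : D 10 2 * c 10 2 = ev [12, 2] := by
    rw [D2, c2]; simp only [ev]; push_cast; ring
  rw [e]; exact ev_mem _

theorem m3 : D 10 3 * c 10 3 ∈ S := by
  have e : D 10 3 * c 10 3 = ev [66, 41, 5] := by
    rw [D3, c3]; simp only [ev]; push_cast; ring
  rw [e]; exact ev_mem _

theorem m4 : D 10 4 * c 10 4 ∈ S := by
  have e : D 10 4 * c 10 4 = ev [228, 122, 14] := by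
    rw [D4, c4]; simp only [ev]; push_cast; ring
  rw [e]; exact ev_mem _

theorem m5 : D 10 5 * c 10 5 ∈ S := by
  have e : D 10 5 * c 10 5 = ev [946, 1026, 362, 42] := by
    rw [D5, c5]; simp only [ev]; push_cast; ring
  rw [e]; exact ev_mem _

theorem m6 : D 10 6 * c 10 6 ∈ S := by
  have e : D 10 6 * c 10 6 = ev [4580, 4324, 1316, 132] := by
    rw [D6, c6]; simp only [ev]; push_cast; ring
  rw [e]; exact ev_mem _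

theorem m7 : D 10 7 * c 10 7 ∈ S := by
  have e : D 10 7 * c 10 7 = ev [202738, 311387, 185430, 53752, 7640, 429] := by
    rw [D7, c7]; simp only [ev]; push_cast; ring
  rw [e]; exact ev_mem _

theorem m8 : D 10 8 * c 10 8 ∈ S := by
  have e : D 10 8 * c 10 8 = ev [3786092, 6425694, 4434158, 1596148, 317136, 33134, 1430] := by
    rw [D8, c8]; simp only [ev]; push_cast; ring
  rw [e]; exact ev_mem _

theorem m9 : D 10 9 * c 10 9 ∈ S := by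
  have e : D 10 9 * c 10 9 = ev [261868876, 579783114, 547167306, 287834558, 92481350, 18631334, 2305702, 160850, 4862] := by
    rw [D9, c9]; simp only [ev]; push_cast; ring
  rw [e]; exact ev_mem _

theorem m10 : D 10 10 * c 10 10 ∈ S := by
  have e : D 10 10 * c 10 10 = ev [1992367192, 4028104212, 3458238276, 1649756012, 479550668, 87264812, 9748732, 614228, 16796] := by
    rw [D10, c10]; simp only [ev]; push_cast; ring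
  rw [e]; exact ev_mem _

theorem m11 : D 10 11 * c 10 11 ∈ S := by
  have e : D 10 11 * c 10 11 = ev [1833566538064792, 6219122394533212, 9638384280975066, 9058672948134953, 5777735291066940, 2650947805442590, 904638697146582, 234013455895903, 46310641179328, 7018459164688, 808770239142, 69666879479, 4346898860, 185663830, 4858730, 58785] := by
    rw [D11, c11]; simp only [ev]; push_cast; ring
  rw [e]; exact ev_mem _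

theorem m12 : D 10 12 * c 10 12 ∈ S := by
  have e : D 10 12 * c 10 12 = ev [13950256493387728, 44634748820036872, 65237986113052908, 57826205726745182, 34794499445893968, 15069321933754012, 4858173639693516, 1188589465004986, 222782315032144, 32033448812176, 3509572331076, 288138045362, 17186195600, 704172940, 17752580, 207990] := by
    rw [D12, c12]; simp only [ev]; push_cast; ring
  rw [e]; exact ev_mem _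

theorem m13 : D 10 13 * c 10 13 ∈ S := by
  have e : D 10 13 * c 10 13 = ev [2122744416090392528, 7657402180274856920, 12710273819140890028, 12901863068735743274, 8977445920133624100, 4548629706627508942, 1739614727464385676, 513554030876604378, 118624589937229700, 21590838529068702, 3100807688996260, 349901765666798, 30689340275596, 2051504761306, 101103023652, 3467501326, 74036732, 742626] := by
    rw [D13, c13]; simp only [ev]; push_cast; ring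
  rw [e]; exact ev_mem _

theorem g_mem (n : ℕ) : g n ∈ S := mul_mem (pow_mem (xm 2) _) (pow_mem (xm 10) _)

theorem g_w (n : ℕ) : g (n + 1) * g n = ((nu+2)*(nu+10)) := by
  have hc : n % 2 = 0 ∨ n % 2 = 1 := by omega
  rcases hc with h0|h0
  · have h1 : (n + 1) % 2 = 1 := by omega
    simp [g, h0, h1]; try ring
  · have h1 : (n + 1) % 2 = 0 := by omega
    simp [g, h0, h1]; try ring

theorem g_p (n : ℕ) : g (n + 2) = g n := by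
  simp only [g, show (n + 2) % 2 = n % 2 by omega]

theorem h_mem (n : ℕ) : h n ∈ S := mul_mem (pow_mem (xm 3) _) (pow_mem (xm 9) _)

theorem h_w (n : ℕ) : h (n + 2) * h (n + 1) * h n = ((nu+3)*(nu+9)) := by
  have hc : n % 3 = 0 ∨ n % 3 = 1 ∨ n % 3 = 2 := by omega
  rcases hc with h0|h0|h0
  · have h1 : (n + 1) % 3 = 1 := by omega
    have h2 : (n + 2) % 3 = 2 := by omega
    simp [h, h0, h1, h2]; try ring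
  · have h1 : (n + 1) % 3 = 2 := by omega
    have h2 : (n + 2) % 3 = 0 := by omega
    simp [h, h0, h1, h2]; try ring
  · have h1 : (n + 1) % 3 = 0 := by omega
    have h2 : (n + 2) % 3 = 1 := by omega
    simp [h, h0, h1, h2]; try ring

theorem h_p (n : ℕ) : h (n + 3) = h n := by
  simp only [h, show (n + 3) % 3 = n % 3 by omega]

theorem k_mem (n : ℕ) : k n ∈ S := mul_mem (pow_mem (xm 4) _) (pow_mem (xm 8) _)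

theorem k_w (n : ℕ) : k (n + 3) * k (n + 2) * k (n + 1) * k n = ((nu+4)*(nu+8)) := by
  have hc : n % 4 = 0 ∨ n % 4 = 1 ∨ n % 4 = 2 ∨ n % 4 = 3 := by omega
  rcases hc with h0|h0|h0|h0
  · have h1 : (n + 1) % 4 = 1 := by omega
    have h2 : (n + 2) % 4 = 2 := by omega
    have h3 : (n + 3) % 4 = 3 := by omega
    simp [k, h0, h1, h2, h3]; try ring
  · have h1 : (n + 1) % 4 = 2 := by omega
    have h2 : (n + 2) % 4 = 3 := by omega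
    have h3 : (n + 3) % 4 = 0 := by omega
    simp [k, h0, h1, h2, h3]; try ring
  · have h1 : (n + 1) % 4 = 3 := by omega
    have h2 : (n + 2) % 4 = 0 := by omega
    have h3 : (n + 3) % 4 = 1 := by omega
    simp [k, h0, h1, h2, h3]; try ring
  · have h1 : (n + 1) % 4 = 0 := by omega
    have h2 : (n + 2) % 4 = 1 := by omega
    have h3 : (n + 3) % 4 = 2 := by omega
    simp [k, h0, h1, h2, h3]; try ring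

theorem k_p (n : ℕ) : k (n + 4) = k n := by
  simp only [k, show (n + 4) % 4 = n % 4 by omega]

theorem l_mem (n : ℕ) : l n ∈ S := mul_mem (pow_mem (xm 5) _) (pow_mem (xm 7) _)

theorem l_w (n : ℕ) : l (n + 4) * l (n + 3) * l (n + 2) * l (n + 1) * l n = ((nu+5)*(nu+7)) := by
  have hc : n % 5 = 0 ∨ n % 5 = 1 ∨ n % 5 = 2 ∨ n % 5 = 3 ∨ n % 5 = 4 := by omega
  rcases hc with h0|h0|h0|h0|h0
  · have h1 : (n + 1) % 5 = 1 := by omega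
    have h2 : (n + 2) % 5 = 2 := by omega
    have h3 : (n + 3) % 5 = 3 := by omega
    have h4 : (n + 4) % 5 = 4 := by omega
    simp [l, h0, h1, h2, h3, h4]; try ring
  · have h1 : (n + 1) % 5 = 2 := by omega
    have h2 : (n + 2) % 5 = 3 := by omega
    have h3 : (n + 3) % 5 = 4 := by omega
    have h4 : (n + 4) % 5 = 0 := by omega
    simp [l, h0, h1, h2, h3, h4]; try ring
  · have h1 : (n + 1) % 5 = 3 := by omega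
    have h2 : (n + 2) % 5 = 4 := by omega
    have h3 : (n + 3) % 5 = 0 := by omega
    have h4 : (n + 4) % 5 = 1 := by omega
    simp [l, h0, h1, h2, h3, h4]; try ring
  · have h1 : (n + 1) % 5 = 4 := by omega
    have h2 : (n + 2) % 5 = 0 := by omega
    have h3 : (n + 3) % 5 = 1 := by omega
    have h4 : (n + 4) % 5 = 2 := by omega
    simp [l, h0, h1, h2, h3, h4]; try ring
  · have h1 : (n + 1) % 5 = 0 := by omega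
    have h2 : (n + 2) % 5 = 1 := by omega
    have h3 : (n + 3) % 5 = 2 := by omega
    have h4 : (n + 4) % 5 = 3 := by omega
    simp [l, h0, h1, h2, h3, h4]; try ring

def N (n : ℕ) : K := D 10 n * c 10 n

theorem Nv9 : N 9 = 261868876 + 579783114*nu + 547167306*nu^2 + 287834558*nu^3 + 92481350*nu^4 + 18631334*nu^5 + 2305702*nu^6 + 160850*nu^7 + 4862*nu^8 := by
  unfold N; rw [D9, c9]

theorem Nv10 : N 10 = 1992367192 + 4028104212*nu + 3458238276*nu^2 + 1649756012*nu^3 + 479550668*nu^4 + 87264812*nu^5 + 9748732*nu^6 + 614228*nu^7 + 16796*nu^8 := by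
  unfold N; rw [D10, c10]

theorem Nv11 : N 11 = 1833566538064792 + 6219122394533212*nu + 9638384280975066*nu^2 + 9058672948134953*nu^3 + 5777735291066940*nu^4 + 2650947805442590*nu^5 + 904638697146582*nu^6 + 234013455895903*nu^7 + 46310641179328*nu^8 + 7018459164688*nu^9 + 808770239142*nu^10 + 69666879479*nu^11 + 4346898860*nu^12 + 185663830*nu^13 + 4858730*nu^14 + 58785*nu^15 := by
  unfold N; rw [D11, c11]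

theorem Nv12 : N 12 = 13950256493387728 + 44634748820036872*nu + 65237986113052908*nu^2 + 57826205726745182*nu^3 + 34794499445893968*nu^4 + 15069321933754012*nu^5 + 4858173639693516*nu^6 + 1188589465004986*nu^7 + 222782315032144*nu^8 + 32033448812176*nu^9 + 3509572331076*nu^10 + 288138045362*nu^11 + 17186195600*nu^12 + 704172940*nu^13 + 17752580*nu^14 + 207990*nu^15 := by
  unfold N; rw [D12, c12]

theorem Nv13 : N 13 = 2122744416090392528 + 7657402180274856920*nu + 12710273819140890028*nu^2 + 12901863068735743274*nu^3 + 8977445920133624100*nu^4 + 4548629706627508942*nu^5 + 1739614727464385676*nu^6 + 513554030876604378*nu^7 + 118624589937229700*nu^8 + 21590838529068702*nu^9 + 3100807688996260*nu^10 + 349901765666798*nu^11 + 30689340275596*nu^12 + 2051504761306*nu^13 + 101103023652*nu^14 + 3467501326*nu^15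 + 74036732*nu^16 + 742626*nu^17 := by
  unfold N; rw [D13, c13]

theorem gv10 : g 10 = (nu+2)^0*(nu+10)^0 := by
  norm_num [g]

theorem hv10 : h 10 = (nu+3)^0*(nu+9)^0 := by
  norm_num [h]

theorem kv10 : k 10 = (nu+4)^0*(nu+8)^0 := by
  norm_num [k]

theorem lv10 : l 10 = (nu+5)^0*(nu+7)^0 := by
  norm_num [l]

theorem gv11 : g 11 = (nu+2)^1*(nu+10)^1 := by
  norm_num [g]

theorem hv11 : h 11 = (nu+3)^1*(nu+9)^1 := by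
  norm_num [h]

theorem kv11 : k 11 = (nu+4)^1*(nu+8)^1 := by
  norm_num [k]

theorem lv11 : l 11 = (nu+5)^0*(nu+7)^1 := by
  norm_num [l]

theorem gv12 : g 12 = (nu+2)^0*(nu+10)^0 := by
  norm_num [g]

theorem hv12 : h 12 = (nu+3)^0*(nu+9)^0 := by
  norm_num [h]

theorem kv12 : k 12 = (nu+4)^0*(nu+8)^0 := by
  norm_num [k]

theorem lv12 : l 12 = (nu+5)^0*(nu+7)^0 := by
  norm_num [l]

theorem gv13 : g 13 = (nu+2)^1*(nu+10)^1 := by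
  norm_num [g]

theorem hv13 : h 13 = (nu+3)^0*(nu+9)^0 := by
  norm_num [h]

theorem kv13 : k 13 = (nu+4)^0*(nu+8)^0 := by
  norm_num [k]

theorem lv13 : l 13 = (nu+5)^0*(nu+7)^0 := by
  norm_num [l]

def M1 (n : ℕ) : K := N n - 3 * (g (n) * h (n) * k (n) * l (n)) * N (n - 1)

def M2 (n : ℕ) : K := M1 n - 2 * (g (n) * h (n) * k (n) * l (n)) * M1 (n - 1)

def M3 (n : ℕ) : K := M2 n - (g (n) * h (n) * k (n) * l (n)) * M2 (n - 1)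

def M4 (n : ℕ) : K := M3 n - 1 * (g (n) * h (n) * k (n) * l (n)) * M3 (n - 1)

theorem hN (n : ℕ) (hn : 9 ≤ n) : N (n + 5) = 10 * (g (n + 5) * h (n + 5) * k (n + 5) * l (n + 5)) * N (n + 4) - 36 * ((nu+1)*(nu+11)) * (h (n + 5) * h (n + 4)) * (k (n + 5) * k (n + 4)) * (l (n + 5) * l (n + 4)) * N (n + 3) + 56 * ((nu+1)*(nu+11)) ^ 2 * g (n + 5) * (k (n + 5) * k (n + 4) * k (n + 3)) * (l (n + 5) * l (n + 4) * l (n + 3)) * N (n + 2) - 35 * ((nu+1)*(nu+11)) ^ 3 * ((nu+2)*(nu+10)) * h (n + 5) * (l (n + 5) * l (n + 4) * l (n + 3) * l (n + 2)) * N (n + 1) + 6 * ((nu+1)*(nu+11)) ^ 4 * (((nu+2)*(nu+10)) * g (n + 5)) * (h (n + 5) * h (n + 4)) * k (n + 5) * N n := by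
  have e1 := Ds n hn
  have e2 : D 10 (n + 2) = _ := Ds (n + 1) (by omega)
  have e3 : D 10 (n + 3) = _ := Ds (n + 2) (by omega)
  have e4 : D 10 (n + 4) = _ := Ds (n + 3) (by omega)
  have e5 : D 10 (n + 5) = _ := Ds (n + 4) (by omega)
  unfold N
  rw [e5, e4, e3, e2, e1]
  exact toN5 (by have := nu_add_ne 6; exact_mod_cast this) (g_w (n + 4)) (g_p (n + 3)) (g_p (n + 2)) (g_p (n + 1)) (h_p (n + 2)) (h_p (n + 1)) (h_w (n + 1)) (k_p (n + 1)) (k_w (n + 1)) (l_w (n + 1)) (rr n (by omega))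

theorem bM1 : M1 (9 + 1) ∈ S := by
  have e : M1 (9 + 1) = ev [1206760564, 2288754870, 1816736358, 786252338, 202106618, 31370810, 2831626, 131678, 2210] := by
    show N 10 - 3 * (g (10) * h (10) * k (10) * l (10)) * N 9 = _
    rw [Nv9, Nv10, gv10, hv10, kv10, lv10]; simp only [ev]; push_cast; ring
  rw [e]; exact ev_mem _

theorem bM2 : M2 (9 + 2) ∈ S := by
  have e : M2 (9 + 2) = ev [818636815788952, 2618082043821148, 3801249079828378, 3323239824893769, 1956142189239244, 821079846359974, 253852719638966, 58857085660871, 10316664503552, 1367001020800, 135819241670, 9941568263, 519675612, 18376158, 395946, 3977] := by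
    show ((N 11 - 3 * (g (11) * h (11) * k (11) * l (11)) * N 10) - 2 * (g (11) * h (11) * k (11) * l (11)) * (N 10 - 3 * (g (10) * h (10) * k (10) * l (10)) * N 9)) = _
    rw [Nv9, Nv10, Nv11, gv10, hv10, kv10, lv10, gv11, hv11, kv11, lv11]; simp only [ev]; push_cast; ring
  rw [e]; exact ev_mem _

theorem bM3 : M3 (9 + 3) ∈ S := by
  have e : M3 (9 + 3) = ev [5409767400540736, 16103549211303136, 21738147307951568, 17654960633701096, 9649983533304872, 3761225748817288, 1080332607884440, 232960312770720, 38047965747696, 4710730196560, 439113311392, 30330634760, 1508411176, 51332936, 1081720, 10864] := by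
    show (((N 12 - 3 * (g (12) * h (12) * k (12) * l (12)) * N 11) - 2 * (g (12) * h (12) * k (12) * l (12)) * (N 11 - 3 * (g (11) * h (11) * k (11) * l (11)) * N 10)) - (g (12) * h (12) * k (12) * l (12)) * ((N 11 - 3 * (g (11) * h (11) * k (11) * l (11)) * N 10) - 2 * (g (11) * h (11) * k (11) * l (11)) * (N 10 - 3 * (g (10) * h (10) * k (10) * l (10)) * N 9))) = _
    rw [Nv9, Nv10, Nv11, Nv12, gv10, hv10, kv10, lv10, gv11, hv11, kv11, lv11, gv12, hv12, kv12, lv12]; simp only [ev]; push_cast; ring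
  rw [e]; exact ev_mem _

theorem bM4 : M4 (9 + 4) ∈ S := by
  have e : M4 (9 + 4) = ev [714983318981986288, 2399061718021563016, 3678932110389606460, 3425289814890339810, 2169619032333588846, 992782134121109133, 340088003544240968, 89166043267507640, 18134097894337970, 2880771329479087, 358022237372860, 34679546405962, 2592831081906, 147021504939, 6138457728, 179279804, 3311486, 29681] := by
    show ((((N 13 - 3 * (g (13) * h (13) * k (13) * l (13)) * N 12) - 2 * (g (13) * h (13) * k (13) * l (13)) * (N 12 - 3 * (g (12) * h (12) * k (12) * l (12)) * N 11)) - (g (13) * h (13) * k (13) * l (13)) * ((N 12 - 3 * (g (12) * h (12) * k (12) * l (12)) * N 11) - 2 * (g (12) * h (12) * k (12) * l (12)) * (N 11 - 3 * (g (11) * h (11) * k (11) * l (11)) * N 10))) - 1 * (g (13) * h (13) * k (13) * l (13)) * (((N 12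 - 3 * (g (12) * h (12) * k (12) * l (12)) * N 11) - 2 * (g (12) * h (12) * k (12) * l (12)) * (N 11 - 3 * (g (11) * h (11) * k (11) * l (11)) * N 10)) - (g (12) * h (12) * k (12) * l (12)) * ((N 11 - 3 * (g (11) * h (11) * k (11) * l (11)) * N 10) - 2 * (g (11) * h (11) * k (11) * l (11)) * (N 10 - 3 * (g (10) * h (10) * k (10) * l (10)) * N 9)))) = _
    rw [Nv9, Nv10, Nv11, Nv12, Nv13, gv10, hv10, kv10, lv10, gv11, hv11, kv11, lv11, gv12, hv12, kv12, lv12, gv13, hv13, kv13, lv13]; simp only [ev]; push_cast; ring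
  rw [e]; exact ev_mem _

theorem main (n : ℕ) : D 10 n * c 10 n ∈ S := by
  rcases Nat.lt_or_ge n 9 with hn | hn
  · interval_cases n
    · exact m0
    · exact m1
    · exact m2
    · exact m3
    · exact m4
    · exact m5
    · exact m6
    · exact m7
    · exact m8
  · exact (step5 (M1 := M1) (M2 := M2) (M3 := M3) (M4 := M4) (r := 1) (a2 := ((11 + 6 * 1) * ((nu+2)*(nu+10)) - 36 * ((nu+1)*(nu+11)) + (10 - 6 - 1) * (6 + 1) * ((nu+2)*(nu+10)))) (a3 := (56 * ((nu+1)*(nu+11)) ^ 2 - (6 + 11 * 1) * ((nu+2)*(nu+10)) * ((nu+3)*(nu+9)) - (10 - 6 - 1) * (11 + 6 * 1) * ((nu+2)*(nu+10)) * ((nu+3)*(nu+9)) + 6 * ((11 + 6 * 1) * ((nu+2)*(nu+10)) - 36 * ((nu+1)*(nu+11)) + (10 - 6 - 1) * (6 + 1) * ((nu+2)*(nu+10))) * ((nu+3)*(nu+9)))) (a4 := (-35 * ((nu+1)*(nu+11)) ^ 3 + 6 * 1 * ((nu+2)*(nu+10)) * ((nu+3)*(nu+9)) * ((nu+4)*(nu+8))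 + (10 - 6 - 1) * (6 + 11 * 1) * ((nu+2)*(nu+10)) * ((nu+3)*(nu+9)) * ((nu+4)*(nu+8)) - 11 * ((11 + 6 * 1) * ((nu+2)*(nu+10)) - 36 * ((nu+1)*(nu+11)) + (10 - 6 - 1) * (6 + 1) * ((nu+2)*(nu+10))) * ((nu+3)*(nu+9)) * ((nu+4)*(nu+8)) + 5 * (56 * ((nu+1)*(nu+11)) ^ 2 - (6 + 11 * 1) * ((nu+2)*(nu+10)) * ((nu+3)*(nu+9)) - (10 - 6 - 1) * (11 + 6 * 1) * ((nu+2)*(nu+10)) * ((nu+3)*(nu+9)) + 6 * ((11 + 6 * 1) * ((nu+2)*(nu+10)) - 36 * ((nu+1)*(nu+11)) + (10 - 6 - 1) * (6 + 1) * ((nu+2)*(nu+10))) * ((nu+3)*(nu+9))) * ((nu+4)*(nu+8)))) g_mem g_w g_p h_mem h_w h_p k_mem k_w k_p l_mem l_w hN rfl rfl rfl (by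
      have e : (1 : K) = ev [1] := by simp only [ev]; push_cast; ring
      rw [e]; exact ev_mem _) (by
      have e : (10 - 6 - 1 : K) = ev [3] := by simp only [ev]; push_cast; ring
      rw [e]; exact ev_mem _) (by
      have e : (((11 + 6 * 1) * ((nu+2)*(nu+10)) - 36 * ((nu+1)*(nu+11)) + (10 - 6 - 1) * (6 + 1) * ((nu+2)*(nu+10))) : K) = ev [364, 24, 2] := by simp only [ev]; push_cast; ring
      rw [e]; exact ev_mem _) (by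
      have e : ((56 * ((nu+1)*(nu+11)) ^ 2 - (6 + 11 * 1) * ((nu+2)*(nu+10)) * ((nu+3)*(nu+9)) - (10 - 6 - 1) * (11 + 6 * 1) * ((nu+2)*(nu+10)) * ((nu+3)*(nu+9)) + 6 * ((11 + 6 * 1) * ((nu+2)*(nu+10)) - 36 * ((nu+1)*(nu+11)) + (10 - 6 - 1) * (6 + 1) * ((nu+2)*(nu+10))) * ((nu+3)*(nu+9))) : K) = ev [29024, 6528, 544] := by simp only [ev]; push_cast; ring
      rw [e]; exact ev_mem _) (by
      have e : ((-35 * ((nu+1)*(nu+11)) ^ 3 + 6 * 1 * ((nu+2)*(nu+10)) * ((nu+3)*(nu+9)) * ((nu+4)*(nu+8)) + (10 - 6 - 1) * (6 + 11 * 1) * ((nu+2)*(nu+10)) * ((nu+3)*(nu+9)) * ((nu+4)*(nu+8)) - 11 * ((11 + 6 * 1) * ((nu+2)*(nu+10)) - 36 * ((nu+1)*(nu+11)) + (10 - 6 - 1) * (6 + 1) * ((nu+2)*(nu+10))) * ((nu+3)*(nu+9)) * ((nu+4)*(nu+8)) + 5 * (56 * ((nu+1)*(nu+11)) ^ 2 - (6 + 11 * 1) * ((nu+2)*(nu+10)) * ((nu+3)*(nu+9)) - (10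 - 6 - 1) * (11 + 6 * 1) * ((nu+2)*(nu+10)) * ((nu+3)*(nu+9)) + 6 * ((11 + 6 * 1) * ((nu+2)*(nu+10)) - 36 * ((nu+1)*(nu+11)) + (10 - 6 - 1) * (6 + 1) * ((nu+2)*(nu+10))) * ((nu+3)*(nu+9))) * ((nu+4)*(nu+8))) : K) = ev [2122759, 968628, 191023, 18384, 766] := by simp only [ev]; push_cast; ring
      rw [e]; exact ev_mem _) (by
      have e : (6 * ((nu+1)*(nu+11)) ^ 4 - (10 - 6 - 1) * (6 * 1) * ((nu+2)*(nu+10)) * ((nu+3)*(nu+9)) * ((nu+4)*(nu+8)) * ((nu+5)*(nu+7)) + 6 * ((11 + 6 * 1) * ((nu+2)*(nu+10)) - 36 * ((nu+1)*(nu+11)) + (10 - 6 - 1) * (6 + 1) * ((nu+2)*(nu+10))) * ((nu+3)*(nu+9)) * ((nu+4)*(nu+8)) * ((nu+5)*(nu+7)) - 6 * (56 * ((nu+1)*(nu+11)) ^ 2 - (6 + 11 * 1) * ((nu+2)*(nu+10)) * ((nu+3)*(nu+9)) - (10 - 6 - 1) * (11 + 6 * 1) * ((nu+2)*(nu+10)) * ((nu+3)*(nu+9)) + 6 * ((11 + 6 * 1) * ((nu+2)*(nu+10))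 - 36 * ((nu+1)*(nu+11)) + (10 - 6 - 1) * (6 + 1) * ((nu+2)*(nu+10))) * ((nu+3)*(nu+9))) * ((nu+4)*(nu+8)) * ((nu+5)*(nu+7)) + 3 * (-35 * ((nu+1)*(nu+11)) ^ 3 + 6 * 1 * ((nu+2)*(nu+10)) * ((nu+3)*(nu+9)) * ((nu+4)*(nu+8)) + (10 - 6 - 1) * (6 + 11 * 1) * ((nu+2)*(nu+10)) * ((nu+3)*(nu+9)) * ((nu+4)*(nu+8)) - 11 * ((11 + 6 * 1) * ((nu+2)*(nu+10)) - 36 * ((nu+1)*(nu+11)) + (10 - 6 - 1) * (6 + 1) * ((nu+2)*(nu+10))) * ((nu+3)*(nu+9)) * ((nu+4)*(nu+8)) + 5 * (56 * ((nu+1)*(nu+11)) ^ 2 - (6 + 11 * 1) * ((nu+2)*(nu+10)) * ((nu+3)*(nu+9)) - (10 - 6 - 1) * (11 + 6 * 1) * ((nu+2)*(nu+10)) * ((nu+3)*(nu+9)) + 6 * ((11 + 6 * 1) * ((nu+2)*(nu+10)) - 36 * ((nu+1)*(nu+11)) + (10 - 6 - 1) * (6 + 1) * ((nu+2)*(nu+10))) * ((nu+3)*(nu+9))) * ((nu+4)*(nu+8))) * ((nu+5)*(nu+7)) : K) = ev [83094021, 56561328, 17384436, 3076056,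 329049, 20088, 558] := by simp only [ev]; push_cast; ring
      rw [e]; exact ev_mem _) (mul_mem (xm 2) (xm 10)) (fun _ => rfl) (fun _ => rfl) (fun _ => rfl) (fun _ => rfl) (by unfold N; exact m9) bM1 bM2 bM3 bM4 n hn).1

end

end Pool.Agent.H629.LM.M10
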