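import Pool.Agent.H629.LM.Step

set_option autoImplicit false

namespace Pool.Agent.H629.LM.M2

open Pool.Agent.H629.LM

noncomputable section

theorem b0 : bb 3 (nu + 1) 0 = 1 * ((nu+1)*(nu+2)*(nu+3)) := by
  unfold bb; norm_num [Finset.prod_Ico_succ_top, Finset.prod_range_succ, Nat.factorial]; try ring

theorem b1 : bb 3 (nu + 1) 1 = (-2) * ((nu+2)) := by
  unfold bb; norm_num [Finset.prod_Ico_succ_top, Finset.prod_range_succ, Nat.factorial]; try ring

theorem a0 : bb 2 (nu + 2) 0 = 1 * ((nu+2)*(nu+3)) := by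
  unfold bb; norm_num [Finset.prod_Ico_succ_top, Finset.prod_range_succ, Nat.factorial]; left; ring

theorem a1 : bb 2 (nu + 2) 1 = (-1) * (1) := by
  unfold bb; norm_num [Finset.prod_Ico_succ_top, Finset.prod_range_succ, Nat.factorial]; try ring

theorem Dx (n : ℕ) : D 2 n = (nu+1)^f 2 n 0 * (nu+2)^f 2 n 1 * (nu+3)^f 2 n 2 := by
  unfold D; simp only [Finset.prod_range_succ, Finset.prod_range_zero, one_mul]; norm_num [add_assoc]

theorem D0 : D 2 0 = (nu+1)^1*(nu+2)^1*(nu+3)^0 := by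
  rw [Dx, show f 2 0 0 = 1 from rfl, show f 2 0 1 = 1 from rfl, show f 2 0 2 = 0 from rfl]

theorem D1 : D 2 1 = (nu+1)^2*(nu+2)^1*(nu+3)^0 := by
  rw [Dx, show f 2 1 0 = 2 from rfl, show f 2 1 1 = 1 from rfl, show f 2 1 2 = 0 from rfl]

theorem f0 (n : ℕ) (hn : 1 ≤ n) : f 2 (n + 1) 0 = f 2 n 0 + 1 := by
  simp only [f]; norm_num; omega

theorem f1 (n : ℕ) (_hn : 1 ≤ n) : f 2 (n + 1) 1 = f 2 n 1 := by
  simp [f]

theorem f2 (n : ℕ) (hn : 1 ≤ n) : f 2 (n + 1) 2 = f 2 n 2 + 1 := by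
  simp only [f]; norm_num; omega

theorem Ds (n : ℕ) (hn : 1 ≤ n) : D 2 (n + 1) = D 2 n * ((nu+1)*(nu+3)) := by
  rw [Dx, Dx, f0 n hn, f1 n hn, f2 n hn]
  simp only [pow_add, pow_one]
  ring

theorem c0 : ((nu+1)^1*(nu+2)^1*(nu+3)^0) * c 2 0 = 2 + 1*nu := by
  have h := rec 2 0
  have h2 : 1 * ((nu+1)*(nu+2)*(nu+3)) * c 2 0 = 1 * ((nu+2)*(nu+3)) := by
    simpa [Finset.sum_range_succ, b0, b1, a0] using h
  have h0 : (nu+1)*(nu+2)*(nu+3) ≠ 0 := by
    have e := nu_add_ne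
    have e1 := e 1; have e2 := e 2; have e3 := e 3; push_cast at e1 e2 e3
    simp only [Ne, mul_eq_zero, not_or]
    tauto
  apply mul_left_cancel₀ h0
  linear_combination ((nu+1)^1*(nu+2)^1*(nu+3)^0) * h2

theorem m0 : D 2 0 * c 2 0 ∈ S := by
  have e : D 2 0 * c 2 0 = ev [2, 1] := by
    rw [D0, c0]; simp only [ev]; push_cast; ring
  rw [e]; exact ev_mem _

theorem c1 : ((nu+1)^2*(nu+2)^1*(nu+3)^0) * c 2 1 = 1 := by
  have h := rec 2 1
  have h2 : 1 * ((nu+1)*(nu+2)*(nu+3)) * c 2 1 + (-2) * ((nu+2)) * c 2 0 = (-1) * (1) := by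
    simpa [Finset.sum_range_succ, b0, b1, a1] using h
  have h0 : (nu+1)*(nu+2)*(nu+3) ≠ 0 := by
    have e := nu_add_ne
    have e1 := e 1; have e2 := e 2; have e3 := e 3; push_cast at e1 e2 e3
    simp only [Ne, mul_eq_zero, not_or]
    tauto
  apply mul_left_cancel₀ h0
  linear_combination ((nu+1)^2*(nu+2)^1*(nu+3)^0) * h2 - ((-2) * ((nu+2))) * ((nu+1)^1*(nu+2)^0*(nu+3)^0) * c0

theorem m1 : D 2 1 * c 2 1 ∈ S := by
  have e : D 2 1 * c 2 1 = ev [1] := by
    rw [D1, c1]; simp only [ev]; push_cast; ring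
  rw [e]; exact ev_mem _

theorem rr (n : ℕ) (hn : 1 ≤ n) : ((nu+1)*(nu+3)) * (nu+2) * c 2 (n + 1) - 2 * (nu+2) * c 2 n = 0 := by
  have h := rec 2 (n + 1)
  rw [if_neg (by omega)] at h
  simp only [Nat.reduceAdd, Nat.reduceDiv, Finset.sum_range_succ, Finset.sum_range_zero, zero_add] at h
  rw [if_pos (by omega), if_pos (by omega)] at h
  simp only [Nat.add_sub_cancel, Nat.sub_zero, b0, b1] at h
  linear_combination h

theorem main (n : ℕ) : D 2 n * c 2 n ∈ S := by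
  rcases Nat.eq_zero_or_pos n with rfl | hn
  · exact m0
  · induction n, hn using Nat.le_induction with
    | base => exact m1
    | succ n hn ih =>
      have hz : nu + 2 ≠ 0 := by have := nu_add_ne 2; exact_mod_cast this
      have e : D 2 (n + 1) * c 2 (n + 1) = 2 * (D 2 n * c 2 n) := by
        rw [Ds n hn]
        apply mul_left_cancel₀ hz
        linear_combination (D 2 n) * rr n hn
      rw [e]
      exact mul_mem (by exact_mod_cast nat_mem 2) ih

end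

end Pool.Agent.H629.LM.M2
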