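import Pool.Agent.H629.LM.Step

set_option autoImplicit false
set_option maxRecDepth 4000

namespace Pool.Agent.H629.LM.M4

open Pool.Agent.H629.LM

noncomputable section

theorem b0 : bb 5 (nu + 1) 0 = 1 * ((nu+1)*(nu+2)*(nu+3)*(nu+4)*(nu+5)) := by
  unfold bb; norm_num [Finset.prod_Ico_succ_top, Finset.prod_range_succ, Nat.factorial]; try ring

theorem b1 : bb 5 (nu + 1) 1 = (-4) * ((nu+2)*(nu+3)*(nu+4)) := by
  unfold bb; norm_num [Finset.prod_Ico_succ_top, Finset.prod_range_succ, Nat.factorial]; try ring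

theorem b2 : bb 5 (nu + 1) 2 = 3 * ((nu+3)) := by
  unfold bb; norm_num [Finset.prod_Ico_succ_top, Finset.prod_range_succ, Nat.factorial]; try ring

theorem a0 : bb 4 (nu + 2) 0 = 1 * ((nu+2)*(nu+3)*(nu+4)*(nu+5)) := by
  unfold bb; norm_num [Finset.prod_Ico_succ_top, Finset.prod_range_succ, Nat.factorial]; try ring

theorem a1 : bb 4 (nu + 2) 1 = (-3) * ((nu+3)*(nu+4)) := by
  unfold bb; norm_num [Finset.prod_Ico_succ_top, Finset.prod_range_succ, Nat.factorial]; try ring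

theorem a2 : bb 4 (nu + 2) 2 = 1 * (1) := by
  unfold bb; norm_num [Finset.prod_Ico_succ_top, Finset.prod_range_succ, Nat.factorial]; try ring

theorem Dx (n : ℕ) : D 4 n = (nu+1)^f 4 n 0 * (nu+2)^f 4 n 1 * (nu+3)^f 4 n 2 * (nu+4)^f 4 n 3 * (nu+5)^f 4 n 4 := by
  unfold D; simp only [Finset.prod_range_succ, Finset.prod_range_zero, one_mul]; norm_num [add_assoc]

theorem D0 : D 4 0 = (nu+1)^1*(nu+2)^0*(nu+3)^1*(nu+4)^0*(nu+5)^0 := by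
  rw [Dx, show f 4 0 0 = 1 from rfl, show f 4 0 1 = 0 from rfl, show f 4 0 2 = 1 from rfl, show f 4 0 3 = 0 from rfl, show f 4 0 4 = 0 from rfl]

theorem D1 : D 4 1 = (nu+1)^2*(nu+2)^1*(nu+3)^1*(nu+4)^0*(nu+5)^0 := by
  rw [Dx, show f 4 1 0 = 2 from rfl, show f 4 1 1 = 1 from rfl, show f 4 1 2 = 1 from rfl, show f 4 1 3 = 0 from rfl, show f 4 1 4 = 0 from rfl]

theorem D2 : D 4 2 = (nu+1)^3*(nu+2)^1*(nu+3)^1*(nu+4)^0*(nu+5)^0 := by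
  rw [Dx, show f 4 2 0 = 3 from rfl, show f 4 2 1 = 1 from rfl, show f 4 2 2 = 1 from rfl, show f 4 2 3 = 0 from rfl, show f 4 2 4 = 0 from rfl]

theorem D3 : D 4 3 = (nu+1)^4*(nu+2)^2*(nu+3)^1*(nu+4)^1*(nu+5)^0 := by
  rw [Dx, show f 4 3 0 = 4 from rfl, show f 4 3 1 = 2 from rfl, show f 4 3 2 = 1 from rfl, show f 4 3 3 = 1 from rfl, show f 4 3 4 = 0 from rfl]

theorem D4 : D 4 4 = (nu+1)^5*(nu+2)^2*(nu+3)^1*(nu+4)^1*(nu+5)^1 := by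
  rw [Dx, show f 4 4 0 = 5 from rfl, show f 4 4 1 = 2 from rfl, show f 4 4 2 = 1 from rfl, show f 4 4 3 = 1 from rfl, show f 4 4 4 = 1 from rfl]

def g (n : ℕ) : K := (nu+2)^(if n % 2 = 1 then 1 else 0) * (nu+4)^(if n % 2 = 1 then 1 else 0)

theorem f0 (n : ℕ) (hn : 3 ≤ n) : f 4 (n + 1) 0 = f 4 n 0 + 1 := by
  simp only [f]; norm_num; omega

theorem f1 (n : ℕ) (hn : 3 ≤ n) : f 4 (n + 1) 1 = f 4 n 1 + (if (n + 1) % 2 = 1 then 1 else 0) := by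
  simp only [f]; norm_num; split_ifs <;> omega

theorem f2 (n : ℕ) (_hn : 3 ≤ n) : f 4 (n + 1) 2 = f 4 n 2 := by
  simp [f]

theorem f3 (n : ℕ) (hn : 3 ≤ n) : f 4 (n + 1) 3 = f 4 n 3 + (if (n + 1) % 2 = 1 then 1 else 0) := by
  simp only [f]; norm_num; split_ifs <;> omega

theorem f4 (n : ℕ) (hn : 3 ≤ n) : f 4 (n + 1) 4 = f 4 n 4 + 1 := by
  simp only [f]; norm_num; omega

theorem Ds (n : ℕ) (hn : 3 ≤ n) : D 4 (n + 1) = D 4 n * ((nu+1)*(nu+5)) * (g (n + 1)) := by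
  rw [Dx, Dx, f0 n hn, f1 n hn, f2 n hn, f3 n hn, f4 n hn]
  simp only [g, pow_add, pow_one]
  ring

theorem rr (n : ℕ) (hn : 1 ≤ n) : ((nu+1)*(nu+5)) * ((nu+2)*(nu+4)) * (nu+3) * c 4 (n + 2) - 4 * (((nu+2)*(nu+4)) * (nu+3)) * c 4 (n + 1) + 3 * (nu+3) * c 4 n = 0 := by
  have h := rec 4 (n + 2)
  rw [if_neg (by omega)] at h
  simp only [Nat.reduceAdd, Nat.reduceDiv, Finset.sum_range_succ, Finset.sum_range_zero, zero_add] at h
  rw [if_pos (show 0 ≤ n + 2 by omega), if_pos (show 1 ≤ n + 2 by omega), if_pos (show 2 ≤ n + 2 by omega)] at h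
  simp only [Nat.add_sub_cancel, Nat.sub_zero, show n + 2 - 1 = n + 1 from rfl, b0, b1, b2] at h
  linear_combination h

theorem c0 : ((nu+1)^1*(nu+2)^0*(nu+3)^1*(nu+4)^0*(nu+5)^0) * c 4 0 = 3 + 1*nu := by
  have h := rec 4 0
  have h2 : 1 * ((nu+1)*(nu+2)*(nu+3)*(nu+4)*(nu+5)) * c 4 0 = 1 * ((nu+2)*(nu+3)*(nu+4)*(nu+5)) := by
    simpa [Finset.sum_range_succ, b0, b1, b2, a0] using h
  have h0 : (nu+1)*(nu+2)*(nu+3)*(nu+4)*(nu+5) ≠ 0 := by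
    have e := nu_add_ne
    have e1 := e 1; have e2 := e 2; have e3 := e 3; have e4 := e 4; have e5 := e 5; push_cast at e1 e2 e3 e4 e5
    simp only [Ne, mul_eq_zero, not_or]
    tauto
  apply mul_left_cancel₀ h0
  linear_combination ((nu+1)^1*(nu+2)^0*(nu+3)^1*(nu+4)^0*(nu+5)^0) * h2

theorem c1 : ((nu+1)^2*(nu+2)^1*(nu+3)^1*(nu+4)^0*(nu+5)^0) * c 4 1 = 3 + 1*nu := by
  have h := rec 4 1
  have h2 : 1 * ((nu+1)*(nu+2)*(nu+3)*(nu+4)*(nu+5)) * c 4 1 + (-4) * ((nu+2)*(nu+3)*(nu+4)) * c 4 0 = (-3) * ((nu+3)*(nu+4)) := by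
    simpa [Finset.sum_range_succ, b0, b1, b2, a1] using h
  have h0 : (nu+1)*(nu+2)*(nu+3)*(nu+4)*(nu+5) ≠ 0 := by
    have e := nu_add_ne
    have e1 := e 1; have e2 := e 2; have e3 := e 3; have e4 := e 4; have e5 := e 5; push_cast at e1 e2 e3 e4 e5
    simp only [Ne, mul_eq_zero, not_or]
    tauto
  apply mul_left_cancel₀ h0
  linear_combination ((nu+1)^2*(nu+2)^1*(nu+3)^1*(nu+4)^0*(nu+5)^0) * h2 - ((-4) * ((nu+2)*(nu+3)*(nu+4))) * ((nu+1)^1*(nu+2)^1*(nu+3)^0*(nu+4)^0*(nu+5)^0) * c0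

theorem c2 : ((nu+1)^3*(nu+2)^1*(nu+3)^1*(nu+4)^0*(nu+5)^0) * c 4 2 = 2 := by
  have h := rec 4 2
  have h2 : 1 * ((nu+1)*(nu+2)*(nu+3)*(nu+4)*(nu+5)) * c 4 2 + (-4) * ((nu+2)*(nu+3)*(nu+4)) * c 4 1 + 3 * ((nu+3)) * c 4 0 = 1 * (1) := by
    simpa [Finset.sum_range_succ, b0, b1, b2, a2] using h
  have h0 : (nu+1)*(nu+2)*(nu+3)*(nu+4)*(nu+5) ≠ 0 := by
    have e := nu_add_ne
    have e1 := e 1; have e2 := e 2; have e3 := e 3; have e4 := e 4; have e5 := e 5; push_cast at e1 e2 e3 e4 e5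
    simp only [Ne, mul_eq_zero, not_or]
    tauto
  apply mul_left_cancel₀ h0
  linear_combination ((nu+1)^3*(nu+2)^1*(nu+3)^1*(nu+4)^0*(nu+5)^0) * h2 - ((-4) * ((nu+2)*(nu+3)*(nu+4))) * ((nu+1)^1*(nu+2)^0*(nu+3)^0*(nu+4)^0*(nu+5)^0) * c1 - (3 * ((nu+3))) * ((nu+1)^2*(nu+2)^1*(nu+3)^0*(nu+4)^0*(nu+5)^0) * c0

theorem c3 : ((nu+1)^4*(nu+2)^2*(nu+3)^1*(nu+4)^1*(nu+5)^0) * c 4 3 = 11 + 5*nu := by
  have h := rec 4 3
  have h2 : 1 * ((nu+1)*(nu+2)*(nu+3)*(nu+4)*(nu+5)) * c 4 3 + (-4) * ((nu+2)*(nu+3)*(nu+4)) * c 4 2 + 3 * ((nu+3)) * c 4 1 = 0 := by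
    simpa [Finset.sum_range_succ, b0, b1, b2] using h
  have h0 : (nu+1)*(nu+2)*(nu+3)*(nu+4)*(nu+5) ≠ 0 := by
    have e := nu_add_ne
    have e1 := e 1; have e2 := e 2; have e3 := e 3; have e4 := e 4; have e5 := e 5; push_cast at e1 e2 e3 e4 e5
    simp only [Ne, mul_eq_zero, not_or]
    tauto
  apply mul_left_cancel₀ h0
  linear_combination ((nu+1)^4*(nu+2)^2*(nu+3)^1*(nu+4)^1*(nu+5)^0) * h2 - ((-4) * ((nu+2)*(nu+3)*(nu+4))) * ((nu+1)^1*(nu+2)^1*(nu+3)^0*(nu+4)^1*(nu+5)^0) * c2 - (3 * ((nu+3))) * ((nu+1)^2*(nu+2)^1*(nu+3)^0*(nu+4)^1*(nu+5)^0) * c1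

theorem c4 : ((nu+1)^5*(nu+2)^2*(nu+3)^1*(nu+4)^1*(nu+5)^1) * c 4 4 = 38 + 14*nu := by
  have h := rec 4 4
  have h2 : 1 * ((nu+1)*(nu+2)*(nu+3)*(nu+4)*(nu+5)) * c 4 4 + (-4) * ((nu+2)*(nu+3)*(nu+4)) * c 4 3 + 3 * ((nu+3)) * c 4 2 = 0 := by
    simpa [Finset.sum_range_succ, b0, b1, b2] using h
  have h0 : (nu+1)*(nu+2)*(nu+3)*(nu+4)*(nu+5) ≠ 0 := by
    have e := nu_add_ne
    have e1 := e 1; have e2 := e 2; have e3 := e 3; have e4 := e 4; have e5 := e 5; push_cast at e1 e2 e3 e4 e5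
    simp only [Ne, mul_eq_zero, not_or]
    tauto
  apply mul_left_cancel₀ h0
  linear_combination ((nu+1)^5*(nu+2)^2*(nu+3)^1*(nu+4)^1*(nu+5)^1) * h2 - ((-4) * ((nu+2)*(nu+3)*(nu+4))) * ((nu+1)^1*(nu+2)^0*(nu+3)^0*(nu+4)^0*(nu+5)^1) * c3 - (3 * ((nu+3))) * ((nu+1)^2*(nu+2)^1*(nu+3)^0*(nu+4)^1*(nu+5)^1) * c2

theorem m0 : D 4 0 * c 4 0 ∈ S := by
  have e : D 4 0 * c 4 0 = ev [3, 1] := by
    rw [D0, c0]; simp only [ev]; push_cast; ring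
  rw [e]; exact ev_mem _

theorem m1 : D 4 1 * c 4 1 ∈ S := by
  have e : D 4 1 * c 4 1 = ev [3, 1] := by
    rw [D1, c1]; simp only [ev]; push_cast; ring
  rw [e]; exact ev_mem _

theorem m2 : D 4 2 * c 4 2 ∈ S := by
  have e : D 4 2 * c 4 2 = ev [2] := by
    rw [D2, c2]; simp only [ev]; push_cast; ring
  rw [e]; exact ev_mem _

theorem m3 : D 4 3 * c 4 3 ∈ S := by
  have e : D 4 3 * c 4 3 = ev [11, 5] := by
    rw [D3, c3]; simp only [ev]; push_cast; ring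
  rw [e]; exact ev_mem _

theorem m4 : D 4 4 * c 4 4 ∈ S := by
  have e : D 4 4 * c 4 4 = ev [38, 14] := by
    rw [D4, c4]; simp only [ev]; push_cast; ring
  rw [e]; exact ev_mem _

theorem g_mem (n : ℕ) : g n ∈ S := mul_mem (pow_mem (xm 2) _) (pow_mem (xm 4) _)

theorem g_w (n : ℕ) : g (n + 1) * g n = ((nu+2)*(nu+4)) := by
  have hc : n % 2 = 0 ∨ n % 2 = 1 := by omega
  rcases hc with h0|h0
  · have h1 : (n + 1) % 2 = 1 := by omega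
    simp [g, h0, h1]; try ring
  · have h1 : (n + 1) % 2 = 0 := by omega
    simp [g, h0, h1]; try ring

theorem g_p (n : ℕ) : g (n + 2) = g n := by
  simp only [g, show (n + 2) % 2 = n % 2 by omega]

def N (n : ℕ) : K := D 4 n * c 4 n

theorem Nv3 : N 3 = 11 + 5*nu := by
  unfold N; rw [D3, c3]

theorem Nv4 : N 4 = 38 + 14*nu := by
  unfold N; rw [D4, c4]

theorem gv4 : g 4 = (nu+2)^0*(nu+4)^0 := by
  norm_num [g]

theorem hN (n : ℕ) (hn : 3 ≤ n) : N (n + 2) = 4 * g (n + 2) * N (n + 1) - 3 * ((nu+1)*(nu+5)) * N n := by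
  have e1 := Ds n hn
  have e2 : D 4 (n + 2) = _ := Ds (n + 1) (by omega)
  unfold N
  rw [e2, e1]
  exact toN2 (by have := nu_add_ne 3; exact_mod_cast this) (g_w (n + 1)) (rr n (by omega))

theorem bM1 : N (3 + 1) - 1 * g (3 + 1) * N 3 ∈ S := by
  have e : N (3 + 1) - 1 * g (3 + 1) * N 3 = ev [27, 9] := by
    simp only [Nat.reduceAdd]
    rw [Nv3, Nv4, gv4]; simp only [ev]; push_cast; ring
  rw [e]; exact ev_mem _

theorem main (n : ℕ) : D 4 n * c 4 n ∈ S := by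
  rcases Nat.lt_or_ge n 3 with hn | hn
  · interval_cases n
    · exact m0
    · exact m1
    · exact m2
  · exact (step2 (rho := 1) g_mem g_w hN (by
      have e : (4 - 1 : K) = ev [3] := by simp only [ev]; push_cast; ring
      rw [e]; exact ev_mem _) (one_mem _) (by
      have e : (1 * (4 - 1) * ((nu+2)*(nu+4)) - 3 * ((nu+1)*(nu+5)) : K) = ev [9] := by simp only [ev]; push_cast; ring
      rw [e]; exact ev_mem _) (by unfold N; exact m3) bM1 n hn).1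

end

end Pool.Agent.H629.LM.M4
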