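import Pool.Agent.H629.LM.Step

set_option autoImplicit false
set_option maxRecDepth 4000

namespace Pool.Agent.H629.LM.M5

open Pool.Agent.H629.LM

noncomputable section

theorem b0 : bb 6 (nu + 1) 0 = 1 * ((nu+1)*(nu+2)*(nu+3)*(nu+4)*(nu+5)*(nu+6)) := by
  unfold bb; norm_num [Finset.prod_Ico_succ_top, Finset.prod_range_succ, Nat.factorial]; try ring

theorem b1 : bb 6 (nu + 1) 1 = (-5) * ((nu+2)*(nu+3)*(nu+4)*(nu+5)) := by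
  unfold bb; norm_num [Finset.prod_Ico_succ_top, Finset.prod_range_succ, Nat.factorial]; try ring

theorem b2 : bb 6 (nu + 1) 2 = 6 * ((nu+3)*(nu+4)) := by
  unfold bb; norm_num [Finset.prod_Ico_succ_top, Finset.prod_range_succ, Nat.factorial]; try ring

theorem b3 : bb 6 (nu + 1) 3 = (-1) * (1) := by
  unfold bb; norm_num [Finset.prod_Ico_succ_top, Finset.prod_range_succ, Nat.factorial]; try ring

theorem a0 : bb 5 (nu + 2) 0 = 1 * ((nu+2)*(nu+3)*(nu+4)*(nu+5)*(nu+6)) := by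
  unfold bb; norm_num [Finset.prod_Ico_succ_top, Finset.prod_range_succ, Nat.factorial]; try ring

theorem a1 : bb 5 (nu + 2) 1 = (-4) * ((nu+3)*(nu+4)*(nu+5)) := by
  unfold bb; norm_num [Finset.prod_Ico_succ_top, Finset.prod_range_succ, Nat.factorial]; try ring

theorem a2 : bb 5 (nu + 2) 2 = 3 * ((nu+4)) := by
  unfold bb; norm_num [Finset.prod_Ico_succ_top, Finset.prod_range_succ, Nat.factorial]; try ring

theorem Dx (n : ℕ) : D 5 n = (nu+1)^f 5 n 0 * (nu+2)^f 5 n 1 * (nu+3)^f 5 n 2 * (nu+4)^f 5 n 3 * (nu+5)^f 5 n 4 * (nu+6)^f 5 n 5 := by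
  unfold D; simp only [Finset.prod_range_succ, Finset.prod_range_zero, one_mul]; norm_num [add_assoc]

theorem D0 : D 5 0 = (nu+1)^1*(nu+2)^0*(nu+3)^0*(nu+4)^0*(nu+5)^0*(nu+6)^0 := by
  rw [Dx, show f 5 0 0 = 1 from rfl, show f 5 0 1 = 0 from rfl, show f 5 0 2 = 0 from rfl, show f 5 0 3 = 0 from rfl, show f 5 0 4 = 0 from rfl, show f 5 0 5 = 0 from rfl]

theorem D1 : D 5 1 = (nu+1)^2*(nu+2)^1*(nu+3)^0*(nu+4)^0*(nu+5)^0*(nu+6)^0 := by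
  rw [Dx, show f 5 1 0 = 2 from rfl, show f 5 1 1 = 1 from rfl, show f 5 1 2 = 0 from rfl, show f 5 1 3 = 0 from rfl, show f 5 1 4 = 0 from rfl, show f 5 1 5 = 0 from rfl]

theorem D2 : D 5 2 = (nu+1)^3*(nu+2)^1*(nu+3)^1*(nu+4)^0*(nu+5)^0*(nu+6)^0 := by
  rw [Dx, show f 5 2 0 = 3 from rfl, show f 5 2 1 = 1 from rfl, show f 5 2 2 = 1 from rfl, show f 5 2 3 = 0 from rfl, show f 5 2 4 = 0 from rfl, show f 5 2 5 = 0 from rfl]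

theorem D3 : D 5 3 = (nu+1)^4*(nu+2)^2*(nu+3)^1*(nu+4)^1*(nu+5)^0*(nu+6)^0 := by
  rw [Dx, show f 5 3 0 = 4 from rfl, show f 5 3 1 = 2 from rfl, show f 5 3 2 = 1 from rfl, show f 5 3 3 = 1 from rfl, show f 5 3 4 = 0 from rfl, show f 5 3 5 = 0 from rfl]

theorem D4 : D 5 4 = (nu+1)^5*(nu+2)^2*(nu+3)^1*(nu+4)^1*(nu+5)^1*(nu+6)^0 := by
  rw [Dx, show f 5 4 0 = 5 from rfl, show f 5 4 1 = 2 from rfl, show f 5 4 2 = 1 from rfl, show f 5 4 3 = 1 from rfl, show f 5 4 4 = 1 from rfl, show f 5 4 5 = 0 from rfl]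

theorem D5 : D 5 5 = (nu+1)^6*(nu+2)^3*(nu+3)^2*(nu+4)^1*(nu+5)^1*(nu+6)^1 := by
  rw [Dx, show f 5 5 0 = 6 from rfl, show f 5 5 1 = 3 from rfl, show f 5 5 2 = 2 from rfl, show f 5 5 3 = 1 from rfl, show f 5 5 4 = 1 from rfl, show f 5 5 5 = 1 from rfl]

theorem D6 : D 5 6 = (nu+1)^7*(nu+2)^3*(nu+3)^2*(nu+4)^2*(nu+5)^2*(nu+6)^2 := by
  rw [Dx, show f 5 6 0 = 7 from rfl, show f 5 6 1 = 3 from rfl, show f 5 6 2 = 2 from rfl, show f 5 6 3 = 2 from rfl, show f 5 6 4 = 2 from rfl, show f 5 6 5 = 2 from rfl]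

def g (n : ℕ) : K := (nu+2)^(if n % 2 = 1 then 1 else 0) * (nu+5)^(if n % 2 = 0 then 1 else 0)

def h (n : ℕ) : K := (nu+3)^(if n % 3 = 2 then 1 else 0) * (nu+4)^(if n % 3 = 0 then 1 else 0)

theorem f0 (n : ℕ) (hn : 4 ≤ n) : f 5 (n + 1) 0 = f 5 n 0 + 1 := by
  simp only [f]; norm_num; omega

theorem f1 (n : ℕ) (hn : 4 ≤ n) : f 5 (n + 1) 1 = f 5 n 1 + (if (n + 1) % 2 = 1 then 1 else 0) := by
  simp only [f]; norm_num; split_ifs <;> omega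

theorem f2 (n : ℕ) (hn : 4 ≤ n) : f 5 (n + 1) 2 = f 5 n 2 + (if (n + 1) % 3 = 2 then 1 else 0) := by
  simp only [f]; norm_num; split_ifs <;> omega

theorem f3 (n : ℕ) (hn : 4 ≤ n) : f 5 (n + 1) 3 = f 5 n 3 + (if (n + 1) % 3 = 0 then 1 else 0) := by
  simp only [f]; norm_num; split_ifs <;> omega

theorem f4 (n : ℕ) (hn : 4 ≤ n) : f 5 (n + 1) 4 = f 5 n 4 + (if (n + 1) % 2 = 0 then 1 else 0) := by
  simp only [f]; norm_num; split_ifs <;> omega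

theorem f5 (n : ℕ) (hn : 4 ≤ n) : f 5 (n + 1) 5 = f 5 n 5 + 1 := by
  simp only [f]; norm_num; omega

theorem Ds (n : ℕ) (hn : 4 ≤ n) : D 5 (n + 1) = D 5 n * ((nu+1)*(nu+6)) * (g (n + 1) * h (n + 1)) := by
  rw [Dx, Dx, f0 n hn, f1 n hn, f2 n hn, f3 n hn, f4 n hn, f5 n hn]
  simp only [g, h, pow_add, pow_one]
  ring

theorem rr (n : ℕ) (hn : 1 ≤ n) : ((nu+1)*(nu+6)) * ((nu+2)*(nu+5)) * ((nu+3)*(nu+4)) * 1 * c 5 (n + 3) - 5 * (((nu+2)*(nu+5)) * ((nu+3)*(nu+4)) * 1) * c 5 (n + 2) + 6 * (((nu+3)*(nu+4)) * 1) * c 5 (n + 1) - 1 * 1 * c 5 n = 0 := by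
  have h := rec 5 (n + 3)
  rw [if_neg (by omega)] at h
  simp only [Nat.reduceAdd, Nat.reduceDiv, Finset.sum_range_succ, Finset.sum_range_zero, zero_add] at h
  rw [if_pos (show 0 ≤ n + 3 by omega), if_pos (show 1 ≤ n + 3 by omega), if_pos (show 2 ≤ n + 3 by omega), if_pos (show 3 ≤ n + 3 by omega)] at h
  simp only [Nat.add_sub_cancel, Nat.sub_zero, show n + 3 - 1 = n + 2 from rfl, show n + 3 - 2 = n + 1 from rfl, b0, b1, b2, b3] at h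
  linear_combination h

theorem c0 : ((nu+1)^1*(nu+2)^0*(nu+3)^0*(nu+4)^0*(nu+5)^0*(nu+6)^0) * c 5 0 = 1 := by
  have h := rec 5 0
  have h2 : 1 * ((nu+1)*(nu+2)*(nu+3)*(nu+4)*(nu+5)*(nu+6)) * c 5 0 = 1 * ((nu+2)*(nu+3)*(nu+4)*(nu+5)*(nu+6)) := by
    simpa [Finset.sum_range_succ, b0, b1, b2, b3, a0] using h
  have h0 : (nu+1)*(nu+2)*(nu+3)*(nu+4)*(nu+5)*(nu+6) ≠ 0 := by
    have e := nu_add_ne
    have e1 := e 1; have e2 := e 2; have e3 := e 3; have e4 := e 4; have e5 := e 5; have e6 := e 6; push_cast at e1 e2 e3 e4 e5 e6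
    simp only [Ne, mul_eq_zero, not_or]
    tauto
  apply mul_left_cancel₀ h0
  linear_combination ((nu+1)^1*(nu+2)^0*(nu+3)^0*(nu+4)^0*(nu+5)^0*(nu+6)^0) * h2

theorem c1 : ((nu+1)^2*(nu+2)^1*(nu+3)^0*(nu+4)^0*(nu+5)^0*(nu+6)^0) * c 5 1 = 1 := by
  have h := rec 5 1
  have h2 : 1 * ((nu+1)*(nu+2)*(nu+3)*(nu+4)*(nu+5)*(nu+6)) * c 5 1 + (-5) * ((nu+2)*(nu+3)*(nu+4)*(nu+5)) * c 5 0 = (-4) * ((nu+3)*(nu+4)*(nu+5)) := by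
    simpa [Finset.sum_range_succ, b0, b1, b2, b3, a1] using h
  have h0 : (nu+1)*(nu+2)*(nu+3)*(nu+4)*(nu+5)*(nu+6) ≠ 0 := by
    have e := nu_add_ne
    have e1 := e 1; have e2 := e 2; have e3 := e 3; have e4 := e 4; have e5 := e 5; have e6 := e 6; push_cast at e1 e2 e3 e4 e5 e6
    simp only [Ne, mul_eq_zero, not_or]
    tauto
  apply mul_left_cancel₀ h0
  linear_combination ((nu+1)^2*(nu+2)^1*(nu+3)^0*(nu+4)^0*(nu+5)^0*(nu+6)^0) * h2 - ((-5) * ((nu+2)*(nu+3)*(nu+4)*(nu+5))) * ((nu+1)^1*(nu+2)^1*(nu+3)^0*(nu+4)^0*(nu+5)^0*(nu+6)^0) * c0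

theorem c2 : ((nu+1)^3*(nu+2)^1*(nu+3)^1*(nu+4)^0*(nu+5)^0*(nu+6)^0) * c 5 2 = 2 := by
  have h := rec 5 2
  have h2 : 1 * ((nu+1)*(nu+2)*(nu+3)*(nu+4)*(nu+5)*(nu+6)) * c 5 2 + (-5) * ((nu+2)*(nu+3)*(nu+4)*(nu+5)) * c 5 1 + 6 * ((nu+3)*(nu+4)) * c 5 0 = 3 * ((nu+4)) := by
    simpa [Finset.sum_range_succ, b0, b1, b2, b3, a2] using h
  have h0 : (nu+1)*(nu+2)*(nu+3)*(nu+4)*(nu+5)*(nu+6) ≠ 0 := by
    have e := nu_add_ne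
    have e1 := e 1; have e2 := e 2; have e3 := e 3; have e4 := e 4; have e5 := e 5; have e6 := e 6; push_cast at e1 e2 e3 e4 e5 e6
    simp only [Ne, mul_eq_zero, not_or]
    tauto
  apply mul_left_cancel₀ h0
  linear_combination ((nu+1)^3*(nu+2)^1*(nu+3)^1*(nu+4)^0*(nu+5)^0*(nu+6)^0) * h2 - ((-5) * ((nu+2)*(nu+3)*(nu+4)*(nu+5))) * ((nu+1)^1*(nu+2)^0*(nu+3)^1*(nu+4)^0*(nu+5)^0*(nu+6)^0) * c1 - (6 * ((nu+3)*(nu+4))) * ((nu+1)^2*(nu+2)^1*(nu+3)^1*(nu+4)^0*(nu+5)^0*(nu+6)^0) * c0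

theorem c3 : ((nu+1)^4*(nu+2)^2*(nu+3)^1*(nu+4)^1*(nu+5)^0*(nu+6)^0) * c 5 3 = 11 + 5*nu := by
  have h := rec 5 3
  have h2 : 1 * ((nu+1)*(nu+2)*(nu+3)*(nu+4)*(nu+5)*(nu+6)) * c 5 3 + (-5) * ((nu+2)*(nu+3)*(nu+4)*(nu+5)) * c 5 2 + 6 * ((nu+3)*(nu+4)) * c 5 1 + (-1) * (1) * c 5 0 = 0 := by
    simpa [Finset.sum_range_succ, b0, b1, b2, b3] using h
  have h0 : (nu+1)*(nu+2)*(nu+3)*(nu+4)*(nu+5)*(nu+6) ≠ 0 := by
    have e := nu_add_ne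
    have e1 := e 1; have e2 := e 2; have e3 := e 3; have e4 := e 4; have e5 := e 5; have e6 := e 6; push_cast at e1 e2 e3 e4 e5 e6
    simp only [Ne, mul_eq_zero, not_or]
    tauto
  apply mul_left_cancel₀ h0
  linear_combination ((nu+1)^4*(nu+2)^2*(nu+3)^1*(nu+4)^1*(nu+5)^0*(nu+6)^0) * h2 - ((-5) * ((nu+2)*(nu+3)*(nu+4)*(nu+5))) * ((nu+1)^1*(nu+2)^1*(nu+3)^0*(nu+4)^1*(nu+5)^0*(nu+6)^0) * c2 - (6 * ((nu+3)*(nu+4))) * ((nu+1)^2*(nu+2)^1*(nu+3)^1*(nu+4)^1*(nu+5)^0*(nu+6)^0) * c1 - ((-1) * (1)) * ((nu+1)^3*(nu+2)^2*(nu+3)^1*(nu+4)^1*(nu+5)^0*(nu+6)^0) * c0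

theorem c4 : ((nu+1)^5*(nu+2)^2*(nu+3)^1*(nu+4)^1*(nu+5)^1*(nu+6)^0) * c 5 4 = 38 + 14*nu := by
  have h := rec 5 4
  have h2 : 1 * ((nu+1)*(nu+2)*(nu+3)*(nu+4)*(nu+5)*(nu+6)) * c 5 4 + (-5) * ((nu+2)*(nu+3)*(nu+4)*(nu+5)) * c 5 3 + 6 * ((nu+3)*(nu+4)) * c 5 2 + (-1) * (1) * c 5 1 = 0 := by
    simpa [Finset.sum_range_succ, b0, b1, b2, b3] using h
  have h0 : (nu+1)*(nu+2)*(nu+3)*(nu+4)*(nu+5)*(nu+6) ≠ 0 := by
    have e := nu_add_ne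
    have e1 := e 1; have e2 := e 2; have e3 := e 3; have e4 := e 4; have e5 := e 5; have e6 := e 6; push_cast at e1 e2 e3 e4 e5 e6
    simp only [Ne, mul_eq_zero, not_or]
    tauto
  apply mul_left_cancel₀ h0
  linear_combination ((nu+1)^5*(nu+2)^2*(nu+3)^1*(nu+4)^1*(nu+5)^1*(nu+6)^0) * h2 - ((-5) * ((nu+2)*(nu+3)*(nu+4)*(nu+5))) * ((nu+1)^1*(nu+2)^0*(nu+3)^0*(nu+4)^0*(nu+5)^1*(nu+6)^0) * c3 - (6 * ((nu+3)*(nu+4))) * ((nu+1)^2*(nu+2)^1*(nu+3)^0*(nu+4)^1*(nu+5)^1*(nu+6)^0) * c2 - ((-1) * (1)) * ((nu+1)^3*(nu+2)^1*(nu+3)^1*(nu+4)^1*(nu+5)^1*(nu+6)^0) * c1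

theorem c5 : ((nu+1)^6*(nu+2)^3*(nu+3)^2*(nu+4)^1*(nu+5)^1*(nu+6)^1) * c 5 5 = 946 + 1026*nu + 362*nu^2 + 42*nu^3 := by
  have h := rec 5 5
  have h2 : 1 * ((nu+1)*(nu+2)*(nu+3)*(nu+4)*(nu+5)*(nu+6)) * c 5 5 + (-5) * ((nu+2)*(nu+3)*(nu+4)*(nu+5)) * c 5 4 + 6 * ((nu+3)*(nu+4)) * c 5 3 + (-1) * (1) * c 5 2 = 0 := by
    simpa [Finset.sum_range_succ, b0, b1, b2, b3] using h
  have h0 : (nu+1)*(nu+2)*(nu+3)*(nu+4)*(nu+5)*(nu+6) ≠ 0 := by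
    have e := nu_add_ne
    have e1 := e 1; have e2 := e 2; have e3 := e 3; have e4 := e 4; have e5 := e 5; have e6 := e 6; push_cast at e1 e2 e3 e4 e5 e6
    simp only [Ne, mul_eq_zero, not_or]
    tauto
  apply mul_left_cancel₀ h0
  linear_combination ((nu+1)^6*(nu+2)^3*(nu+3)^2*(nu+4)^1*(nu+5)^1*(nu+6)^1) * h2 - ((-5) * ((nu+2)*(nu+3)*(nu+4)*(nu+5))) * ((nu+1)^1*(nu+2)^1*(nu+3)^1*(nu+4)^0*(nu+5)^0*(nu+6)^1) * c4 - (6 * ((nu+3)*(nu+4))) * ((nu+1)^2*(nu+2)^1*(nu+3)^1*(nu+4)^0*(nu+5)^1*(nu+6)^1) * c3 - ((-1) * (1)) * ((nu+1)^3*(nu+2)^2*(nu+3)^1*(nu+4)^1*(nu+5)^1*(nu+6)^1) * c2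

theorem c6 : ((nu+1)^7*(nu+2)^3*(nu+3)^2*(nu+4)^2*(nu+5)^2*(nu+6)^2) * c 5 6 = 78514 + 111325*nu + 62178*nu^2 + 17208*nu^3 + 2372*nu^4 + 131*nu^5 := by
  have h := rec 5 6
  have h2 : 1 * ((nu+1)*(nu+2)*(nu+3)*(nu+4)*(nu+5)*(nu+6)) * c 5 6 + (-5) * ((nu+2)*(nu+3)*(nu+4)*(nu+5)) * c 5 5 + 6 * ((nu+3)*(nu+4)) * c 5 4 + (-1) * (1) * c 5 3 = 0 := by
    simpa [Finset.sum_range_succ, b0, b1, b2, b3] using h
  have h0 : (nu+1)*(nu+2)*(nu+3)*(nu+4)*(nu+5)*(nu+6) ≠ 0 := by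
    have e := nu_add_ne
    have e1 := e 1; have e2 := e 2; have e3 := e 3; have e4 := e 4; have e5 := e 5; have e6 := e 6; push_cast at e1 e2 e3 e4 e5 e6
    simp only [Ne, mul_eq_zero, not_or]
    tauto
  apply mul_left_cancel₀ h0
  linear_combination ((nu+1)^7*(nu+2)^3*(nu+3)^2*(nu+4)^2*(nu+5)^2*(nu+6)^2) * h2 - ((-5) * ((nu+2)*(nu+3)*(nu+4)*(nu+5))) * ((nu+1)^1*(nu+2)^0*(nu+3)^0*(nu+4)^1*(nu+5)^1*(nu+6)^1) * c5 - (6 * ((nu+3)*(nu+4))) * ((nu+1)^2*(nu+2)^1*(nu+3)^1*(nu+4)^1*(nu+5)^1*(nu+6)^2) * c4 - ((-1) * (1)) * ((nu+1)^3*(nu+2)^1*(nu+3)^1*(nu+4)^1*(nu+5)^2*(nu+6)^2) * c3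

theorem m0 : D 5 0 * c 5 0 ∈ S := by
  have e : D 5 0 * c 5 0 = ev [1] := by
    rw [D0, c0]; simp only [ev]; push_cast; ring
  rw [e]; exact ev_mem _

theorem m1 : D 5 1 * c 5 1 ∈ S := by
  have e : D 5 1 * c 5 1 = ev [1] := by
    rw [D1, c1]; simp only [ev]; push_cast; ring
  rw [e]; exact ev_mem _

theorem m2 : D 5 2 * c 5 2 ∈ S := by
  have e : D 5 2 * c 5 2 = ev [2] := by
    rw [D2, c2]; simp only [ev]; push_cast; ring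
  rw [e]; exact ev_mem _

theorem m3 : D 5 3 * c 5 3 ∈ S := by
  have e : D 5 3 * c 5 3 = ev [11, 5] := by
    rw [D3, c3]; simp only [ev]; push_cast; ring
  rw [e]; exact ev_mem _

theorem m4 : D 5 4 * c 5 4 ∈ S := by
  have e : D 5 4 * c 5 4 = ev [38, 14] := by
    rw [D4, c4]; simp only [ev]; push_cast; ring
  rw [e]; exact ev_mem _

theorem m5 : D 5 5 * c 5 5 ∈ S := by
  have e : D 5 5 * c 5 5 = ev [946, 1026, 362, 42] := by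
    rw [D5, c5]; simp only [ev]; push_cast; ring
  rw [e]; exact ev_mem _

theorem m6 : D 5 6 * c 5 6 ∈ S := by
  have e : D 5 6 * c 5 6 = ev [78514, 111325, 62178, 17208, 2372, 131] := by
    rw [D6, c6]; simp only [ev]; push_cast; ring
  rw [e]; exact ev_mem _

theorem g_mem (n : ℕ) : g n ∈ S := mul_mem (pow_mem (xm 2) _) (pow_mem (xm 5) _)

theorem g_w (n : ℕ) : g (n + 1) * g n = ((nu+2)*(nu+5)) := by
  have hc : n % 2 = 0 ∨ n % 2 = 1 := by omega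
  rcases hc with h0|h0
  · have h1 : (n + 1) % 2 = 1 := by omega
    simp [g, h0, h1]; try ring
  · have h1 : (n + 1) % 2 = 0 := by omega
    simp [g, h0, h1]; try ring

theorem g_p (n : ℕ) : g (n + 2) = g n := by
  simp only [g, show (n + 2) % 2 = n % 2 by omega]

theorem h_mem (n : ℕ) : h n ∈ S := mul_mem (pow_mem (xm 3) _) (pow_mem (xm 4) _)

theorem h_w (n : ℕ) : h (n + 2) * h (n + 1) * h n = ((nu+3)*(nu+4)) := by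
  have hc : n % 3 = 0 ∨ n % 3 = 1 ∨ n % 3 = 2 := by omega
  rcases hc with h0|h0|h0
  · have h1 : (n + 1) % 3 = 1 := by omega
    have h2 : (n + 2) % 3 = 2 := by omega
    simp [h, h0, h1, h2]; try ring
  · have h1 : (n + 1) % 3 = 2 := by omega
    have h2 : (n + 2) % 3 = 0 := by omega
    simp [h, h0, h1, h2]; try ring
  · have h1 : (n + 1) % 3 = 0 := by omega
    have h2 : (n + 2) % 3 = 1 := by omega
    simp [h, h0, h1, h2]; try ring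

theorem h_p (n : ℕ) : h (n + 3) = h n := by
  simp only [h, show (n + 3) % 3 = n % 3 by omega]

def N (n : ℕ) : K := D 5 n * c 5 n

theorem Nv4 : N 4 = 38 + 14*nu := by
  unfold N; rw [D4, c4]

theorem Nv5 : N 5 = 946 + 1026*nu + 362*nu^2 + 42*nu^3 := by
  unfold N; rw [D5, c5]

theorem Nv6 : N 6 = 78514 + 111325*nu + 62178*nu^2 + 17208*nu^3 + 2372*nu^4 + 131*nu^5 := by
  unfold N; rw [D6, c6]

theorem gv5 : g 5 = (nu+2)^1*(nu+5)^0 := by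
  norm_num [g]

theorem hv5 : h 5 = (nu+3)^1*(nu+4)^0 := by
  norm_num [h]

theorem gv6 : g 6 = (nu+2)^0*(nu+5)^1 := by
  norm_num [g]

theorem hv6 : h 6 = (nu+3)^0*(nu+4)^1 := by
  norm_num [h]

def M1 (n : ℕ) : K := N n - 3 * (g (n) * h (n)) * N (n - 1)

def M2 (n : ℕ) : K := M1 n - 2 * (g (n) * h (n)) * M1 (n - 1)

theorem hN (n : ℕ) (hn : 4 ≤ n) : N (n + 3) = 5 * (g (n + 3) * h (n + 3)) * N (n + 2) - 6 * ((nu+1)*(nu+6)) * (h (n + 3) * h (n + 2)) * N (n + 1) + 1 * ((nu+1)*(nu+6)) ^ 2 * g (n + 3) * N n := by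
  have e1 := Ds n hn
  have e2 : D 5 (n + 2) = _ := Ds (n + 1) (by omega)
  have e3 : D 5 (n + 3) = _ := Ds (n + 2) (by omega)
  unfold N
  rw [e3, e2, e1]
  exact toN3 one_ne_zero (g_w (n + 2)) (h_w (n + 1)) (g_p (n + 1)) (rr n (by omega))

theorem bM1 : M1 (4 + 1) ∈ S := by
  have e : M1 (4 + 1) = ev [262, 204, 38] := by
    show N 5 - 3 * (g (5) * h (5)) * N 4 = _
    rw [Nv4, Nv5, gv5, hv5]; simp only [ev]; push_cast; ring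
  rw [e]; exact ev_mem _

theorem bM2 : M2 (4 + 2) ∈ S := by
  have e : M2 (4 + 2) = ev [11274, 11347, 4202, 744, 76, 5] := by
    show (N 6 - 3 * (g (6) * h (6)) * N 5) - 2 * (g (6) * h (6)) * (N 5 - 3 * (g (5) * h (5)) * N 4) = _
    rw [Nv4, Nv5, Nv6, gv5, hv5, gv6, hv6]; simp only [ev]; push_cast; ring
  rw [e]; exact ev_mem _

theorem main (n : ℕ) : D 5 n * c 5 n ∈ S := by
  rcases Nat.lt_or_ge n 4 with hn | hn
  · interval_cases n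
    · exact m0
    · exact m1
    · exact m2
    · exact m3
  · exact (step3 (M1 := M1) (M2 := M2) g_mem g_w g_p h_mem h_w hN (by
      have e : (5 - 5 : K) = ev [0] := by simp only [ev]; push_cast; ring
      rw [e]; exact ev_mem _) (by
      have e : ((5 * 5 - 19) * ((nu+2)*(nu+5)) - 6 * ((nu+1)*(nu+6)) : K) = ev [24] := by simp only [ev]; push_cast; ring
      rw [e]; exact ev_mem _) (by
      have e : (3 * ((5 * 5 - 19) * ((nu+2)*(nu+5)) - 6 * ((nu+1)*(nu+6))) * ((nu+3)*(nu+4)) + 1 * ((nu+1)*(nu+6)) ^ 2 - 6 * (5 - 5) * ((nu+2)*(nu+5)) * ((nu+3)*(nu+4)) : K) = ev [900, 588, 133, 14, 1] := by simp only [ev]; push_cast; ring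
      rw [e]; exact ev_mem _) (fun _ => rfl) (fun _ => rfl) (by unfold N; exact m4) bM1 bM2 n hn).1

end

end Pool.Agent.H629.LM.M5
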