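import Pool.Agent.H629.LM.Step

set_option autoImplicit false
set_option maxRecDepth 4000

namespace Pool.Agent.H629.LM.M7

open Pool.Agent.H629.LM

noncomputable section

theorem b0 : bb 8 (nu + 1) 0 = 1 * ((nu+1)*(nu+2)*(nu+3)*(nu+4)*(nu+5)*(nu+6)*(nu+7)*(nu+8)) := by
  unfold bb; norm_num [Finset.prod_Ico_succ_top, Finset.prod_range_succ, Nat.factorial]; try ring

theorem b1 : bb 8 (nu + 1) 1 = (-7) * ((nu+2)*(nu+3)*(nu+4)*(nu+5)*(nu+6)*(nu+7)) := by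
  unfold bb; norm_num [Finset.prod_Ico_succ_top, Finset.prod_range_succ, Nat.factorial]; try ring

theorem b2 : bb 8 (nu + 1) 2 = 15 * ((nu+3)*(nu+4)*(nu+5)*(nu+6)) := by
  unfold bb; norm_num [Finset.prod_Ico_succ_top, Finset.prod_range_succ, Nat.factorial]; try ring

theorem b3 : bb 8 (nu + 1) 3 = (-10) * ((nu+4)*(nu+5)) := by
  unfold bb; norm_num [Finset.prod_Ico_succ_top, Finset.prod_range_succ, Nat.factorial]; try ring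

theorem b4 : bb 8 (nu + 1) 4 = 1 * (1) := by
  unfold bb; norm_num [Finset.prod_Ico_succ_top, Finset.prod_range_succ, Nat.factorial]; try ring

theorem a0 : bb 7 (nu + 2) 0 = 1 * ((nu+2)*(nu+3)*(nu+4)*(nu+5)*(nu+6)*(nu+7)*(nu+8)) := by
  unfold bb; norm_num [Finset.prod_Ico_succ_top, Finset.prod_range_succ, Nat.factorial]; try ring

theorem a1 : bb 7 (nu + 2) 1 = (-6) * ((nu+3)*(nu+4)*(nu+5)*(nu+6)*(nu+7)) := by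
  unfold bb; norm_num [Finset.prod_Ico_succ_top, Finset.prod_range_succ, Nat.factorial]; try ring

theorem a2 : bb 7 (nu + 2) 2 = 10 * ((nu+4)*(nu+5)*(nu+6)) := by
  unfold bb; norm_num [Finset.prod_Ico_succ_top, Finset.prod_range_succ, Nat.factorial]; try ring

theorem a3 : bb 7 (nu + 2) 3 = (-4) * ((nu+5)) := by
  unfold bb; norm_num [Finset.prod_Ico_succ_top, Finset.prod_range_succ, Nat.factorial]; try ring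

theorem Dx (n : ℕ) : D 7 n = (nu+1)^f 7 n 0 * (nu+2)^f 7 n 1 * (nu+3)^f 7 n 2 * (nu+4)^f 7 n 3 * (nu+5)^f 7 n 4 * (nu+6)^f 7 n 5 * (nu+7)^f 7 n 6 * (nu+8)^f 7 n 7 := by
  unfold D; simp only [Finset.prod_range_succ, Finset.prod_range_zero, one_mul]; norm_num [add_assoc]

theorem D0 : D 7 0 = (nu+1)^1*(nu+2)^0*(nu+3)^0*(nu+4)^0*(nu+5)^0*(nu+6)^0*(nu+7)^0*(nu+8)^0 := by
  rw [Dx, show f 7 0 0 = 1 from rfl, show f 7 0 1 = 0 from rfl, show f 7 0 2 = 0 from rfl, show f 7 0 3 = 0 from rfl, show f 7 0 4 = 0 from rfl, show f 7 0 5 = 0 from rfl, show f 7 0 6 = 0 from rfl, show f 7 0 7 = 0 from rfl]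

theorem D1 : D 7 1 = (nu+1)^2*(nu+2)^1*(nu+3)^0*(nu+4)^0*(nu+5)^0*(nu+6)^0*(nu+7)^0*(nu+8)^0 := by
  rw [Dx, show f 7 1 0 = 2 from rfl, show f 7 1 1 = 1 from rfl, show f 7 1 2 = 0 from rfl, show f 7 1 3 = 0 from rfl, show f 7 1 4 = 0 from rfl, show f 7 1 5 = 0 from rfl, show f 7 1 6 = 0 from rfl, show f 7 1 7 = 0 from rfl]

theorem D2 : D 7 2 = (nu+1)^3*(nu+2)^1*(nu+3)^1*(nu+4)^0*(nu+5)^0*(nu+6)^0*(nu+7)^0*(nu+8)^0 := by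
  rw [Dx, show f 7 2 0 = 3 from rfl, show f 7 2 1 = 1 from rfl, show f 7 2 2 = 1 from rfl, show f 7 2 3 = 0 from rfl, show f 7 2 4 = 0 from rfl, show f 7 2 5 = 0 from rfl, show f 7 2 6 = 0 from rfl, show f 7 2 7 = 0 from rfl]

theorem D3 : D 7 3 = (nu+1)^4*(nu+2)^2*(nu+3)^1*(nu+4)^1*(nu+5)^0*(nu+6)^0*(nu+7)^0*(nu+8)^0 := by
  rw [Dx, show f 7 3 0 = 4 from rfl, show f 7 3 1 = 2 from rfl, show f 7 3 2 = 1 from rfl, show f 7 3 3 = 1 from rfl, show f 7 3 4 = 0 from rfl, show f 7 3 5 = 0 from rfl, show f 7 3 6 = 0 from rfl, show f 7 3 7 = 0 from rfl]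

theorem D4 : D 7 4 = (nu+1)^5*(nu+2)^2*(nu+3)^1*(nu+4)^1*(nu+5)^1*(nu+6)^0*(nu+7)^0*(nu+8)^0 := by
  rw [Dx, show f 7 4 0 = 5 from rfl, show f 7 4 1 = 2 from rfl, show f 7 4 2 = 1 from rfl, show f 7 4 3 = 1 from rfl, show f 7 4 4 = 1 from rfl, show f 7 4 5 = 0 from rfl, show f 7 4 6 = 0 from rfl, show f 7 4 7 = 0 from rfl]

theorem D5 : D 7 5 = (nu+1)^6*(nu+2)^3*(nu+3)^2*(nu+4)^1*(nu+5)^1*(nu+6)^1*(nu+7)^0*(nu+8)^0 := by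
  rw [Dx, show f 7 5 0 = 6 from rfl, show f 7 5 1 = 3 from rfl, show f 7 5 2 = 2 from rfl, show f 7 5 3 = 1 from rfl, show f 7 5 4 = 1 from rfl, show f 7 5 5 = 1 from rfl, show f 7 5 6 = 0 from rfl, show f 7 5 7 = 0 from rfl]

theorem D6 : D 7 6 = (nu+1)^7*(nu+2)^3*(nu+3)^2*(nu+4)^1*(nu+5)^1*(nu+6)^1*(nu+7)^1*(nu+8)^0 := by
  rw [Dx, show f 7 6 0 = 7 from rfl, show f 7 6 1 = 3 from rfl, show f 7 6 2 = 2 from rfl, show f 7 6 3 = 1 from rfl, show f 7 6 4 = 1 from rfl, show f 7 6 5 = 1 from rfl, show f 7 6 6 = 1 from rfl, show f 7 6 7 = 0 from rfl]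

theorem D7 : D 7 7 = (nu+1)^8*(nu+2)^4*(nu+3)^2*(nu+4)^2*(nu+5)^1*(nu+6)^1*(nu+7)^1*(nu+8)^1 := by
  rw [Dx, show f 7 7 0 = 8 from rfl, show f 7 7 1 = 4 from rfl, show f 7 7 2 = 2 from rfl, show f 7 7 3 = 2 from rfl, show f 7 7 4 = 1 from rfl, show f 7 7 5 = 1 from rfl, show f 7 7 6 = 1 from rfl, show f 7 7 7 = 1 from rfl]

theorem D8 : D 7 8 = (nu+1)^9*(nu+2)^4*(nu+3)^3*(nu+4)^2*(nu+5)^2*(nu+6)^2*(nu+7)^2*(nu+8)^2 := by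
  rw [Dx, show f 7 8 0 = 9 from rfl, show f 7 8 1 = 4 from rfl, show f 7 8 2 = 3 from rfl, show f 7 8 3 = 2 from rfl, show f 7 8 4 = 2 from rfl, show f 7 8 5 = 2 from rfl, show f 7 8 6 = 2 from rfl, show f 7 8 7 = 2 from rfl]

theorem D9 : D 7 9 = (nu+1)^10*(nu+2)^5*(nu+3)^3*(nu+4)^2*(nu+5)^2*(nu+6)^2*(nu+7)^2*(nu+8)^3 := by
  rw [Dx, show f 7 9 0 = 10 from rfl, show f 7 9 1 = 5 from rfl, show f 7 9 2 = 3 from rfl, show f 7 9 3 = 2 from rfl, show f 7 9 4 = 2 from rfl, show f 7 9 5 = 2 from rfl, show f 7 9 6 = 2 from rfl, show f 7 9 7 = 3 from rfl]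

def g (n : ℕ) : K := (nu+2)^(if n % 2 = 1 then 1 else 0) * (nu+7)^(if n % 2 = 0 then 1 else 0)

def h (n : ℕ) : K := (nu+3)^(if n % 3 = 2 then 1 else 0) * (nu+6)^(if n % 3 = 2 then 1 else 0)

def k (n : ℕ) : K := (nu+4)^(if n % 4 = 3 then 1 else 0) * (nu+5)^(if n % 4 = 0 then 1 else 0)

theorem f0 (n : ℕ) (hn : 6 ≤ n) : f 7 (n + 1) 0 = f 7 n 0 + 1 := by
  simp only [f]; norm_num; omega

theorem f1 (n : ℕ) (hn : 6 ≤ n) : f 7 (n + 1) 1 = f 7 n 1 + (if (n + 1) % 2 = 1 then 1 else 0) := by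
  simp only [f]; norm_num; split_ifs <;> omega

theorem f2 (n : ℕ) (hn : 6 ≤ n) : f 7 (n + 1) 2 = f 7 n 2 + (if (n + 1) % 3 = 2 then 1 else 0) := by
  simp only [f]; norm_num; split_ifs <;> omega

theorem f3 (n : ℕ) (hn : 6 ≤ n) : f 7 (n + 1) 3 = f 7 n 3 + (if (n + 1) % 4 = 3 then 1 else 0) := by
  simp only [f]; norm_num; split_ifs <;> omega

theorem f4 (n : ℕ) (hn : 6 ≤ n) : f 7 (n + 1) 4 = f 7 n 4 + (if (n + 1) % 4 = 0 then 1 else 0) := by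
  simp only [f]; norm_num; split_ifs <;> omega

theorem f5 (n : ℕ) (hn : 6 ≤ n) : f 7 (n + 1) 5 = f 7 n 5 + (if (n + 1) % 3 = 2 then 1 else 0) := by
  simp only [f]; norm_num; split_ifs <;> omega

theorem f6 (n : ℕ) (hn : 6 ≤ n) : f 7 (n + 1) 6 = f 7 n 6 + (if (n + 1) % 2 = 0 then 1 else 0) := by
  simp only [f]; norm_num; split_ifs <;> omega

theorem f7 (n : ℕ) (hn : 6 ≤ n) : f 7 (n + 1) 7 = f 7 n 7 + 1 := by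
  simp only [f]; norm_num; omega

theorem Ds (n : ℕ) (hn : 6 ≤ n) : D 7 (n + 1) = D 7 n * ((nu+1)*(nu+8)) * (g (n + 1) * h (n + 1) * k (n + 1)) := by
  rw [Dx, Dx, f0 n hn, f1 n hn, f2 n hn, f3 n hn, f4 n hn, f5 n hn, f6 n hn, f7 n hn]
  simp only [g, h, k, pow_add, pow_one]
  ring

theorem rr (n : ℕ) (hn : 1 ≤ n) : ((nu+1)*(nu+8)) * ((nu+2)*(nu+7)) * ((nu+3)*(nu+6)) * ((nu+4)*(nu+5)) * 1 * c 7 (n + 4) - 7 * (((nu+2)*(nu+7)) * ((nu+3)*(nu+6)) * ((nu+4)*(nu+5)) * 1) * c 7 (n + 3) + 15 * (((nu+3)*(nu+6)) * ((nu+4)*(nu+5)) * 1) * c 7 (n + 2) - 10 * (((nu+4)*(nu+5)) * 1) * c 7 (n + 1) + 1 * 1 * c 7 n = 0 := by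
  have h := rec 7 (n + 4)
  rw [if_neg (by omega)] at h
  simp only [Nat.reduceAdd, Nat.reduceDiv, Finset.sum_range_succ, Finset.sum_range_zero, zero_add] at h
  rw [if_pos (show 0 ≤ n + 4 by omega), if_pos (show 1 ≤ n + 4 by omega), if_pos (show 2 ≤ n + 4 by omega), if_pos (show 3 ≤ n + 4 by omega), if_pos (show 4 ≤ n + 4 by omega)] at h
  simp only [Nat.add_sub_cancel, Nat.sub_zero, show n + 4 - 1 = n + 3 from rfl, show n + 4 - 2 = n + 2 from rfl, show n + 4 - 3 = n + 1 from rfl, b0, b1, b2, b3, b4] at h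
  linear_combination h

theorem c0 : ((nu+1)^1*(nu+2)^0*(nu+3)^0*(nu+4)^0*(nu+5)^0*(nu+6)^0*(nu+7)^0*(nu+8)^0) * c 7 0 = 1 := by
  have h := rec 7 0
  have h2 : 1 * ((nu+1)*(nu+2)*(nu+3)*(nu+4)*(nu+5)*(nu+6)*(nu+7)*(nu+8)) * c 7 0 = 1 * ((nu+2)*(nu+3)*(nu+4)*(nu+5)*(nu+6)*(nu+7)*(nu+8)) := by
    simpa [Finset.sum_range_succ, b0, b1, b2, b3, b4, a0] using h
  have h0 : (nu+1)*(nu+2)*(nu+3)*(nu+4)*(nu+5)*(nu+6)*(nu+7)*(nu+8) ≠ 0 := by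
    have e := nu_add_ne
    have e1 := e 1; have e2 := e 2; have e3 := e 3; have e4 := e 4; have e5 := e 5; have e6 := e 6; have e7 := e 7; have e8 := e 8; push_cast at e1 e2 e3 e4 e5 e6 e7 e8
    simp only [Ne, mul_eq_zero, not_or]
    tauto
  apply mul_left_cancel₀ h0
  linear_combination ((nu+1)^1*(nu+2)^0*(nu+3)^0*(nu+4)^0*(nu+5)^0*(nu+6)^0*(nu+7)^0*(nu+8)^0) * h2

theorem c1 : ((nu+1)^2*(nu+2)^1*(nu+3)^0*(nu+4)^0*(nu+5)^0*(nu+6)^0*(nu+7)^0*(nu+8)^0) * c 7 1 = 1 := by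
  have h := rec 7 1
  have h2 : 1 * ((nu+1)*(nu+2)*(nu+3)*(nu+4)*(nu+5)*(nu+6)*(nu+7)*(nu+8)) * c 7 1 + (-7) * ((nu+2)*(nu+3)*(nu+4)*(nu+5)*(nu+6)*(nu+7)) * c 7 0 = (-6) * ((nu+3)*(nu+4)*(nu+5)*(nu+6)*(nu+7)) := by
    simpa [Finset.sum_range_succ, b0, b1, b2, b3, b4, a1] using h
  have h0 : (nu+1)*(nu+2)*(nu+3)*(nu+4)*(nu+5)*(nu+6)*(nu+7)*(nu+8) ≠ 0 := by
    have e := nu_add_ne
    have e1 := e 1; have e2 := e 2; have e3 := e 3; have e4 := e 4; have e5 := e 5; have e6 := e 6; have e7 := e 7; have e8 := e 8; push_cast at e1 e2 e3 e4 e5 e6 e7 e8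
    simp only [Ne, mul_eq_zero, not_or]
    tauto
  apply mul_left_cancel₀ h0
  linear_combination ((nu+1)^2*(nu+2)^1*(nu+3)^0*(nu+4)^0*(nu+5)^0*(nu+6)^0*(nu+7)^0*(nu+8)^0) * h2 - ((-7) * ((nu+2)*(nu+3)*(nu+4)*(nu+5)*(nu+6)*(nu+7))) * ((nu+1)^1*(nu+2)^1*(nu+3)^0*(nu+4)^0*(nu+5)^0*(nu+6)^0*(nu+7)^0*(nu+8)^0) * c0

theorem c2 : ((nu+1)^3*(nu+2)^1*(nu+3)^1*(nu+4)^0*(nu+5)^0*(nu+6)^0*(nu+7)^0*(nu+8)^0) * c 7 2 = 2 := by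
  have h := rec 7 2
  have h2 : 1 * ((nu+1)*(nu+2)*(nu+3)*(nu+4)*(nu+5)*(nu+6)*(nu+7)*(nu+8)) * c 7 2 + (-7) * ((nu+2)*(nu+3)*(nu+4)*(nu+5)*(nu+6)*(nu+7)) * c 7 1 + 15 * ((nu+3)*(nu+4)*(nu+5)*(nu+6)) * c 7 0 = 10 * ((nu+4)*(nu+5)*(nu+6)) := by
    simpa [Finset.sum_range_succ, b0, b1, b2, b3, b4, a2] using h
  have h0 : (nu+1)*(nu+2)*(nu+3)*(nu+4)*(nu+5)*(nu+6)*(nu+7)*(nu+8) ≠ 0 := by
    have e := nu_add_ne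
    have e1 := e 1; have e2 := e 2; have e3 := e 3; have e4 := e 4; have e5 := e 5; have e6 := e 6; have e7 := e 7; have e8 := e 8; push_cast at e1 e2 e3 e4 e5 e6 e7 e8
    simp only [Ne, mul_eq_zero, not_or]
    tauto
  apply mul_left_cancel₀ h0
  linear_combination ((nu+1)^3*(nu+2)^1*(nu+3)^1*(nu+4)^0*(nu+5)^0*(nu+6)^0*(nu+7)^0*(nu+8)^0) * h2 - ((-7) * ((nu+2)*(nu+3)*(nu+4)*(nu+5)*(nu+6)*(nu+7))) * ((nu+1)^1*(nu+2)^0*(nu+3)^1*(nu+4)^0*(nu+5)^0*(nu+6)^0*(nu+7)^0*(nu+8)^0) * c1 - (15 * ((nu+3)*(nu+4)*(nu+5)*(nu+6))) * ((nu+1)^2*(nu+2)^1*(nu+3)^1*(nu+4)^0*(nu+5)^0*(nu+6)^0*(nu+7)^0*(nu+8)^0) * c0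

theorem c3 : ((nu+1)^4*(nu+2)^2*(nu+3)^1*(nu+4)^1*(nu+5)^0*(nu+6)^0*(nu+7)^0*(nu+8)^0) * c 7 3 = 11 + 5*nu := by
  have h := rec 7 3
  have h2 : 1 * ((nu+1)*(nu+2)*(nu+3)*(nu+4)*(nu+5)*(nu+6)*(nu+7)*(nu+8)) * c 7 3 + (-7) * ((nu+2)*(nu+3)*(nu+4)*(nu+5)*(nu+6)*(nu+7)) * c 7 2 + 15 * ((nu+3)*(nu+4)*(nu+5)*(nu+6)) * c 7 1 + (-10) * ((nu+4)*(nu+5)) * c 7 0 = (-4) * ((nu+5)) := by
    simpa [Finset.sum_range_succ, b0, b1, b2, b3, b4, a3] using h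
  have h0 : (nu+1)*(nu+2)*(nu+3)*(nu+4)*(nu+5)*(nu+6)*(nu+7)*(nu+8) ≠ 0 := by
    have e := nu_add_ne
    have e1 := e 1; have e2 := e 2; have e3 := e 3; have e4 := e 4; have e5 := e 5; have e6 := e 6; have e7 := e 7; have e8 := e 8; push_cast at e1 e2 e3 e4 e5 e6 e7 e8
    simp only [Ne, mul_eq_zero, not_or]
    tauto
  apply mul_left_cancel₀ h0
  linear_combination ((nu+1)^4*(nu+2)^2*(nu+3)^1*(nu+4)^1*(nu+5)^0*(nu+6)^0*(nu+7)^0*(nu+8)^0) * h2 - ((-7) * ((nu+2)*(nu+3)*(nu+4)*(nu+5)*(nu+6)*(nu+7))) * ((nu+1)^1*(nu+2)^1*(nu+3)^0*(nu+4)^1*(nu+5)^0*(nu+6)^0*(nu+7)^0*(nu+8)^0) * c2 - (15 * ((nu+3)*(nu+4)*(nu+5)*(nu+6))) * ((nu+1)^2*(nu+2)^1*(nu+3)^1*(nu+4)^1*(nu+5)^0*(nu+6)^0*(nu+7)^0*(nu+8)^0) * c1 - ((-10) * ((nu+4)*(nu+5))) * ((nu+1)^3*(nu+2)^2*(nu+3)^1*(nu+4)^1*(nu+5)^0*(nu+6)^0*(nu+7)^0*(nu+8)^0) * c0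

theorem c4 : ((nu+1)^5*(nu+2)^2*(nu+3)^1*(nu+4)^1*(nu+5)^1*(nu+6)^0*(nu+7)^0*(nu+8)^0) * c 7 4 = 38 + 14*nu := by
  have h := rec 7 4
  have h2 : 1 * ((nu+1)*(nu+2)*(nu+3)*(nu+4)*(nu+5)*(nu+6)*(nu+7)*(nu+8)) * c 7 4 + (-7) * ((nu+2)*(nu+3)*(nu+4)*(nu+5)*(nu+6)*(nu+7)) * c 7 3 + 15 * ((nu+3)*(nu+4)*(nu+5)*(nu+6)) * c 7 2 + (-10) * ((nu+4)*(nu+5)) * c 7 1 + 1 * (1) * c 7 0 = 0 := by
    simpa [Finset.sum_range_succ, b0, b1, b2, b3, b4] using h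
  have h0 : (nu+1)*(nu+2)*(nu+3)*(nu+4)*(nu+5)*(nu+6)*(nu+7)*(nu+8) ≠ 0 := by
    have e := nu_add_ne
    have e1 := e 1; have e2 := e 2; have e3 := e 3; have e4 := e 4; have e5 := e 5; have e6 := e 6; have e7 := e 7; have e8 := e 8; push_cast at e1 e2 e3 e4 e5 e6 e7 e8
    simp only [Ne, mul_eq_zero, not_or]
    tauto
  apply mul_left_cancel₀ h0
  linear_combination ((nu+1)^5*(nu+2)^2*(nu+3)^1*(nu+4)^1*(nu+5)^1*(nu+6)^0*(nu+7)^0*(nu+8)^0) * h2 - ((-7) * ((nu+2)*(nu+3)*(nu+4)*(nu+5)*(nu+6)*(nu+7))) * ((nu+1)^1*(nu+2)^0*(nu+3)^0*(nu+4)^0*(nu+5)^1*(nu+6)^0*(nu+7)^0*(nu+8)^0) * c3 - (15 * ((nu+3)*(nu+4)*(nu+5)*(nu+6))) * ((nu+1)^2*(nu+2)^1*(nu+3)^0*(nu+4)^1*(nu+5)^1*(nu+6)^0*(nu+7)^0*(nu+8)^0) * c2 - ((-10) * ((nu+4)*(nu+5))) * ((nu+1)^3*(nu+2)^1*(nu+3)^1*(nu+4)^1*(nu+5)^1*(nu+6)^0*(nu+7)^0*(nu+8)^0) * c1 - (1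 * (1)) * ((nu+1)^4*(nu+2)^2*(nu+3)^1*(nu+4)^1*(nu+5)^1*(nu+6)^0*(nu+7)^0*(nu+8)^0) * c0

theorem c5 : ((nu+1)^6*(nu+2)^3*(nu+3)^2*(nu+4)^1*(nu+5)^1*(nu+6)^1*(nu+7)^0*(nu+8)^0) * c 7 5 = 946 + 1026*nu + 362*nu^2 + 42*nu^3 := by
  have h := rec 7 5
  have h2 : 1 * ((nu+1)*(nu+2)*(nu+3)*(nu+4)*(nu+5)*(nu+6)*(nu+7)*(nu+8)) * c 7 5 + (-7) * ((nu+2)*(nu+3)*(nu+4)*(nu+5)*(nu+6)*(nu+7)) * c 7 4 + 15 * ((nu+3)*(nu+4)*(nu+5)*(nu+6)) * c 7 3 + (-10) * ((nu+4)*(nu+5)) * c 7 2 + 1 * (1) * c 7 1 = 0 := by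
    simpa [Finset.sum_range_succ, b0, b1, b2, b3, b4] using h
  have h0 : (nu+1)*(nu+2)*(nu+3)*(nu+4)*(nu+5)*(nu+6)*(nu+7)*(nu+8) ≠ 0 := by
    have e := nu_add_ne
    have e1 := e 1; have e2 := e 2; have e3 := e 3; have e4 := e 4; have e5 := e 5; have e6 := e 6; have e7 := e 7; have e8 := e 8; push_cast at e1 e2 e3 e4 e5 e6 e7 e8
    simp only [Ne, mul_eq_zero, not_or]
    tauto
  apply mul_left_cancel₀ h0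
  linear_combination ((nu+1)^6*(nu+2)^3*(nu+3)^2*(nu+4)^1*(nu+5)^1*(nu+6)^1*(nu+7)^0*(nu+8)^0) * h2 - ((-7) * ((nu+2)*(nu+3)*(nu+4)*(nu+5)*(nu+6)*(nu+7))) * ((nu+1)^1*(nu+2)^1*(nu+3)^1*(nu+4)^0*(nu+5)^0*(nu+6)^1*(nu+7)^0*(nu+8)^0) * c4 - (15 * ((nu+3)*(nu+4)*(nu+5)*(nu+6))) * ((nu+1)^2*(nu+2)^1*(nu+3)^1*(nu+4)^0*(nu+5)^1*(nu+6)^1*(nu+7)^0*(nu+8)^0) * c3 - ((-10) * ((nu+4)*(nu+5))) * ((nu+1)^3*(nu+2)^2*(nu+3)^1*(nu+4)^1*(nu+5)^1*(nu+6)^1*(nu+7)^0*(nu+8)^0) * c2 - (1 * (1)) * ((nu+1)^4*(nu+2)^2*(nu+3)^2*(nu+4)^1*(nu+5)^1*(nu+6)^1*(nu+7)^0*(nu+8)^0) * c1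

theorem c6 : ((nu+1)^7*(nu+2)^3*(nu+3)^2*(nu+4)^1*(nu+5)^1*(nu+6)^1*(nu+7)^1*(nu+8)^0) * c 7 6 = 4580 + 4324*nu + 1316*nu^2 + 132*nu^3 := by
  have h := rec 7 6
  have h2 : 1 * ((nu+1)*(nu+2)*(nu+3)*(nu+4)*(nu+5)*(nu+6)*(nu+7)*(nu+8)) * c 7 6 + (-7) * ((nu+2)*(nu+3)*(nu+4)*(nu+5)*(nu+6)*(nu+7)) * c 7 5 + 15 * ((nu+3)*(nu+4)*(nu+5)*(nu+6)) * c 7 4 + (-10) * ((nu+4)*(nu+5)) * c 7 3 + 1 * (1) * c 7 2 = 0 := by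
    simpa [Finset.sum_range_succ, b0, b1, b2, b3, b4] using h
  have h0 : (nu+1)*(nu+2)*(nu+3)*(nu+4)*(nu+5)*(nu+6)*(nu+7)*(nu+8) ≠ 0 := by
    have e := nu_add_ne
    have e1 := e 1; have e2 := e 2; have e3 := e 3; have e4 := e 4; have e5 := e 5; have e6 := e 6; have e7 := e 7; have e8 := e 8; push_cast at e1 e2 e3 e4 e5 e6 e7 e8
    simp only [Ne, mul_eq_zero, not_or]
    tauto
  apply mul_left_cancel₀ h0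
  linear_combination ((nu+1)^7*(nu+2)^3*(nu+3)^2*(nu+4)^1*(nu+5)^1*(nu+6)^1*(nu+7)^1*(nu+8)^0) * h2 - ((-7) * ((nu+2)*(nu+3)*(nu+4)*(nu+5)*(nu+6)*(nu+7))) * ((nu+1)^1*(nu+2)^0*(nu+3)^0*(nu+4)^0*(nu+5)^0*(nu+6)^0*(nu+7)^1*(nu+8)^0) * c5 - (15 * ((nu+3)*(nu+4)*(nu+5)*(nu+6))) * ((nu+1)^2*(nu+2)^1*(nu+3)^1*(nu+4)^0*(nu+5)^0*(nu+6)^1*(nu+7)^1*(nu+8)^0) * c4 - ((-10) * ((nu+4)*(nu+5))) * ((nu+1)^3*(nu+2)^1*(nu+3)^1*(nu+4)^0*(nu+5)^1*(nu+6)^1*(nu+7)^1*(nu+8)^0) * c3 - (1 * (1)) * ((nu+1)^4*(nu+2)^2*(nu+3)^1*(nu+4)^1*(nu+5)^1*(nu+6)^1*(nu+7)^1*(nu+8)^0) * c2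

theorem c7 : ((nu+1)^8*(nu+2)^4*(nu+3)^2*(nu+4)^2*(nu+5)^1*(nu+6)^1*(nu+7)^1*(nu+8)^1) * c 7 7 = 202738 + 311387*nu + 185430*nu^2 + 53752*nu^3 + 7640*nu^4 + 429*nu^5 := by
  have h := rec 7 7
  have h2 : 1 * ((nu+1)*(nu+2)*(nu+3)*(nu+4)*(nu+5)*(nu+6)*(nu+7)*(nu+8)) * c 7 7 + (-7) * ((nu+2)*(nu+3)*(nu+4)*(nu+5)*(nu+6)*(nu+7)) * c 7 6 + 15 * ((nu+3)*(nu+4)*(nu+5)*(nu+6)) * c 7 5 + (-10) * ((nu+4)*(nu+5)) * c 7 4 + 1 * (1) * c 7 3 = 0 := by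
    simpa [Finset.sum_range_succ, b0, b1, b2, b3, b4] using h
  have h0 : (nu+1)*(nu+2)*(nu+3)*(nu+4)*(nu+5)*(nu+6)*(nu+7)*(nu+8) ≠ 0 := by
    have e := nu_add_ne
    have e1 := e 1; have e2 := e 2; have e3 := e 3; have e4 := e 4; have e5 := e 5; have e6 := e 6; have e7 := e 7; have e8 := e 8; push_cast at e1 e2 e3 e4 e5 e6 e7 e8
    simp only [Ne, mul_eq_zero, not_or]
    tauto
  apply mul_left_cancel₀ h0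
  linear_combination ((nu+1)^8*(nu+2)^4*(nu+3)^2*(nu+4)^2*(nu+5)^1*(nu+6)^1*(nu+7)^1*(nu+8)^1) * h2 - ((-7) * ((nu+2)*(nu+3)*(nu+4)*(nu+5)*(nu+6)*(nu+7))) * ((nu+1)^1*(nu+2)^1*(nu+3)^0*(nu+4)^1*(nu+5)^0*(nu+6)^0*(nu+7)^0*(nu+8)^1) * c6 - (15 * ((nu+3)*(nu+4)*(nu+5)*(nu+6))) * ((nu+1)^2*(nu+2)^1*(nu+3)^0*(nu+4)^1*(nu+5)^0*(nu+6)^0*(nu+7)^1*(nu+8)^1) * c5 - ((-10) * ((nu+4)*(nu+5))) * ((nu+1)^3*(nu+2)^2*(nu+3)^1*(nu+4)^1*(nu+5)^0*(nu+6)^1*(nu+7)^1*(nu+8)^1) * c4 - (1 * (1)) * ((nu+1)^4*(nu+2)^2*(nu+3)^1*(nu+4)^1*(nu+5)^1*(nu+6)^1*(nu+7)^1*(nu+8)^1) * c3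

theorem c8 : ((nu+1)^9*(nu+2)^4*(nu+3)^3*(nu+4)^2*(nu+5)^2*(nu+6)^2*(nu+7)^2*(nu+8)^2) * c 7 8 = 706737172 + 1569378080*nu + 1520011765*nu^2 + 844401787*nu^3 + 297078569*nu^4 + 68777711*nu^5 + 10497775*nu^6 + 1020513*nu^7 + 57439*nu^8 + 1429*nu^9 := by
  have h := rec 7 8
  have h2 : 1 * ((nu+1)*(nu+2)*(nu+3)*(nu+4)*(nu+5)*(nu+6)*(nu+7)*(nu+8)) * c 7 8 + (-7) * ((nu+2)*(nu+3)*(nu+4)*(nu+5)*(nu+6)*(nu+7)) * c 7 7 + 15 * ((nu+3)*(nu+4)*(nu+5)*(nu+6)) * c 7 6 + (-10) * ((nu+4)*(nu+5)) * c 7 5 + 1 * (1) * c 7 4 = 0 := by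
    simpa [Finset.sum_range_succ, b0, b1, b2, b3, b4] using h
  have h0 : (nu+1)*(nu+2)*(nu+3)*(nu+4)*(nu+5)*(nu+6)*(nu+7)*(nu+8) ≠ 0 := by
    have e := nu_add_ne
    have e1 := e 1; have e2 := e 2; have e3 := e 3; have e4 := e 4; have e5 := e 5; have e6 := e 6; have e7 := e 7; have e8 := e 8; push_cast at e1 e2 e3 e4 e5 e6 e7 e8
    simp only [Ne, mul_eq_zero, not_or]
    tauto
  apply mul_left_cancel₀ h0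
  linear_combination ((nu+1)^9*(nu+2)^4*(nu+3)^3*(nu+4)^2*(nu+5)^2*(nu+6)^2*(nu+7)^2*(nu+8)^2) * h2 - ((-7) * ((nu+2)*(nu+3)*(nu+4)*(nu+5)*(nu+6)*(nu+7))) * ((nu+1)^1*(nu+2)^0*(nu+3)^1*(nu+4)^0*(nu+5)^1*(nu+6)^1*(nu+7)^1*(nu+8)^1) * c7 - (15 * ((nu+3)*(nu+4)*(nu+5)*(nu+6))) * ((nu+1)^2*(nu+2)^1*(nu+3)^1*(nu+4)^1*(nu+5)^1*(nu+6)^1*(nu+7)^1*(nu+8)^2) * c6 - ((-10) * ((nu+4)*(nu+5))) * ((nu+1)^3*(nu+2)^1*(nu+3)^1*(nu+4)^1*(nu+5)^1*(nu+6)^1*(nu+7)^2*(nu+8)^2) * c5 - (1 * (1)) * ((nu+1)^4*(nu+2)^2*(nu+3)^2*(nu+4)^1*(nu+5)^1*(nu+6)^2*(nu+7)^2*(nu+8)^2) * c4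

theorem c9 : ((nu+1)^10*(nu+2)^5*(nu+3)^3*(nu+4)^2*(nu+5)^2*(nu+6)^2*(nu+7)^2*(nu+8)^3) * c 7 9 = 7821150392 + 20041176800*nu + 22626696850*nu^2 + 14848181148*nu^3 + 6284850560*nu^4 + 1797108936*nu^5 + 352471576*nu^6 + 46954204*nu^7 + 4078640*nu^8 + 209376*nu^9 + 4846*nu^10 := by
  have h := rec 7 9
  have h2 : 1 * ((nu+1)*(nu+2)*(nu+3)*(nu+4)*(nu+5)*(nu+6)*(nu+7)*(nu+8)) * c 7 9 + (-7) * ((nu+2)*(nu+3)*(nu+4)*(nu+5)*(nu+6)*(nu+7)) * c 7 8 + 15 * ((nu+3)*(nu+4)*(nu+5)*(nu+6)) * c 7 7 + (-10) * ((nu+4)*(nu+5)) * c 7 6 + 1 * (1) * c 7 5 = 0 := by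
    simpa [Finset.sum_range_succ, b0, b1, b2, b3, b4] using h
  have h0 : (nu+1)*(nu+2)*(nu+3)*(nu+4)*(nu+5)*(nu+6)*(nu+7)*(nu+8) ≠ 0 := by
    have e := nu_add_ne
    have e1 := e 1; have e2 := e 2; have e3 := e 3; have e4 := e 4; have e5 := e 5; have e6 := e 6; have e7 := e 7; have e8 := e 8; push_cast at e1 e2 e3 e4 e5 e6 e7 e8
    simp only [Ne, mul_eq_zero, not_or]
    tauto
  apply mul_left_cancel₀ h0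
  linear_combination ((nu+1)^10*(nu+2)^5*(nu+3)^3*(nu+4)^2*(nu+5)^2*(nu+6)^2*(nu+7)^2*(nu+8)^3) * h2 - ((-7) * ((nu+2)*(nu+3)*(nu+4)*(nu+5)*(nu+6)*(nu+7))) * ((nu+1)^1*(nu+2)^1*(nu+3)^0*(nu+4)^0*(nu+5)^0*(nu+6)^0*(nu+7)^0*(nu+8)^1) * c8 - (15 * ((nu+3)*(nu+4)*(nu+5)*(nu+6))) * ((nu+1)^2*(nu+2)^1*(nu+3)^1*(nu+4)^0*(nu+5)^1*(nu+6)^1*(nu+7)^1*(nu+8)^2) * c7 - ((-10) * ((nu+4)*(nu+5))) * ((nu+1)^3*(nu+2)^2*(nu+3)^1*(nu+4)^1*(nu+5)^1*(nu+6)^1*(nu+7)^1*(nu+8)^3) * c6 - (1 * (1)) * ((nu+1)^4*(nu+2)^2*(nu+3)^1*(nu+4)^1*(nu+5)^1*(nu+6)^1*(nu+7)^2*(nu+8)^3) * c5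

theorem m0 : D 7 0 * c 7 0 ∈ S := by
  have e : D 7 0 * c 7 0 = ev [1] := by
    rw [D0, c0]; simp only [ev]; push_cast; ring
  rw [e]; exact ev_mem _

theorem m1 : D 7 1 * c 7 1 ∈ S := by
  have e : D 7 1 * c 7 1 = ev [1] := by
    rw [D1, c1]; simp only [ev]; push_cast; ring
  rw [e]; exact ev_mem _

theorem m2 : D 7 2 * c 7 2 ∈ S := by
  have e : D 7 2 * c 7 2 = ev [2] := by
    rw [D2, c2]; simp only [ev]; push_cast; ring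
  rw [e]; exact ev_mem _

theorem m3 : D 7 3 * c 7 3 ∈ S := by
  have e : D 7 3 * c 7 3 = ev [11, 5] := by
    rw [D3, c3]; simp only [ev]; push_cast; ring
  rw [e]; exact ev_mem _

theorem m4 : D 7 4 * c 7 4 ∈ S := by
  have e : D 7 4 * c 7 4 = ev [38, 14] := by
    rw [D4, c4]; simp only [ev]; push_cast; ring
  rw [e]; exact ev_mem _

theorem m5 : D 7 5 * c 7 5 ∈ S := by
  have e : D 7 5 * c 7 5 = ev [946, 1026, 362, 42] := by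
    rw [D5, c5]; simp only [ev]; push_cast; ring
  rw [e]; exact ev_mem _

theorem m6 : D 7 6 * c 7 6 ∈ S := by
  have e : D 7 6 * c 7 6 = ev [4580, 4324, 1316, 132] := by
    rw [D6, c6]; simp only [ev]; push_cast; ring
  rw [e]; exact ev_mem _

theorem m7 : D 7 7 * c 7 7 ∈ S := by
  have e : D 7 7 * c 7 7 = ev [202738, 311387, 185430, 53752, 7640, 429] := by
    rw [D7, c7]; simp only [ev]; push_cast; ring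
  rw [e]; exact ev_mem _

theorem m8 : D 7 8 * c 7 8 ∈ S := by
  have e : D 7 8 * c 7 8 = ev [706737172, 1569378080, 1520011765, 844401787, 297078569, 68777711, 10497775, 1020513, 57439, 1429] := by
    rw [D8, c8]; simp only [ev]; push_cast; ring
  rw [e]; exact ev_mem _

theorem m9 : D 7 9 * c 7 9 ∈ S := by
  have e : D 7 9 * c 7 9 = ev [7821150392, 20041176800, 22626696850, 14848181148, 6284850560, 1797108936, 352471576, 46954204, 4078640, 209376, 4846] := by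
    rw [D9, c9]; simp only [ev]; push_cast; ring
  rw [e]; exact ev_mem _

theorem g_mem (n : ℕ) : g n ∈ S := mul_mem (pow_mem (xm 2) _) (pow_mem (xm 7) _)

theorem g_w (n : ℕ) : g (n + 1) * g n = ((nu+2)*(nu+7)) := by
  have hc : n % 2 = 0 ∨ n % 2 = 1 := by omega
  rcases hc with h0|h0
  · have h1 : (n + 1) % 2 = 1 := by omega
    simp [g, h0, h1]; try ring
  · have h1 : (n + 1) % 2 = 0 := by omega
    simp [g, h0, h1]; try ring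

theorem g_p (n : ℕ) : g (n + 2) = g n := by
  simp only [g, show (n + 2) % 2 = n % 2 by omega]

theorem h_mem (n : ℕ) : h n ∈ S := mul_mem (pow_mem (xm 3) _) (pow_mem (xm 6) _)

theorem h_w (n : ℕ) : h (n + 2) * h (n + 1) * h n = ((nu+3)*(nu+6)) := by
  have hc : n % 3 = 0 ∨ n % 3 = 1 ∨ n % 3 = 2 := by omega
  rcases hc with h0|h0|h0
  · have h1 : (n + 1) % 3 = 1 := by omega
    have h2 : (n + 2) % 3 = 2 := by omega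
    simp [h, h0, h1, h2]; try ring
  · have h1 : (n + 1) % 3 = 2 := by omega
    have h2 : (n + 2) % 3 = 0 := by omega
    simp [h, h0, h1, h2]; try ring
  · have h1 : (n + 1) % 3 = 0 := by omega
    have h2 : (n + 2) % 3 = 1 := by omega
    simp [h, h0, h1, h2]; try ring

theorem h_p (n : ℕ) : h (n + 3) = h n := by
  simp only [h, show (n + 3) % 3 = n % 3 by omega]

theorem k_mem (n : ℕ) : k n ∈ S := mul_mem (pow_mem (xm 4) _) (pow_mem (xm 5) _)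

theorem k_w (n : ℕ) : k (n + 3) * k (n + 2) * k (n + 1) * k n = ((nu+4)*(nu+5)) := by
  have hc : n % 4 = 0 ∨ n % 4 = 1 ∨ n % 4 = 2 ∨ n % 4 = 3 := by omega
  rcases hc with h0|h0|h0|h0
  · have h1 : (n + 1) % 4 = 1 := by omega
    have h2 : (n + 2) % 4 = 2 := by omega
    have h3 : (n + 3) % 4 = 3 := by omega
    simp [k, h0, h1, h2, h3]; try ring
  · have h1 : (n + 1) % 4 = 2 := by omega
    have h2 : (n + 2) % 4 = 3 := by omega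
    have h3 : (n + 3) % 4 = 0 := by omega
    simp [k, h0, h1, h2, h3]; try ring
  · have h1 : (n + 1) % 4 = 3 := by omega
    have h2 : (n + 2) % 4 = 0 := by omega
    have h3 : (n + 3) % 4 = 1 := by omega
    simp [k, h0, h1, h2, h3]; try ring
  · have h1 : (n + 1) % 4 = 0 := by omega
    have h2 : (n + 2) % 4 = 1 := by omega
    have h3 : (n + 3) % 4 = 2 := by omega
    simp [k, h0, h1, h2, h3]; try ring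

def N (n : ℕ) : K := D 7 n * c 7 n

theorem Nv6 : N 6 = 4580 + 4324*nu + 1316*nu^2 + 132*nu^3 := by
  unfold N; rw [D6, c6]

theorem Nv7 : N 7 = 202738 + 311387*nu + 185430*nu^2 + 53752*nu^3 + 7640*nu^4 + 429*nu^5 := by
  unfold N; rw [D7, c7]

theorem Nv8 : N 8 = 706737172 + 1569378080*nu + 1520011765*nu^2 + 844401787*nu^3 + 297078569*nu^4 + 68777711*nu^5 + 10497775*nu^6 + 1020513*nu^7 + 57439*nu^8 + 1429*nu^9 := by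
  unfold N; rw [D8, c8]

theorem Nv9 : N 9 = 7821150392 + 20041176800*nu + 22626696850*nu^2 + 14848181148*nu^3 + 6284850560*nu^4 + 1797108936*nu^5 + 352471576*nu^6 + 46954204*nu^7 + 4078640*nu^8 + 209376*nu^9 + 4846*nu^10 := by
  unfold N; rw [D9, c9]

theorem gv7 : g 7 = (nu+2)^1*(nu+7)^0 := by
  norm_num [g]

theorem hv7 : h 7 = (nu+3)^0*(nu+6)^0 := by
  norm_num [h]

theorem kv7 : k 7 = (nu+4)^1*(nu+5)^0 := by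
  norm_num [k]

theorem gv8 : g 8 = (nu+2)^0*(nu+7)^1 := by
  norm_num [g]

theorem hv8 : h 8 = (nu+3)^1*(nu+6)^1 := by
  norm_num [h]

theorem kv8 : k 8 = (nu+4)^0*(nu+5)^1 := by
  norm_num [k]

theorem gv9 : g 9 = (nu+2)^1*(nu+7)^0 := by
  norm_num [g]

theorem hv9 : h 9 = (nu+3)^0*(nu+6)^0 := by
  norm_num [h]

theorem kv9 : k 9 = (nu+4)^0*(nu+5)^0 := by
  norm_num [k]

def M1 (n : ℕ) : K := N n - 3 * (g (n) * h (n) * k (n)) * N (n - 1)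

def M2 (n : ℕ) : K := M1 n - 2 * (g (n) * h (n) * k (n)) * M1 (n - 1)

def M3 (n : ℕ) : K := M2 n - (g (n) * h (n) * k (n)) * M2 (n - 1)

theorem hN (n : ℕ) (hn : 6 ≤ n) : N (n + 4) = 7 * (g (n + 4) * h (n + 4) * k (n + 4)) * N (n + 3) - 15 * ((nu+1)*(nu+8)) * (h (n + 4) * h (n + 3)) * (k (n + 4) * k (n + 3)) * N (n + 2) + 10 * ((nu+1)*(nu+8)) ^ 2 * g (n + 4) * (k (n + 4) * k (n + 3) * k (n + 2)) * N (n + 1) - 1 * ((nu+1)*(nu+8)) ^ 3 * ((nu+2)*(nu+7)) * h (n + 4) * N n := by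
  have e1 := Ds n hn
  have e2 : D 7 (n + 2) = _ := Ds (n + 1) (by omega)
  have e3 : D 7 (n + 3) = _ := Ds (n + 2) (by omega)
  have e4 : D 7 (n + 4) = _ := Ds (n + 3) (by omega)
  unfold N
  rw [e4, e3, e2, e1]
  exact toN4 one_ne_zero (g_w (n + 3)) (g_p (n + 2)) (g_p (n + 1)) (h_p (n + 1)) (h_w (n + 1)) (k_w (n + 1)) (rr n (by omega))

theorem bM1 : M1 (6 + 1) ∈ S := by
  have e : M1 (6 + 1) = ev [92818, 125171, 62274, 13924, 1316, 33] := by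
    show N 7 - 3 * (g (7) * h (7) * k (7)) * N 6 = _
    rw [Nv6, Nv7, gv7, hv7, kv7]; simp only [ev]; push_cast; ring
  rw [e]; exact ev_mem _

theorem bM2 : M2 (6 + 2) ∈ S := by
  have e : M2 (6 + 2) = ev [206611672, 401606840, 334302882, 156365456, 45283254, 8429364, 1013438, 76984, 3474, 76] := by
    show ((N 8 - 3 * (g (8) * h (8) * k (8)) * N 7) - 2 * (g (8) * h (8) * k (8)) * (N 7 - 3 * (g (7) * h (7) * k (7)) * N 6)) = _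
    rw [Nv6, Nv7, Nv8, gv7, hv7, kv7, gv8, hv8, kv8]; simp only [ev]; push_cast; ring
  rw [e]; exact ev_mem _

theorem bM3 : M3 (6 + 3) ∈ S := by
  have e : M3 (6 + 3) = ev [1873254608, 4216166684, 4110140904, 2286534689, 804850625, 187745829, 29533357, 3124291, 217107, 9307, 199] := by
    show (((N 9 - 3 * (g (9) * h (9) * k (9)) * N 8) - 2 * (g (9) * h (9) * k (9)) * (N 8 - 3 * (g (8) * h (8) * k (8)) * N 7)) - (g (9) * h (9) * k (9)) * ((N 8 - 3 * (g (8) * h (8) * k (8)) * N 7) - 2 * (g (8) * h (8) * k (8)) * (N 7 - 3 * (g (7) * h (7) * k (7)) * N 6))) = _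
    rw [Nv6, Nv7, Nv8, Nv9, gv7, hv7, kv7, gv8, hv8, kv8, gv9, hv9, kv9]; simp only [ev]; push_cast; ring
  rw [e]; exact ev_mem _

theorem main (n : ℕ) : D 7 n * c 7 n ∈ S := by
  rcases Nat.lt_or_ge n 6 with hn | hn
  · interval_cases n
    · exact m0
    · exact m1
    · exact m2
    · exact m3
    · exact m4
    · exact m5
  · exact (step4 (M1 := M1) (M2 := M2) (M3 := M3) (a2 := ((6 * 7 - 25) * ((nu+2)*(nu+7)) - 15 * ((nu+1)*(nu+8)))) (a3 := (5 * ((6 * 7 - 25) * ((nu+2)*(nu+7)) - 15 * ((nu+1)*(nu+8))) * ((nu+3)*(nu+6)) + (60 - 11 * 7) * ((nu+2)*(nu+7)) * ((nu+3)*(nu+6)) + 10 * ((nu+1)*(nu+8)) ^ 2)) g_mem g_w g_p h_mem h_w h_p k_mem k_w hN rfl rfl (by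
      have e : (7 - 6 : K) = ev [1] := by simp only [ev]; push_cast; ring
      rw [e]; exact ev_mem _) (by
      have e : (((6 * 7 - 25) * ((nu+2)*(nu+7)) - 15 * ((nu+1)*(nu+8))) : K) = ev [118, 18, 2] := by simp only [ev]; push_cast; ring
      rw [e]; exact ev_mem _) (by
      have e : ((5 * ((6 * 7 - 25) * ((nu+2)*(nu+7)) - 15 * ((nu+1)*(nu+8))) * ((nu+3)*(nu+6)) + (60 - 11 * 7) * ((nu+2)*(nu+7)) * ((nu+3)*(nu+6)) + 10 * ((nu+1)*(nu+8)) ^ 2) : K) = ev [6976, 3474, 629, 54, 3] := by simp only [ev]; push_cast; ring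
      rw [e]; exact ev_mem _) (by
      have e : (3 * (5 * ((6 * 7 - 25) * ((nu+2)*(nu+7)) - 15 * ((nu+1)*(nu+8))) * ((nu+3)*(nu+6)) + (60 - 11 * 7) * ((nu+2)*(nu+7)) * ((nu+3)*(nu+6)) + 10 * ((nu+1)*(nu+8)) ^ 2) * ((nu+4)*(nu+5)) - 6 * ((6 * 7 - 25) * ((nu+2)*(nu+7)) - 15 * ((nu+1)*(nu+8))) * ((nu+3)*(nu+6)) * ((nu+4)*(nu+5)) + 6 * (7 - 6) * ((nu+2)*(nu+7)) * ((nu+3)*(nu+6)) * ((nu+4)*(nu+5)) - 1 * ((nu+1)*(nu+8)) ^ 3 : K) = ev [193408, 162216, 55446, 9774, 948, 54, 2] := by simp only [ev]; push_cast; ring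
      rw [e]; exact ev_mem _) (mul_mem (xm 2) (xm 7)) (fun _ => rfl) (fun _ => rfl) (fun _ => rfl) (by unfold N; exact m6) bM1 bM2 bM3 n hn).1

end

end Pool.Agent.H629.LM.M7
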