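import Pool.Agent.H629.LM.Step5

set_option autoImplicit false
set_option maxRecDepth 4000

namespace Pool.Agent.H629.LM.M9

open Pool.Agent.H629.LM

noncomputable section

theorem b0 : bb 10 (nu + 1) 0 = 1 * ((nu+1)*(nu+2)*(nu+3)*(nu+4)*(nu+5)*(nu+6)*(nu+7)*(nu+8)*(nu+9)*(nu+10)) := by
  unfold bb; norm_num [Finset.prod_Ico_succ_top, Finset.prod_range_succ, Nat.factorial]; try ring

theorem b1 : bb 10 (nu + 1) 1 = (-9) * ((nu+2)*(nu+3)*(nu+4)*(nu+5)*(nu+6)*(nu+7)*(nu+8)*(nu+9)) := by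
  unfold bb; norm_num [Finset.prod_Ico_succ_top, Finset.prod_range_succ, Nat.factorial]; try ring

theorem b2 : bb 10 (nu + 1) 2 = 28 * ((nu+3)*(nu+4)*(nu+5)*(nu+6)*(nu+7)*(nu+8)) := by
  unfold bb; norm_num [Finset.prod_Ico_succ_top, Finset.prod_range_succ, Nat.factorial]; try ring

theorem b3 : bb 10 (nu + 1) 3 = (-35) * ((nu+4)*(nu+5)*(nu+6)*(nu+7)) := by
  unfold bb; norm_num [Finset.prod_Ico_succ_top, Finset.prod_range_succ, Nat.factorial]; try ring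

theorem b4 : bb 10 (nu + 1) 4 = 15 * ((nu+5)*(nu+6)) := by
  unfold bb; norm_num [Finset.prod_Ico_succ_top, Finset.prod_range_succ, Nat.factorial]; try ring

theorem b5 : bb 10 (nu + 1) 5 = (-1) * (1) := by
  unfold bb; norm_num [Finset.prod_Ico_succ_top, Finset.prod_range_succ, Nat.factorial]; try ring

theorem a0 : bb 9 (nu + 2) 0 = 1 * ((nu+2)*(nu+3)*(nu+4)*(nu+5)*(nu+6)*(nu+7)*(nu+8)*(nu+9)*(nu+10)) := by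
  unfold bb; norm_num [Finset.prod_Ico_succ_top, Finset.prod_range_succ, Nat.factorial]; try ring

theorem a1 : bb 9 (nu + 2) 1 = (-8) * ((nu+3)*(nu+4)*(nu+5)*(nu+6)*(nu+7)*(nu+8)*(nu+9)) := by
  unfold bb; norm_num [Finset.prod_Ico_succ_top, Finset.prod_range_succ, Nat.factorial]; try ring

theorem a2 : bb 9 (nu + 2) 2 = 21 * ((nu+4)*(nu+5)*(nu+6)*(nu+7)*(nu+8)) := by
  unfold bb; norm_num [Finset.prod_Ico_succ_top, Finset.prod_range_succ, Nat.factorial]; try ring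

theorem a3 : bb 9 (nu + 2) 3 = (-20) * ((nu+5)*(nu+6)*(nu+7)) := by
  unfold bb; norm_num [Finset.prod_Ico_succ_top, Finset.prod_range_succ, Nat.factorial]; try ring

theorem a4 : bb 9 (nu + 2) 4 = 5 * ((nu+6)) := by
  unfold bb; norm_num [Finset.prod_Ico_succ_top, Finset.prod_range_succ, Nat.factorial]; try ring

theorem Dx (n : ℕ) : D 9 n = (nu+1)^f 9 n 0 * (nu+2)^f 9 n 1 * (nu+3)^f 9 n 2 * (nu+4)^f 9 n 3 * (nu+5)^f 9 n 4 * (nu+6)^f 9 n 5 * (nu+7)^f 9 n 6 * (nu+8)^f 9 n 7 * (nu+9)^f 9 n 8 * (nu+10)^f 9 n 9 := by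
  unfold D; simp only [Finset.prod_range_succ, Finset.prod_range_zero, one_mul]; norm_num [add_assoc]

theorem D0 : D 9 0 = (nu+1)^1*(nu+2)^0*(nu+3)^0*(nu+4)^0*(nu+5)^0*(nu+6)^0*(nu+7)^0*(nu+8)^0*(nu+9)^0*(nu+10)^0 := by
  rw [Dx, show f 9 0 0 = 1 from rfl, show f 9 0 1 = 0 from rfl, show f 9 0 2 = 0 from rfl, show f 9 0 3 = 0 from rfl, show f 9 0 4 = 0 from rfl, show f 9 0 5 = 0 from rfl, show f 9 0 6 = 0 from rfl, show f 9 0 7 = 0 from rfl, show f 9 0 8 = 0 from rfl, show f 9 0 9 = 0 from rfl]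

theorem D1 : D 9 1 = (nu+1)^2*(nu+2)^1*(nu+3)^0*(nu+4)^0*(nu+5)^0*(nu+6)^0*(nu+7)^0*(nu+8)^0*(nu+9)^0*(nu+10)^0 := by
  rw [Dx, show f 9 1 0 = 2 from rfl, show f 9 1 1 = 1 from rfl, show f 9 1 2 = 0 from rfl, show f 9 1 3 = 0 from rfl, show f 9 1 4 = 0 from rfl, show f 9 1 5 = 0 from rfl, show f 9 1 6 = 0 from rfl, show f 9 1 7 = 0 from rfl, show f 9 1 8 = 0 from rfl, show f 9 1 9 = 0 from rfl]

theorem D2 : D 9 2 = (nu+1)^3*(nu+2)^1*(nu+3)^1*(nu+4)^0*(nu+5)^0*(nu+6)^0*(nu+7)^0*(nu+8)^0*(nu+9)^0*(nu+10)^0 := by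
  rw [Dx, show f 9 2 0 = 3 from rfl, show f 9 2 1 = 1 from rfl, show f 9 2 2 = 1 from rfl, show f 9 2 3 = 0 from rfl, show f 9 2 4 = 0 from rfl, show f 9 2 5 = 0 from rfl, show f 9 2 6 = 0 from rfl, show f 9 2 7 = 0 from rfl, show f 9 2 8 = 0 from rfl, show f 9 2 9 = 0 from rfl]

theorem D3 : D 9 3 = (nu+1)^4*(nu+2)^2*(nu+3)^1*(nu+4)^1*(nu+5)^0*(nu+6)^0*(nu+7)^0*(nu+8)^0*(nu+9)^0*(nu+10)^0 := by
  rw [Dx, show f 9 3 0 = 4 from rfl, show f 9 3 1 = 2 from rfl, show f 9 3 2 = 1 from rfl, show f 9 3 3 = 1 from rfl, show f 9 3 4 = 0 from rfl, show f 9 3 5 = 0 from rfl, show f 9 3 6 = 0 from rfl, show f 9 3 7 = 0 from rfl, show f 9 3 8 = 0 from rfl, show f 9 3 9 = 0 from rfl]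

theorem D4 : D 9 4 = (nu+1)^5*(nu+2)^2*(nu+3)^1*(nu+4)^1*(nu+5)^1*(nu+6)^0*(nu+7)^0*(nu+8)^0*(nu+9)^0*(nu+10)^0 := by
  rw [Dx, show f 9 4 0 = 5 from rfl, show f 9 4 1 = 2 from rfl, show f 9 4 2 = 1 from rfl, show f 9 4 3 = 1 from rfl, show f 9 4 4 = 1 from rfl, show f 9 4 5 = 0 from rfl, show f 9 4 6 = 0 from rfl, show f 9 4 7 = 0 from rfl, show f 9 4 8 = 0 from rfl, show f 9 4 9 = 0 from rfl]

theorem D5 : D 9 5 = (nu+1)^6*(nu+2)^3*(nu+3)^2*(nu+4)^1*(nu+5)^1*(nu+6)^1*(nu+7)^0*(nu+8)^0*(nu+9)^0*(nu+10)^0 := by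
  rw [Dx, show f 9 5 0 = 6 from rfl, show f 9 5 1 = 3 from rfl, show f 9 5 2 = 2 from rfl, show f 9 5 3 = 1 from rfl, show f 9 5 4 = 1 from rfl, show f 9 5 5 = 1 from rfl, show f 9 5 6 = 0 from rfl, show f 9 5 7 = 0 from rfl, show f 9 5 8 = 0 from rfl, show f 9 5 9 = 0 from rfl]

theorem D6 : D 9 6 = (nu+1)^7*(nu+2)^3*(nu+3)^2*(nu+4)^1*(nu+5)^1*(nu+6)^1*(nu+7)^1*(nu+8)^0*(nu+9)^0*(nu+10)^0 := by
  rw [Dx, show f 9 6 0 = 7 from rfl, show f 9 6 1 = 3 from rfl, show f 9 6 2 = 2 from rfl, show f 9 6 3 = 1 from rfl, show f 9 6 4 = 1 from rfl, show f 9 6 5 = 1 from rfl, show f 9 6 6 = 1 from rfl, show f 9 6 7 = 0 from rfl, show f 9 6 8 = 0 from rfl, show f 9 6 9 = 0 from rfl]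

theorem D7 : D 9 7 = (nu+1)^8*(nu+2)^4*(nu+3)^2*(nu+4)^2*(nu+5)^1*(nu+6)^1*(nu+7)^1*(nu+8)^1*(nu+9)^0*(nu+10)^0 := by
  rw [Dx, show f 9 7 0 = 8 from rfl, show f 9 7 1 = 4 from rfl, show f 9 7 2 = 2 from rfl, show f 9 7 3 = 2 from rfl, show f 9 7 4 = 1 from rfl, show f 9 7 5 = 1 from rfl, show f 9 7 6 = 1 from rfl, show f 9 7 7 = 1 from rfl, show f 9 7 8 = 0 from rfl, show f 9 7 9 = 0 from rfl]

theorem D8 : D 9 8 = (nu+1)^9*(nu+2)^4*(nu+3)^3*(nu+4)^2*(nu+5)^1*(nu+6)^1*(nu+7)^1*(nu+8)^1*(nu+9)^1*(nu+10)^0 := by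
  rw [Dx, show f 9 8 0 = 9 from rfl, show f 9 8 1 = 4 from rfl, show f 9 8 2 = 3 from rfl, show f 9 8 3 = 2 from rfl, show f 9 8 4 = 1 from rfl, show f 9 8 5 = 1 from rfl, show f 9 8 6 = 1 from rfl, show f 9 8 7 = 1 from rfl, show f 9 8 8 = 1 from rfl, show f 9 8 9 = 0 from rfl]

theorem D9 : D 9 9 = (nu+1)^10*(nu+2)^5*(nu+3)^3*(nu+4)^2*(nu+5)^2*(nu+6)^1*(nu+7)^1*(nu+8)^1*(nu+9)^1*(nu+10)^1 := by
  rw [Dx, show f 9 9 0 = 10 from rfl, show f 9 9 1 = 5 from rfl, show f 9 9 2 = 3 from rfl, show f 9 9 3 = 2 from rfl, show f 9 9 4 = 2 from rfl, show f 9 9 5 = 1 from rfl, show f 9 9 6 = 1 from rfl, show f 9 9 7 = 1 from rfl, show f 9 9 8 = 1 from rfl, show f 9 9 9 = 1 from rfl]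

theorem D10 : D 9 10 = (nu+1)^11*(nu+2)^5*(nu+3)^3*(nu+4)^2*(nu+5)^2*(nu+6)^2*(nu+7)^2*(nu+8)^2*(nu+9)^2*(nu+10)^2 := by
  rw [Dx, show f 9 10 0 = 11 from rfl, show f 9 10 1 = 5 from rfl, show f 9 10 2 = 3 from rfl, show f 9 10 3 = 2 from rfl, show f 9 10 4 = 2 from rfl, show f 9 10 5 = 2 from rfl, show f 9 10 6 = 2 from rfl, show f 9 10 7 = 2 from rfl, show f 9 10 8 = 2 from rfl, show f 9 10 9 = 2 from rfl]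

theorem D11 : D 9 11 = (nu+1)^12*(nu+2)^6*(nu+3)^4*(nu+4)^3*(nu+5)^2*(nu+6)^2*(nu+7)^2*(nu+8)^2*(nu+9)^2*(nu+10)^3 := by
  rw [Dx, show f 9 11 0 = 12 from rfl, show f 9 11 1 = 6 from rfl, show f 9 11 2 = 4 from rfl, show f 9 11 3 = 3 from rfl, show f 9 11 4 = 2 from rfl, show f 9 11 5 = 2 from rfl, show f 9 11 6 = 2 from rfl, show f 9 11 7 = 2 from rfl, show f 9 11 8 = 2 from rfl, show f 9 11 9 = 3 from rfl]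

theorem D12 : D 9 12 = (nu+1)^13*(nu+2)^6*(nu+3)^4*(nu+4)^3*(nu+5)^2*(nu+6)^2*(nu+7)^2*(nu+8)^2*(nu+9)^3*(nu+10)^4 := by
  rw [Dx, show f 9 12 0 = 13 from rfl, show f 9 12 1 = 6 from rfl, show f 9 12 2 = 4 from rfl, show f 9 12 3 = 3 from rfl, show f 9 12 4 = 2 from rfl, show f 9 12 5 = 2 from rfl, show f 9 12 6 = 2 from rfl, show f 9 12 7 = 2 from rfl, show f 9 12 8 = 3 from rfl, show f 9 12 9 = 4 from rfl]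

def g (n : ℕ) : K := (nu+2)^(if n % 2 = 1 then 1 else 0) * (nu+9)^(if n % 2 = 0 then 1 else 0)

def h (n : ℕ) : K := (nu+3)^(if n % 3 = 2 then 1 else 0) * (nu+8)^(if n % 3 = 1 then 1 else 0)

def k (n : ℕ) : K := (nu+4)^(if n % 4 = 3 then 1 else 0) * (nu+7)^(if n % 4 = 2 then 1 else 0)

def l (n : ℕ) : K := (nu+5)^(if n % 5 = 4 then 1 else 0) * (nu+6)^(if n % 5 = 0 then 1 else 0)

theorem f0 (n : ℕ) (hn : 8 ≤ n) : f 9 (n + 1) 0 = f 9 n 0 + 1 := by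
  simp only [f]; norm_num; omega

theorem f1 (n : ℕ) (hn : 8 ≤ n) : f 9 (n + 1) 1 = f 9 n 1 + (if (n + 1) % 2 = 1 then 1 else 0) := by
  simp only [f]; norm_num; split_ifs <;> omega

theorem f2 (n : ℕ) (hn : 8 ≤ n) : f 9 (n + 1) 2 = f 9 n 2 + (if (n + 1) % 3 = 2 then 1 else 0) := by
  simp only [f]; norm_num; split_ifs <;> omega

theorem f3 (n : ℕ) (hn : 8 ≤ n) : f 9 (n + 1) 3 = f 9 n 3 + (if (n + 1) % 4 = 3 then 1 else 0) := by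
  simp only [f]; norm_num; split_ifs <;> omega

theorem f4 (n : ℕ) (hn : 8 ≤ n) : f 9 (n + 1) 4 = f 9 n 4 + (if (n + 1) % 5 = 4 then 1 else 0) := by
  simp only [f]; norm_num; split_ifs <;> omega

theorem f5 (n : ℕ) (hn : 8 ≤ n) : f 9 (n + 1) 5 = f 9 n 5 + (if (n + 1) % 5 = 0 then 1 else 0) := by
  simp only [f]; norm_num; split_ifs <;> omega

theorem f6 (n : ℕ) (hn : 8 ≤ n) : f 9 (n + 1) 6 = f 9 n 6 + (if (n + 1) % 4 = 2 then 1 else 0) := by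
  simp only [f]; norm_num; split_ifs <;> omega

theorem f7 (n : ℕ) (hn : 8 ≤ n) : f 9 (n + 1) 7 = f 9 n 7 + (if (n + 1) % 3 = 1 then 1 else 0) := by
  simp only [f]; norm_num; split_ifs <;> omega

theorem f8 (n : ℕ) (hn : 8 ≤ n) : f 9 (n + 1) 8 = f 9 n 8 + (if (n + 1) % 2 = 0 then 1 else 0) := by
  simp only [f]; norm_num; split_ifs <;> omega

theorem f9 (n : ℕ) (hn : 8 ≤ n) : f 9 (n + 1) 9 = f 9 n 9 + 1 := by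
  simp only [f]; norm_num; omega

theorem Ds (n : ℕ) (hn : 8 ≤ n) : D 9 (n + 1) = D 9 n * ((nu+1)*(nu+10)) * (g (n + 1) * h (n + 1) * k (n + 1) * l (n + 1)) := by
  rw [Dx, Dx, f0 n hn, f1 n hn, f2 n hn, f3 n hn, f4 n hn, f5 n hn, f6 n hn, f7 n hn, f8 n hn, f9 n hn]
  simp only [g, h, k, l, pow_add, pow_one]
  ring

theorem rr (n : ℕ) (hn : 1 ≤ n) : ((nu+1)*(nu+10)) * ((nu+2)*(nu+9)) * ((nu+3)*(nu+8)) * ((nu+4)*(nu+7)) * ((nu+5)*(nu+6)) * 1 * c 9 (n + 5) - 9 * (((nu+2)*(nu+9)) * ((nu+3)*(nu+8)) * ((nu+4)*(nu+7)) * ((nu+5)*(nu+6)) * 1) * c 9 (n + 4) + 28 * (((nu+3)*(nu+8)) * ((nu+4)*(nu+7)) * ((nu+5)*(nu+6)) * 1) * c 9 (n + 3) - 35 * (((nu+4)*(nu+7)) * ((nu+5)*(nu+6)) * 1) * c 9 (n + 2) + 15 * (((nu+5)*(nu+6)) * 1) * c 9 (n + 1) - 1 * 1 * c 9 n = 0 := by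
  have h := rec 9 (n + 5)
  rw [if_neg (by omega)] at h
  simp only [Nat.reduceAdd, Nat.reduceDiv, Finset.sum_range_succ, Finset.sum_range_zero, zero_add] at h
  rw [if_pos (show 0 ≤ n + 5 by omega), if_pos (show 1 ≤ n + 5 by omega), if_pos (show 2 ≤ n + 5 by omega), if_pos (show 3 ≤ n + 5 by omega), if_pos (show 4 ≤ n + 5 by omega), if_pos (show 5 ≤ n + 5 by omega)] at h
  simp only [Nat.add_sub_cancel, Nat.sub_zero, show n + 5 - 1 = n + 4 from rfl, show n + 5 - 2 = n + 3 from rfl, show n + 5 - 3 = n + 2 from rfl, show n + 5 - 4 = n + 1 from rfl, b0, b1, b2, b3, b4, b5] at h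
  linear_combination h

theorem c0 : ((nu+1)^1*(nu+2)^0*(nu+3)^0*(nu+4)^0*(nu+5)^0*(nu+6)^0*(nu+7)^0*(nu+8)^0*(nu+9)^0*(nu+10)^0) * c 9 0 = 1 := by
  have h := rec 9 0
  have h2 : 1 * ((nu+1)*(nu+2)*(nu+3)*(nu+4)*(nu+5)*(nu+6)*(nu+7)*(nu+8)*(nu+9)*(nu+10)) * c 9 0 = 1 * ((nu+2)*(nu+3)*(nu+4)*(nu+5)*(nu+6)*(nu+7)*(nu+8)*(nu+9)*(nu+10)) := by
    simpa [Finset.sum_range_succ, b0, b1, b2, b3, b4, b5, a0] using h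
  have h0 : (nu+1)*(nu+2)*(nu+3)*(nu+4)*(nu+5)*(nu+6)*(nu+7)*(nu+8)*(nu+9)*(nu+10) ≠ 0 := by
    have e := nu_add_ne
    have e1 := e 1; have e2 := e 2; have e3 := e 3; have e4 := e 4; have e5 := e 5; have e6 := e 6; have e7 := e 7; have e8 := e 8; have e9 := e 9; have e10 := e 10; push_cast at e1 e2 e3 e4 e5 e6 e7 e8 e9 e10
    simp only [Ne, mul_eq_zero, not_or]
    tauto
  apply mul_left_cancel₀ h0
  linear_combination ((nu+1)^1*(nu+2)^0*(nu+3)^0*(nu+4)^0*(nu+5)^0*(nu+6)^0*(nu+7)^0*(nu+8)^0*(nu+9)^0*(nu+10)^0) * h2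

theorem c1 : ((nu+1)^2*(nu+2)^1*(nu+3)^0*(nu+4)^0*(nu+5)^0*(nu+6)^0*(nu+7)^0*(nu+8)^0*(nu+9)^0*(nu+10)^0) * c 9 1 = 1 := by
  have h := rec 9 1
  have h2 : 1 * ((nu+1)*(nu+2)*(nu+3)*(nu+4)*(nu+5)*(nu+6)*(nu+7)*(nu+8)*(nu+9)*(nu+10)) * c 9 1 + (-9) * ((nu+2)*(nu+3)*(nu+4)*(nu+5)*(nu+6)*(nu+7)*(nu+8)*(nu+9)) * c 9 0 = (-8) * ((nu+3)*(nu+4)*(nu+5)*(nu+6)*(nu+7)*(nu+8)*(nu+9)) := by
    simpa [Finset.sum_range_succ, b0, b1, b2, b3, b4, b5, a1] using h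
  have h0 : (nu+1)*(nu+2)*(nu+3)*(nu+4)*(nu+5)*(nu+6)*(nu+7)*(nu+8)*(nu+9)*(nu+10) ≠ 0 := by
    have e := nu_add_ne
    have e1 := e 1; have e2 := e 2; have e3 := e 3; have e4 := e 4; have e5 := e 5; have e6 := e 6; have e7 := e 7; have e8 := e 8; have e9 := e 9; have e10 := e 10; push_cast at e1 e2 e3 e4 e5 e6 e7 e8 e9 e10
    simp only [Ne, mul_eq_zero, not_or]
    tauto
  apply mul_left_cancel₀ h0
  linear_combination ((nu+1)^2*(nu+2)^1*(nu+3)^0*(nu+4)^0*(nu+5)^0*(nu+6)^0*(nu+7)^0*(nu+8)^0*(nu+9)^0*(nu+10)^0) * h2 - ((-9) * ((nu+2)*(nu+3)*(nu+4)*(nu+5)*(nu+6)*(nu+7)*(nu+8)*(nu+9))) * ((nu+1)^1*(nu+2)^1*(nu+3)^0*(nu+4)^0*(nu+5)^0*(nu+6)^0*(nu+7)^0*(nu+8)^0*(nu+9)^0*(nu+10)^0) * c0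

theorem c2 : ((nu+1)^3*(nu+2)^1*(nu+3)^1*(nu+4)^0*(nu+5)^0*(nu+6)^0*(nu+7)^0*(nu+8)^0*(nu+9)^0*(nu+10)^0) * c 9 2 = 2 := by
  have h := rec 9 2
  have h2 : 1 * ((nu+1)*(nu+2)*(nu+3)*(nu+4)*(nu+5)*(nu+6)*(nu+7)*(nu+8)*(nu+9)*(nu+10)) * c 9 2 + (-9) * ((nu+2)*(nu+3)*(nu+4)*(nu+5)*(nu+6)*(nu+7)*(nu+8)*(nu+9)) * c 9 1 + 28 * ((nu+3)*(nu+4)*(nu+5)*(nu+6)*(nu+7)*(nu+8)) * c 9 0 = 21 * ((nu+4)*(nu+5)*(nu+6)*(nu+7)*(nu+8)) := by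
    simpa [Finset.sum_range_succ, b0, b1, b2, b3, b4, b5, a2] using h
  have h0 : (nu+1)*(nu+2)*(nu+3)*(nu+4)*(nu+5)*(nu+6)*(nu+7)*(nu+8)*(nu+9)*(nu+10) ≠ 0 := by
    have e := nu_add_ne
    have e1 := e 1; have e2 := e 2; have e3 := e 3; have e4 := e 4; have e5 := e 5; have e6 := e 6; have e7 := e 7; have e8 := e 8; have e9 := e 9; have e10 := e 10; push_cast at e1 e2 e3 e4 e5 e6 e7 e8 e9 e10
    simp only [Ne, mul_eq_zero, not_or]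
    tauto
  apply mul_left_cancel₀ h0
  linear_combination ((nu+1)^3*(nu+2)^1*(nu+3)^1*(nu+4)^0*(nu+5)^0*(nu+6)^0*(nu+7)^0*(nu+8)^0*(nu+9)^0*(nu+10)^0) * h2 - ((-9) * ((nu+2)*(nu+3)*(nu+4)*(nu+5)*(nu+6)*(nu+7)*(nu+8)*(nu+9))) * ((nu+1)^1*(nu+2)^0*(nu+3)^1*(nu+4)^0*(nu+5)^0*(nu+6)^0*(nu+7)^0*(nu+8)^0*(nu+9)^0*(nu+10)^0) * c1 - (28 * ((nu+3)*(nu+4)*(nu+5)*(nu+6)*(nu+7)*(nu+8))) * ((nu+1)^2*(nu+2)^1*(nu+3)^1*(nu+4)^0*(nu+5)^0*(nu+6)^0*(nu+7)^0*(nu+8)^0*(nu+9)^0*(nu+10)^0) * c0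

theorem c3 : ((nu+1)^4*(nu+2)^2*(nu+3)^1*(nu+4)^1*(nu+5)^0*(nu+6)^0*(nu+7)^0*(nu+8)^0*(nu+9)^0*(nu+10)^0) * c 9 3 = 11 + 5*nu := by
  have h := rec 9 3
  have h2 : 1 * ((nu+1)*(nu+2)*(nu+3)*(nu+4)*(nu+5)*(nu+6)*(nu+7)*(nu+8)*(nu+9)*(nu+10)) * c 9 3 + (-9) * ((nu+2)*(nu+3)*(nu+4)*(nu+5)*(nu+6)*(nu+7)*(nu+8)*(nu+9)) * c 9 2 + 28 * ((nu+3)*(nu+4)*(nu+5)*(nu+6)*(nu+7)*(nu+8)) * c 9 1 + (-35) * ((nu+4)*(nu+5)*(nu+6)*(nu+7)) * c 9 0 = (-20) * ((nu+5)*(nu+6)*(nu+7)) := by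
    simpa [Finset.sum_range_succ, b0, b1, b2, b3, b4, b5, a3] using h
  have h0 : (nu+1)*(nu+2)*(nu+3)*(nu+4)*(nu+5)*(nu+6)*(nu+7)*(nu+8)*(nu+9)*(nu+10) ≠ 0 := by
    have e := nu_add_ne
    have e1 := e 1; have e2 := e 2; have e3 := e 3; have e4 := e 4; have e5 := e 5; have e6 := e 6; have e7 := e 7; have e8 := e 8; have e9 := e 9; have e10 := e 10; push_cast at e1 e2 e3 e4 e5 e6 e7 e8 e9 e10
    simp only [Ne, mul_eq_zero, not_or]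
    tauto
  apply mul_left_cancel₀ h0
  linear_combination ((nu+1)^4*(nu+2)^2*(nu+3)^1*(nu+4)^1*(nu+5)^0*(nu+6)^0*(nu+7)^0*(nu+8)^0*(nu+9)^0*(nu+10)^0) * h2 - ((-9) * ((nu+2)*(nu+3)*(nu+4)*(nu+5)*(nu+6)*(nu+7)*(nu+8)*(nu+9))) * ((nu+1)^1*(nu+2)^1*(nu+3)^0*(nu+4)^1*(nu+5)^0*(nu+6)^0*(nu+7)^0*(nu+8)^0*(nu+9)^0*(nu+10)^0) * c2 - (28 * ((nu+3)*(nu+4)*(nu+5)*(nu+6)*(nu+7)*(nu+8))) * ((nu+1)^2*(nu+2)^1*(nu+3)^1*(nu+4)^1*(nu+5)^0*(nu+6)^0*(nu+7)^0*(nu+8)^0*(nu+9)^0*(nu+10)^0) * c1 - ((-35) * ((nu+4)*(nu+5)*(nu+6)*(nu+7))) * ((nu+1)^3*(nu+2)^2*(nu+3)^1*(nu+4)^1*(nu+5)^0*(nu+6)^0*(nu+7)^0*(nu+8)^0*(nu+9)^0*(nu+10)^0) * c0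

theorem c4 : ((nu+1)^5*(nu+2)^2*(nu+3)^1*(nu+4)^1*(nu+5)^1*(nu+6)^0*(nu+7)^0*(nu+8)^0*(nu+9)^0*(nu+10)^0) * c 9 4 = 38 + 14*nu := by
  have h := rec 9 4
  have h2 : 1 * ((nu+1)*(nu+2)*(nu+3)*(nu+4)*(nu+5)*(nu+6)*(nu+7)*(nu+8)*(nu+9)*(nu+10)) * c 9 4 + (-9) * ((nu+2)*(nu+3)*(nu+4)*(nu+5)*(nu+6)*(nu+7)*(nu+8)*(nu+9)) * c 9 3 + 28 * ((nu+3)*(nu+4)*(nu+5)*(nu+6)*(nu+7)*(nu+8)) * c 9 2 + (-35) * ((nu+4)*(nu+5)*(nu+6)*(nu+7)) * c 9 1 + 15 * ((nu+5)*(nu+6)) * c 9 0 = 5 * ((nu+6)) := by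
    simpa [Finset.sum_range_succ, b0, b1, b2, b3, b4, b5, a4] using h
  have h0 : (nu+1)*(nu+2)*(nu+3)*(nu+4)*(nu+5)*(nu+6)*(nu+7)*(nu+8)*(nu+9)*(nu+10) ≠ 0 := by
    have e := nu_add_ne
    have e1 := e 1; have e2 := e 2; have e3 := e 3; have e4 := e 4; have e5 := e 5; have e6 := e 6; have e7 := e 7; have e8 := e 8; have e9 := e 9; have e10 := e 10; push_cast at e1 e2 e3 e4 e5 e6 e7 e8 e9 e10
    simp only [Ne, mul_eq_zero, not_or]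
    tauto
  apply mul_left_cancel₀ h0
  linear_combination ((nu+1)^5*(nu+2)^2*(nu+3)^1*(nu+4)^1*(nu+5)^1*(nu+6)^0*(nu+7)^0*(nu+8)^0*(nu+9)^0*(nu+10)^0) * h2 - ((-9) * ((nu+2)*(nu+3)*(nu+4)*(nu+5)*(nu+6)*(nu+7)*(nu+8)*(nu+9))) * ((nu+1)^1*(nu+2)^0*(nu+3)^0*(nu+4)^0*(nu+5)^1*(nu+6)^0*(nu+7)^0*(nu+8)^0*(nu+9)^0*(nu+10)^0) * c3 - (28 * ((nu+3)*(nu+4)*(nu+5)*(nu+6)*(nu+7)*(nu+8))) * ((nu+1)^2*(nu+2)^1*(nu+3)^0*(nu+4)^1*(nu+5)^1*(nu+6)^0*(nu+7)^0*(nu+8)^0*(nu+9)^0*(nu+10)^0) * c2 - ((-35) * ((nu+4)*(nu+5)*(nu+6)*(nu+7))) * ((nu+1)^3*(nu+2)^1*(nu+3)^1*(nu+4)^1*(nu+5)^1*(nu+6)^0*(nu+7)^0*(nu+8)^0*(nu+9)^0*(nu+10)^0) * c1 - (15 * ((nu+5)*(nu+6))) * ((nu+1)^4*(nu+2)^2*(nu+3)^1*(nu+4)^1*(nu+5)^1*(nu+6)^0*(nu+7)^0*(nu+8)^0*(nu+9)^0*(nu+10)^0) * c0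

theorem c5 : ((nu+1)^6*(nu+2)^3*(nu+3)^2*(nu+4)^1*(nu+5)^1*(nu+6)^1*(nu+7)^0*(nu+8)^0*(nu+9)^0*(nu+10)^0) * c 9 5 = 946 + 1026*nu + 362*nu^2 + 42*nu^3 := by
  have h := rec 9 5
  have h2 : 1 * ((nu+1)*(nu+2)*(nu+3)*(nu+4)*(nu+5)*(nu+6)*(nu+7)*(nu+8)*(nu+9)*(nu+10)) * c 9 5 + (-9) * ((nu+2)*(nu+3)*(nu+4)*(nu+5)*(nu+6)*(nu+7)*(nu+8)*(nu+9)) * c 9 4 + 28 * ((nu+3)*(nu+4)*(nu+5)*(nu+6)*(nu+7)*(nu+8)) * c 9 3 + (-35) * ((nu+4)*(nu+5)*(nu+6)*(nu+7)) * c 9 2 + 15 * ((nu+5)*(nu+6)) * c 9 1 + (-1) * (1) * c 9 0 = 0 := by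
    simpa [Finset.sum_range_succ, b0, b1, b2, b3, b4, b5] using h
  have h0 : (nu+1)*(nu+2)*(nu+3)*(nu+4)*(nu+5)*(nu+6)*(nu+7)*(nu+8)*(nu+9)*(nu+10) ≠ 0 := by
    have e := nu_add_ne
    have e1 := e 1; have e2 := e 2; have e3 := e 3; have e4 := e 4; have e5 := e 5; have e6 := e 6; have e7 := e 7; have e8 := e 8; have e9 := e 9; have e10 := e 10; push_cast at e1 e2 e3 e4 e5 e6 e7 e8 e9 e10
    simp only [Ne, mul_eq_zero, not_or]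
    tauto
  apply mul_left_cancel₀ h0
  linear_combination ((nu+1)^6*(nu+2)^3*(nu+3)^2*(nu+4)^1*(nu+5)^1*(nu+6)^1*(nu+7)^0*(nu+8)^0*(nu+9)^0*(nu+10)^0) * h2 - ((-9) * ((nu+2)*(nu+3)*(nu+4)*(nu+5)*(nu+6)*(nu+7)*(nu+8)*(nu+9))) * ((nu+1)^1*(nu+2)^1*(nu+3)^1*(nu+4)^0*(nu+5)^0*(nu+6)^1*(nu+7)^0*(nu+8)^0*(nu+9)^0*(nu+10)^0) * c4 - (28 * ((nu+3)*(nu+4)*(nu+5)*(nu+6)*(nu+7)*(nu+8))) * ((nu+1)^2*(nu+2)^1*(nu+3)^1*(nu+4)^0*(nu+5)^1*(nu+6)^1*(nu+7)^0*(nu+8)^0*(nu+9)^0*(nu+10)^0) * c3 - ((-35) * ((nu+4)*(nu+5)*(nu+6)*(nu+7))) * ((nu+1)^3*(nu+2)^2*(nu+3)^1*(nu+4)^1*(nu+5)^1*(nu+6)^1*(nu+7)^0*(nu+8)^0*(nu+9)^0*(nu+10)^0) * c2 - (15 * ((nu+5)*(nu+6))) * ((nu+1)^4*(nu+2)^2*(nu+3)^2*(nu+4)^1*(nu+5)^1*(nu+6)^1*(nu+7)^0*(nu+8)^0*(nu+9)^0*(nu+10)^0) * c1 - ((-1) * (1)) * ((nu+1)^5*(nu+2)^3*(nu+3)^2*(nu+4)^1*(nu+5)^1*(nu+6)^1*(nu+7)^0*(nu+8)^0*(nu+9)^0*(nu+10)^0)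 * c0

theorem c6 : ((nu+1)^7*(nu+2)^3*(nu+3)^2*(nu+4)^1*(nu+5)^1*(nu+6)^1*(nu+7)^1*(nu+8)^0*(nu+9)^0*(nu+10)^0) * c 9 6 = 4580 + 4324*nu + 1316*nu^2 + 132*nu^3 := by
  have h := rec 9 6
  have h2 : 1 * ((nu+1)*(nu+2)*(nu+3)*(nu+4)*(nu+5)*(nu+6)*(nu+7)*(nu+8)*(nu+9)*(nu+10)) * c 9 6 + (-9) * ((nu+2)*(nu+3)*(nu+4)*(nu+5)*(nu+6)*(nu+7)*(nu+8)*(nu+9)) * c 9 5 + 28 * ((nu+3)*(nu+4)*(nu+5)*(nu+6)*(nu+7)*(nu+8)) * c 9 4 + (-35) * ((nu+4)*(nu+5)*(nu+6)*(nu+7)) * c 9 3 + 15 * ((nu+5)*(nu+6)) * c 9 2 + (-1) * (1) * c 9 1 = 0 := by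
    simpa [Finset.sum_range_succ, b0, b1, b2, b3, b4, b5] using h
  have h0 : (nu+1)*(nu+2)*(nu+3)*(nu+4)*(nu+5)*(nu+6)*(nu+7)*(nu+8)*(nu+9)*(nu+10) ≠ 0 := by
    have e := nu_add_ne
    have e1 := e 1; have e2 := e 2; have e3 := e 3; have e4 := e 4; have e5 := e 5; have e6 := e 6; have e7 := e 7; have e8 := e 8; have e9 := e 9; have e10 := e 10; push_cast at e1 e2 e3 e4 e5 e6 e7 e8 e9 e10
    simp only [Ne, mul_eq_zero, not_or]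
    tauto
  apply mul_left_cancel₀ h0
  linear_combination ((nu+1)^7*(nu+2)^3*(nu+3)^2*(nu+4)^1*(nu+5)^1*(nu+6)^1*(nu+7)^1*(nu+8)^0*(nu+9)^0*(nu+10)^0) * h2 - ((-9) * ((nu+2)*(nu+3)*(nu+4)*(nu+5)*(nu+6)*(nu+7)*(nu+8)*(nu+9))) * ((nu+1)^1*(nu+2)^0*(nu+3)^0*(nu+4)^0*(nu+5)^0*(nu+6)^0*(nu+7)^1*(nu+8)^0*(nu+9)^0*(nu+10)^0) * c5 - (28 * ((nu+3)*(nu+4)*(nu+5)*(nu+6)*(nu+7)*(nu+8))) * ((nu+1)^2*(nu+2)^1*(nu+3)^1*(nu+4)^0*(nu+5)^0*(nu+6)^1*(nu+7)^1*(nu+8)^0*(nu+9)^0*(nu+10)^0) * c4 - ((-35) * ((nu+4)*(nu+5)*(nu+6)*(nu+7))) * ((nu+1)^3*(nu+2)^1*(nu+3)^1*(nu+4)^0*(nu+5)^1*(nu+6)^1*(nu+7)^1*(nu+8)^0*(nu+9)^0*(nu+10)^0) * c3 - (15 * ((nu+5)*(nu+6))) * ((nu+1)^4*(nu+2)^2*(nu+3)^1*(nu+4)^1*(nu+5)^1*(nu+6)^1*(nu+7)^1*(nu+8)^0*(nu+9)^0*(nu+10)^0) * c2 - ((-1) * (1)) * ((nu+1)^5*(nu+2)^2*(nu+3)^2*(nu+4)^1*(nu+5)^1*(nu+6)^1*(nu+7)^1*(nu+8)^0*(nu+9)^0*(nu+10)^0)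 * c1

theorem c7 : ((nu+1)^8*(nu+2)^4*(nu+3)^2*(nu+4)^2*(nu+5)^1*(nu+6)^1*(nu+7)^1*(nu+8)^1*(nu+9)^0*(nu+10)^0) * c 9 7 = 202738 + 311387*nu + 185430*nu^2 + 53752*nu^3 + 7640*nu^4 + 429*nu^5 := by
  have h := rec 9 7
  have h2 : 1 * ((nu+1)*(nu+2)*(nu+3)*(nu+4)*(nu+5)*(nu+6)*(nu+7)*(nu+8)*(nu+9)*(nu+10)) * c 9 7 + (-9) * ((nu+2)*(nu+3)*(nu+4)*(nu+5)*(nu+6)*(nu+7)*(nu+8)*(nu+9)) * c 9 6 + 28 * ((nu+3)*(nu+4)*(nu+5)*(nu+6)*(nu+7)*(nu+8)) * c 9 5 + (-35) * ((nu+4)*(nu+5)*(nu+6)*(nu+7)) * c 9 4 + 15 * ((nu+5)*(nu+6)) * c 9 3 + (-1) * (1) * c 9 2 = 0 := by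
    simpa [Finset.sum_range_succ, b0, b1, b2, b3, b4, b5] using h
  have h0 : (nu+1)*(nu+2)*(nu+3)*(nu+4)*(nu+5)*(nu+6)*(nu+7)*(nu+8)*(nu+9)*(nu+10) ≠ 0 := by
    have e := nu_add_ne
    have e1 := e 1; have e2 := e 2; have e3 := e 3; have e4 := e 4; have e5 := e 5; have e6 := e 6; have e7 := e 7; have e8 := e 8; have e9 := e 9; have e10 := e 10; push_cast at e1 e2 e3 e4 e5 e6 e7 e8 e9 e10
    simp only [Ne, mul_eq_zero, not_or]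
    tauto
  apply mul_left_cancel₀ h0
  linear_combination ((nu+1)^8*(nu+2)^4*(nu+3)^2*(nu+4)^2*(nu+5)^1*(nu+6)^1*(nu+7)^1*(nu+8)^1*(nu+9)^0*(nu+10)^0) * h2 - ((-9) * ((nu+2)*(nu+3)*(nu+4)*(nu+5)*(nu+6)*(nu+7)*(nu+8)*(nu+9))) * ((nu+1)^1*(nu+2)^1*(nu+3)^0*(nu+4)^1*(nu+5)^0*(nu+6)^0*(nu+7)^0*(nu+8)^1*(nu+9)^0*(nu+10)^0) * c6 - (28 * ((nu+3)*(nu+4)*(nu+5)*(nu+6)*(nu+7)*(nu+8))) * ((nu+1)^2*(nu+2)^1*(nu+3)^0*(nu+4)^1*(nu+5)^0*(nu+6)^0*(nu+7)^1*(nu+8)^1*(nu+9)^0*(nu+10)^0) * c5 - ((-35) * ((nu+4)*(nu+5)*(nu+6)*(nu+7))) * ((nu+1)^3*(nu+2)^2*(nu+3)^1*(nu+4)^1*(nu+5)^0*(nu+6)^1*(nu+7)^1*(nu+8)^1*(nu+9)^0*(nu+10)^0) * c4 - (15 * ((nu+5)*(nu+6))) * ((nu+1)^4*(nu+2)^2*(nu+3)^1*(nu+4)^1*(nu+5)^1*(nu+6)^1*(nu+7)^1*(nu+8)^1*(nu+9)^0*(nu+10)^0) * c3 - ((-1) * (1)) * ((nu+1)^5*(nu+2)^3*(nu+3)^1*(nu+4)^2*(nu+5)^1*(nu+6)^1*(nu+7)^1*(nu+8)^1*(nu+9)^0*(nu+10)^0)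 * c2

theorem c8 : ((nu+1)^9*(nu+2)^4*(nu+3)^3*(nu+4)^2*(nu+5)^1*(nu+6)^1*(nu+7)^1*(nu+8)^1*(nu+9)^1*(nu+10)^0) * c 9 8 = 3786092 + 6425694*nu + 4434158*nu^2 + 1596148*nu^3 + 317136*nu^4 + 33134*nu^5 + 1430*nu^6 := by
  have h := rec 9 8
  have h2 : 1 * ((nu+1)*(nu+2)*(nu+3)*(nu+4)*(nu+5)*(nu+6)*(nu+7)*(nu+8)*(nu+9)*(nu+10)) * c 9 8 + (-9) * ((nu+2)*(nu+3)*(nu+4)*(nu+5)*(nu+6)*(nu+7)*(nu+8)*(nu+9)) * c 9 7 + 28 * ((nu+3)*(nu+4)*(nu+5)*(nu+6)*(nu+7)*(nu+8)) * c 9 6 + (-35) * ((nu+4)*(nu+5)*(nu+6)*(nu+7)) * c 9 5 + 15 * ((nu+5)*(nu+6)) * c 9 4 + (-1) * (1) * c 9 3 = 0 := by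
    simpa [Finset.sum_range_succ, b0, b1, b2, b3, b4, b5] using h
  have h0 : (nu+1)*(nu+2)*(nu+3)*(nu+4)*(nu+5)*(nu+6)*(nu+7)*(nu+8)*(nu+9)*(nu+10) ≠ 0 := by
    have e := nu_add_ne
    have e1 := e 1; have e2 := e 2; have e3 := e 3; have e4 := e 4; have e5 := e 5; have e6 := e 6; have e7 := e 7; have e8 := e 8; have e9 := e 9; have e10 := e 10; push_cast at e1 e2 e3 e4 e5 e6 e7 e8 e9 e10
    simp only [Ne, mul_eq_zero, not_or]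
    tauto
  apply mul_left_cancel₀ h0
  linear_combination ((nu+1)^9*(nu+2)^4*(nu+3)^3*(nu+4)^2*(nu+5)^1*(nu+6)^1*(nu+7)^1*(nu+8)^1*(nu+9)^1*(nu+10)^0) * h2 - ((-9) * ((nu+2)*(nu+3)*(nu+4)*(nu+5)*(nu+6)*(nu+7)*(nu+8)*(nu+9))) * ((nu+1)^1*(nu+2)^0*(nu+3)^1*(nu+4)^0*(nu+5)^0*(nu+6)^0*(nu+7)^0*(nu+8)^0*(nu+9)^1*(nu+10)^0) * c7 - (28 * ((nu+3)*(nu+4)*(nu+5)*(nu+6)*(nu+7)*(nu+8))) * ((nu+1)^2*(nu+2)^1*(nu+3)^1*(nu+4)^1*(nu+5)^0*(nu+6)^0*(nu+7)^0*(nu+8)^1*(nu+9)^1*(nu+10)^0) * c6 - ((-35) * ((nu+4)*(nu+5)*(nu+6)*(nu+7))) * ((nu+1)^3*(nu+2)^1*(nu+3)^1*(nu+4)^1*(nu+5)^0*(nu+6)^0*(nu+7)^1*(nu+8)^1*(nu+9)^1*(nu+10)^0) * c5 - (15 * ((nu+5)*(nu+6))) * ((nu+1)^4*(nu+2)^2*(nu+3)^2*(nu+4)^1*(nu+5)^0*(nu+6)^1*(nu+7)^1*(nu+8)^1*(nu+9)^1*(nu+10)^0) * c4 - ((-1) * (1)) * ((nu+1)^5*(nu+2)^2*(nu+3)^2*(nu+4)^1*(nu+5)^1*(nu+6)^1*(nu+7)^1*(nu+8)^1*(nu+9)^1*(nu+10)^0)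 * c3

theorem c9 : ((nu+1)^10*(nu+2)^5*(nu+3)^3*(nu+4)^2*(nu+5)^2*(nu+6)^1*(nu+7)^1*(nu+8)^1*(nu+9)^1*(nu+10)^1) * c 9 9 = 261868876 + 579783114*nu + 547167306*nu^2 + 287834558*nu^3 + 92481350*nu^4 + 18631334*nu^5 + 2305702*nu^6 + 160850*nu^7 + 4862*nu^8 := by
  have h := rec 9 9
  have h2 : 1 * ((nu+1)*(nu+2)*(nu+3)*(nu+4)*(nu+5)*(nu+6)*(nu+7)*(nu+8)*(nu+9)*(nu+10)) * c 9 9 + (-9) * ((nu+2)*(nu+3)*(nu+4)*(nu+5)*(nu+6)*(nu+7)*(nu+8)*(nu+9)) * c 9 8 + 28 * ((nu+3)*(nu+4)*(nu+5)*(nu+6)*(nu+7)*(nu+8)) * c 9 7 + (-35) * ((nu+4)*(nu+5)*(nu+6)*(nu+7)) * c 9 6 + 15 * ((nu+5)*(nu+6)) * c 9 5 + (-1) * (1) * c 9 4 = 0 := by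
    simpa [Finset.sum_range_succ, b0, b1, b2, b3, b4, b5] using h
  have h0 : (nu+1)*(nu+2)*(nu+3)*(nu+4)*(nu+5)*(nu+6)*(nu+7)*(nu+8)*(nu+9)*(nu+10) ≠ 0 := by
    have e := nu_add_ne
    have e1 := e 1; have e2 := e 2; have e3 := e 3; have e4 := e 4; have e5 := e 5; have e6 := e 6; have e7 := e 7; have e8 := e 8; have e9 := e 9; have e10 := e 10; push_cast at e1 e2 e3 e4 e5 e6 e7 e8 e9 e10
    simp only [Ne, mul_eq_zero, not_or]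
    tauto
  apply mul_left_cancel₀ h0
  linear_combination ((nu+1)^10*(nu+2)^5*(nu+3)^3*(nu+4)^2*(nu+5)^2*(nu+6)^1*(nu+7)^1*(nu+8)^1*(nu+9)^1*(nu+10)^1) * h2 - ((-9) * ((nu+2)*(nu+3)*(nu+4)*(nu+5)*(nu+6)*(nu+7)*(nu+8)*(nu+9))) * ((nu+1)^1*(nu+2)^1*(nu+3)^0*(nu+4)^0*(nu+5)^1*(nu+6)^0*(nu+7)^0*(nu+8)^0*(nu+9)^0*(nu+10)^1) * c8 - (28 * ((nu+3)*(nu+4)*(nu+5)*(nu+6)*(nu+7)*(nu+8))) * ((nu+1)^2*(nu+2)^1*(nu+3)^1*(nu+4)^0*(nu+5)^1*(nu+6)^0*(nu+7)^0*(nu+8)^0*(nu+9)^1*(nu+10)^1) * c7 - ((-35) * ((nu+4)*(nu+5)*(nu+6)*(nu+7))) * ((nu+1)^3*(nu+2)^2*(nu+3)^1*(nu+4)^1*(nu+5)^1*(nu+6)^0*(nu+7)^0*(nu+8)^1*(nu+9)^1*(nu+10)^1) * c6 - (15 * ((nu+5)*(nu+6))) * ((nu+1)^4*(nu+2)^2*(nu+3)^1*(nu+4)^1*(nu+5)^1*(nu+6)^0*(nu+7)^1*(nu+8)^1*(nu+9)^1*(nu+10)^1) * c5 - ((-1) * (1)) * ((nu+1)^5*(nu+2)^3*(nu+3)^2*(nu+4)^1*(nu+5)^1*(nu+6)^1*(nu+7)^1*(nu+8)^1*(nu+9)^1*(nu+10)^1)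 * c4

theorem c10 : ((nu+1)^11*(nu+2)^5*(nu+3)^3*(nu+4)^2*(nu+5)^2*(nu+6)^2*(nu+7)^2*(nu+8)^2*(nu+9)^2*(nu+10)^2) * c 9 10 = 5477198535096 + 14111968172012*nu + 16279245444366*nu^2 + 11139426789289*nu^3 + 5045523093067*nu^4 + 1596726359396*nu^5 + 362685410592*nu^6 + 59682753734*nu^7 + 7073267050*nu^8 + 589671240*nu^9 + 32868810*nu^10 + 1101305*nu^11 + 16795*nu^12 := by
  have h := rec 9 10
  have h2 : 1 * ((nu+1)*(nu+2)*(nu+3)*(nu+4)*(nu+5)*(nu+6)*(nu+7)*(nu+8)*(nu+9)*(nu+10)) * c 9 10 + (-9) * ((nu+2)*(nu+3)*(nu+4)*(nu+5)*(nu+6)*(nu+7)*(nu+8)*(nu+9)) * c 9 9 + 28 * ((nu+3)*(nu+4)*(nu+5)*(nu+6)*(nu+7)*(nu+8)) * c 9 8 + (-35) * ((nu+4)*(nu+5)*(nu+6)*(nu+7)) * c 9 7 + 15 * ((nu+5)*(nu+6)) * c 9 6 + (-1) * (1) * c 9 5 = 0 := by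
    simpa [Finset.sum_range_succ, b0, b1, b2, b3, b4, b5] using h
  have h0 : (nu+1)*(nu+2)*(nu+3)*(nu+4)*(nu+5)*(nu+6)*(nu+7)*(nu+8)*(nu+9)*(nu+10) ≠ 0 := by
    have e := nu_add_ne
    have e1 := e 1; have e2 := e 2; have e3 := e 3; have e4 := e 4; have e5 := e 5; have e6 := e 6; have e7 := e 7; have e8 := e 8; have e9 := e 9; have e10 := e 10; push_cast at e1 e2 e3 e4 e5 e6 e7 e8 e9 e10
    simp only [Ne, mul_eq_zero, not_or]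
    tauto
  apply mul_left_cancel₀ h0
  linear_combination ((nu+1)^11*(nu+2)^5*(nu+3)^3*(nu+4)^2*(nu+5)^2*(nu+6)^2*(nu+7)^2*(nu+8)^2*(nu+9)^2*(nu+10)^2) * h2 - ((-9) * ((nu+2)*(nu+3)*(nu+4)*(nu+5)*(nu+6)*(nu+7)*(nu+8)*(nu+9))) * ((nu+1)^1*(nu+2)^0*(nu+3)^0*(nu+4)^0*(nu+5)^0*(nu+6)^1*(nu+7)^1*(nu+8)^1*(nu+9)^1*(nu+10)^1) * c9 - (28 * ((nu+3)*(nu+4)*(nu+5)*(nu+6)*(nu+7)*(nu+8))) * ((nu+1)^2*(nu+2)^1*(nu+3)^0*(nu+4)^0*(nu+5)^1*(nu+6)^1*(nu+7)^1*(nu+8)^1*(nu+9)^1*(nu+10)^2) * c8 - ((-35) * ((nu+4)*(nu+5)*(nu+6)*(nu+7))) * ((nu+1)^3*(nu+2)^1*(nu+3)^1*(nu+4)^0*(nu+5)^1*(nu+6)^1*(nu+7)^1*(nu+8)^1*(nu+9)^2*(nu+10)^2) * c7 - (15 * ((nu+5)*(nu+6))) * ((nu+1)^4*(nu+2)^2*(nu+3)^1*(nu+4)^1*(nu+5)^1*(nu+6)^1*(nu+7)^1*(nu+8)^2*(nu+9)^2*(nu+10)^2) * c6 - ((-1) * (1)) * ((nu+1)^5*(nu+2)^2*(nu+3)^1*(nu+4)^1*(nu+5)^1*(nu+6)^1*(nu+7)^2*(nu+8)^2*(nu+9)^2*(nu+10)^2)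 * c5

theorem c11 : ((nu+1)^12*(nu+2)^6*(nu+3)^4*(nu+4)^3*(nu+5)^2*(nu+6)^2*(nu+7)^2*(nu+8)^2*(nu+9)^2*(nu+10)^3) * c 9 11 = 909206547799776 + 3161007142380640*nu + 5034638165464848*nu^2 + 4876285958423408*nu^3 + 3214283798362342*nu^4 + 1528667572736350*nu^5 + 542365714600566*nu^6 + 146324470054166*nu^7 + 30297423916444*nu^8 + 4820028091676*nu^9 + 585075428540*nu^10 + 53281783340*nu^11 + 3528727518*nu^12 + 160682214*nu^13 + 4505726*nu^14 + 58766*nu^15 := by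
  have h := rec 9 11
  have h2 : 1 * ((nu+1)*(nu+2)*(nu+3)*(nu+4)*(nu+5)*(nu+6)*(nu+7)*(nu+8)*(nu+9)*(nu+10)) * c 9 11 + (-9) * ((nu+2)*(nu+3)*(nu+4)*(nu+5)*(nu+6)*(nu+7)*(nu+8)*(nu+9)) * c 9 10 + 28 * ((nu+3)*(nu+4)*(nu+5)*(nu+6)*(nu+7)*(nu+8)) * c 9 9 + (-35) * ((nu+4)*(nu+5)*(nu+6)*(nu+7)) * c 9 8 + 15 * ((nu+5)*(nu+6)) * c 9 7 + (-1) * (1) * c 9 6 = 0 := by
    simpa [Finset.sum_range_succ, b0, b1, b2, b3, b4, b5] using h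
  have h0 : (nu+1)*(nu+2)*(nu+3)*(nu+4)*(nu+5)*(nu+6)*(nu+7)*(nu+8)*(nu+9)*(nu+10) ≠ 0 := by
    have e := nu_add_ne
    have e1 := e 1; have e2 := e 2; have e3 := e 3; have e4 := e 4; have e5 := e 5; have e6 := e 6; have e7 := e 7; have e8 := e 8; have e9 := e 9; have e10 := e 10; push_cast at e1 e2 e3 e4 e5 e6 e7 e8 e9 e10
    simp only [Ne, mul_eq_zero, not_or]
    tauto
  apply mul_left_cancel₀ h0
  linear_combination ((nu+1)^12*(nu+2)^6*(nu+3)^4*(nu+4)^3*(nu+5)^2*(nu+6)^2*(nu+7)^2*(nu+8)^2*(nu+9)^2*(nu+10)^3) * h2 - ((-9) * ((nu+2)*(nu+3)*(nu+4)*(nu+5)*(nu+6)*(nu+7)*(nu+8)*(nu+9))) * ((nu+1)^1*(nu+2)^1*(nu+3)^1*(nu+4)^1*(nu+5)^0*(nu+6)^0*(nu+7)^0*(nu+8)^0*(nu+9)^0*(nu+10)^1) * c10 - (28 * ((nu+3)*(nu+4)*(nu+5)*(nu+6)*(nu+7)*(nu+8))) * ((nu+1)^2*(nu+2)^1*(nu+3)^1*(nu+4)^1*(nu+5)^0*(nu+6)^1*(nu+7)^1*(nu+8)^1*(nu+9)^1*(nu+10)^2)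 * c9 - ((-35) * ((nu+4)*(nu+5)*(nu+6)*(nu+7))) * ((nu+1)^3*(nu+2)^2*(nu+3)^1*(nu+4)^1*(nu+5)^1*(nu+6)^1*(nu+7)^1*(nu+8)^1*(nu+9)^1*(nu+10)^3) * c8 - (15 * ((nu+5)*(nu+6))) * ((nu+1)^4*(nu+2)^2*(nu+3)^2*(nu+4)^1*(nu+5)^1*(nu+6)^1*(nu+7)^1*(nu+8)^1*(nu+9)^2*(nu+10)^3) * c7 - ((-1) * (1)) * ((nu+1)^5*(nu+2)^3*(nu+3)^2*(nu+4)^2*(nu+5)^1*(nu+6)^1*(nu+7)^1*(nu+8)^2*(nu+9)^2*(nu+10)^3) * c6

theorem c12 : ((nu+1)^13*(nu+2)^6*(nu+3)^4*(nu+4)^3*(nu+5)^2*(nu+6)^2*(nu+7)^2*(nu+8)^2*(nu+9)^3*(nu+10)^4) * c 9 12 = 56597584571119296 + 192692999384069328*nu + 301999184325861264*nu^2 + 289471660053375464*nu^3 + 190112127110725020*nu^4 + 90803863584463077*nu^5 + 32662563229115293*nu^6 + 9035632363170495*nu^7 + 1945014097868619*nu^8 + 327276755313618*nu^9 + 42958190679234*nu^10 + 4358231808438*nu^11 + 335505933602*nu^12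 + 18975109257*nu^13 + 744817569*nu^14 + 18163603*nu^15 + 207783*nu^16 := by
  have h := rec 9 12
  have h2 : 1 * ((nu+1)*(nu+2)*(nu+3)*(nu+4)*(nu+5)*(nu+6)*(nu+7)*(nu+8)*(nu+9)*(nu+10)) * c 9 12 + (-9) * ((nu+2)*(nu+3)*(nu+4)*(nu+5)*(nu+6)*(nu+7)*(nu+8)*(nu+9)) * c 9 11 + 28 * ((nu+3)*(nu+4)*(nu+5)*(nu+6)*(nu+7)*(nu+8)) * c 9 10 + (-35) * ((nu+4)*(nu+5)*(nu+6)*(nu+7)) * c 9 9 + 15 * ((nu+5)*(nu+6)) * c 9 8 + (-1) * (1) * c 9 7 = 0 := by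
    simpa [Finset.sum_range_succ, b0, b1, b2, b3, b4, b5] using h
  have h0 : (nu+1)*(nu+2)*(nu+3)*(nu+4)*(nu+5)*(nu+6)*(nu+7)*(nu+8)*(nu+9)*(nu+10) ≠ 0 := by
    have e := nu_add_ne
    have e1 := e 1; have e2 := e 2; have e3 := e 3; have e4 := e 4; have e5 := e 5; have e6 := e 6; have e7 := e 7; have e8 := e 8; have e9 := e 9; have e10 := e 10; push_cast at e1 e2 e3 e4 e5 e6 e7 e8 e9 e10
    simp only [Ne, mul_eq_zero, not_or]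
    tauto
  apply mul_left_cancel₀ h0
  linear_combination ((nu+1)^13*(nu+2)^6*(nu+3)^4*(nu+4)^3*(nu+5)^2*(nu+6)^2*(nu+7)^2*(nu+8)^2*(nu+9)^3*(nu+10)^4) * h2 - ((-9) * ((nu+2)*(nu+3)*(nu+4)*(nu+5)*(nu+6)*(nu+7)*(nu+8)*(nu+9))) * ((nu+1)^1*(nu+2)^0*(nu+3)^0*(nu+4)^0*(nu+5)^0*(nu+6)^0*(nu+7)^0*(nu+8)^0*(nu+9)^1*(nu+10)^1) * c11 - (28 * ((nu+3)*(nu+4)*(nu+5)*(nu+6)*(nu+7)*(nu+8))) * ((nu+1)^2*(nu+2)^1*(nu+3)^1*(nu+4)^1*(nu+5)^0*(nu+6)^0*(nu+7)^0*(nu+8)^0*(nu+9)^1*(nu+10)^2) * c10 - ((-35) * ((nu+4)*(nu+5)*(nu+6)*(nu+7))) * ((nu+1)^3*(nu+2)^1*(nu+3)^1*(nu+4)^1*(nu+5)^0*(nu+6)^1*(nu+7)^1*(nu+8)^1*(nu+9)^2*(nu+10)^3) * c9 - (15 * ((nu+5)*(nu+6))) * ((nu+1)^4*(nu+2)^2*(nu+3)^1*(nu+4)^1*(nu+5)^1*(nu+6)^1*(nu+7)^1*(nu+8)^1*(nu+9)^2*(nu+10)^4) * c8 - ((-1) * (1)) * ((nu+1)^5*(nu+2)^2*(nu+3)^2*(nu+4)^1*(nu+5)^1*(nu+6)^1*(nu+7)^1*(nu+8)^1*(nu+9)^3*(nu+10)^4)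 * c7

theorem m0 : D 9 0 * c 9 0 ∈ S := by
  have e : D 9 0 * c 9 0 = ev [1] := by
    rw [D0, c0]; simp only [ev]; push_cast; ring
  rw [e]; exact ev_mem _

theorem m1 : D 9 1 * c 9 1 ∈ S := by
  have e : D 9 1 * c 9 1 = ev [1] := by
    rw [D1, c1]; simp only [ev]; push_cast; ring
  rw [e]; exact ev_mem _

theorem m2 : D 9 2 * c 9 2 ∈ S := by
  have e : D 9 2 * c 9 2 = ev [2] := by
    rw [D2, c2]; simp only [ev]; push_cast; ring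
  rw [e]; exact ev_mem _

theorem m3 : D 9 3 * c 9 3 ∈ S := by
  have e : D 9 3 * c 9 3 = ev [11, 5] := by
    rw [D3, c3]; simp only [ev]; push_cast; ring
  rw [e]; exact ev_mem _

theorem m4 : D 9 4 * c 9 4 ∈ S := by
  have e : D 9 4 * c 9 4 = ev [38, 14] := by
    rw [D4, c4]; simp only [ev]; push_cast; ring
  rw [e]; exact ev_mem _

theorem m5 : D 9 5 * c 9 5 ∈ S := by
  have e : D 9 5 * c 9 5 = ev [946, 1026, 362, 42] := by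
    rw [D5, c5]; simp only [ev]; push_cast; ring
  rw [e]; exact ev_mem _

theorem m6 : D 9 6 * c 9 6 ∈ S := by
  have e : D 9 6 * c 9 6 = ev [4580, 4324, 1316, 132] := by
    rw [D6, c6]; simp only [ev]; push_cast; ring
  rw [e]; exact ev_mem _

theorem m7 : D 9 7 * c 9 7 ∈ S := by
  have e : D 9 7 * c 9 7 = ev [202738, 311387, 185430, 53752, 7640, 429] := by
    rw [D7, c7]; simp only [ev]; push_cast; ring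
  rw [e]; exact ev_mem _

theorem m8 : D 9 8 * c 9 8 ∈ S := by
  have e : D 9 8 * c 9 8 = ev [3786092, 6425694, 4434158, 1596148, 317136, 33134, 1430] := by
    rw [D8, c8]; simp only [ev]; push_cast; ring
  rw [e]; exact ev_mem _

theorem m9 : D 9 9 * c 9 9 ∈ S := by
  have e : D 9 9 * c 9 9 = ev [261868876, 579783114, 547167306, 287834558, 92481350, 18631334, 2305702, 160850, 4862] := by
    rw [D9, c9]; simp only [ev]; push_cast; ring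
  rw [e]; exact ev_mem _

theorem m10 : D 9 10 * c 9 10 ∈ S := by
  have e : D 9 10 * c 9 10 = ev [5477198535096, 14111968172012, 16279245444366, 11139426789289, 5045523093067, 1596726359396, 362685410592, 59682753734, 7073267050, 589671240, 32868810, 1101305, 16795] := by
    rw [D10, c10]; simp only [ev]; push_cast; ring
  rw [e]; exact ev_mem _

theorem m11 : D 9 11 * c 9 11 ∈ S := by
  have e : D 9 11 * c 9 11 = ev [909206547799776, 3161007142380640, 5034638165464848, 4876285958423408, 3214283798362342, 1528667572736350, 542365714600566, 146324470054166, 30297423916444, 4820028091676, 585075428540, 53281783340, 3528727518, 160682214, 4505726, 58766] := by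
    rw [D11, c11]; simp only [ev]; push_cast; ring
  rw [e]; exact ev_mem _

theorem m12 : D 9 12 * c 9 12 ∈ S := by
  have e : D 9 12 * c 9 12 = ev [56597584571119296, 192692999384069328, 301999184325861264, 289471660053375464, 190112127110725020, 90803863584463077, 32662563229115293, 9035632363170495, 1945014097868619, 327276755313618, 42958190679234, 4358231808438, 335505933602, 18975109257, 744817569, 18163603, 207783] := by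
    rw [D12, c12]; simp only [ev]; push_cast; ring
  rw [e]; exact ev_mem _

theorem g_mem (n : ℕ) : g n ∈ S := mul_mem (pow_mem (xm 2) _) (pow_mem (xm 9) _)

theorem g_w (n : ℕ) : g (n + 1) * g n = ((nu+2)*(nu+9)) := by
  have hc : n % 2 = 0 ∨ n % 2 = 1 := by omega
  rcases hc with h0|h0
  · have h1 : (n + 1) % 2 = 1 := by omega
    simp [g, h0, h1]; try ring
  · have h1 : (n + 1) % 2 = 0 := by omega
    simp [g, h0, h1]; try ring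

theorem g_p (n : ℕ) : g (n + 2) = g n := by
  simp only [g, show (n + 2) % 2 = n % 2 by omega]

theorem h_mem (n : ℕ) : h n ∈ S := mul_mem (pow_mem (xm 3) _) (pow_mem (xm 8) _)

theorem h_w (n : ℕ) : h (n + 2) * h (n + 1) * h n = ((nu+3)*(nu+8)) := by
  have hc : n % 3 = 0 ∨ n % 3 = 1 ∨ n % 3 = 2 := by omega
  rcases hc with h0|h0|h0
  · have h1 : (n + 1) % 3 = 1 := by omega
    have h2 : (n + 2) % 3 = 2 := by omega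
    simp [h, h0, h1, h2]; try ring
  · have h1 : (n + 1) % 3 = 2 := by omega
    have h2 : (n + 2) % 3 = 0 := by omega
    simp [h, h0, h1, h2]; try ring
  · have h1 : (n + 1) % 3 = 0 := by omega
    have h2 : (n + 2) % 3 = 1 := by omega
    simp [h, h0, h1, h2]; try ring

theorem h_p (n : ℕ) : h (n + 3) = h n := by
  simp only [h, show (n + 3) % 3 = n % 3 by omega]

theorem k_mem (n : ℕ) : k n ∈ S := mul_mem (pow_mem (xm 4) _) (pow_mem (xm 7) _)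

theorem k_w (n : ℕ) : k (n + 3) * k (n + 2) * k (n + 1) * k n = ((nu+4)*(nu+7)) := by
  have hc : n % 4 = 0 ∨ n % 4 = 1 ∨ n % 4 = 2 ∨ n % 4 = 3 := by omega
  rcases hc with h0|h0|h0|h0
  · have h1 : (n + 1) % 4 = 1 := by omega
    have h2 : (n + 2) % 4 = 2 := by omega
    have h3 : (n + 3) % 4 = 3 := by omega
    simp [k, h0, h1, h2, h3]; try ring
  · have h1 : (n + 1) % 4 = 2 := by omega
    have h2 : (n + 2) % 4 = 3 := by omega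
    have h3 : (n + 3) % 4 = 0 := by omega
    simp [k, h0, h1, h2, h3]; try ring
  · have h1 : (n + 1) % 4 = 3 := by omega
    have h2 : (n + 2) % 4 = 0 := by omega
    have h3 : (n + 3) % 4 = 1 := by omega
    simp [k, h0, h1, h2, h3]; try ring
  · have h1 : (n + 1) % 4 = 0 := by omega
    have h2 : (n + 2) % 4 = 1 := by omega
    have h3 : (n + 3) % 4 = 2 := by omega
    simp [k, h0, h1, h2, h3]; try ring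

theorem k_p (n : ℕ) : k (n + 4) = k n := by
  simp only [k, show (n + 4) % 4 = n % 4 by omega]

theorem l_mem (n : ℕ) : l n ∈ S := mul_mem (pow_mem (xm 5) _) (pow_mem (xm 6) _)

theorem l_w (n : ℕ) : l (n + 4) * l (n + 3) * l (n + 2) * l (n + 1) * l n = ((nu+5)*(nu+6)) := by
  have hc : n % 5 = 0 ∨ n % 5 = 1 ∨ n % 5 = 2 ∨ n % 5 = 3 ∨ n % 5 = 4 := by omega
  rcases hc with h0|h0|h0|h0|h0
  · have h1 : (n + 1) % 5 = 1 := by omega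
    have h2 : (n + 2) % 5 = 2 := by omega
    have h3 : (n + 3) % 5 = 3 := by omega
    have h4 : (n + 4) % 5 = 4 := by omega
    simp [l, h0, h1, h2, h3, h4]; try ring
  · have h1 : (n + 1) % 5 = 2 := by omega
    have h2 : (n + 2) % 5 = 3 := by omega
    have h3 : (n + 3) % 5 = 4 := by omega
    have h4 : (n + 4) % 5 = 0 := by omega
    simp [l, h0, h1, h2, h3, h4]; try ring
  · have h1 : (n + 1) % 5 = 3 := by omega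
    have h2 : (n + 2) % 5 = 4 := by omega
    have h3 : (n + 3) % 5 = 0 := by omega
    have h4 : (n + 4) % 5 = 1 := by omega
    simp [l, h0, h1, h2, h3, h4]; try ring
  · have h1 : (n + 1) % 5 = 4 := by omega
    have h2 : (n + 2) % 5 = 0 := by omega
    have h3 : (n + 3) % 5 = 1 := by omega
    have h4 : (n + 4) % 5 = 2 := by omega
    simp [l, h0, h1, h2, h3, h4]; try ring
  · have h1 : (n + 1) % 5 = 0 := by omega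
    have h2 : (n + 2) % 5 = 1 := by omega
    have h3 : (n + 3) % 5 = 2 := by omega
    have h4 : (n + 4) % 5 = 3 := by omega
    simp [l, h0, h1, h2, h3, h4]; try ring

def N (n : ℕ) : K := D 9 n * c 9 n

theorem Nv8 : N 8 = 3786092 + 6425694*nu + 4434158*nu^2 + 1596148*nu^3 + 317136*nu^4 + 33134*nu^5 + 1430*nu^6 := by
  unfold N; rw [D8, c8]

theorem Nv9 : N 9 = 261868876 + 579783114*nu + 547167306*nu^2 + 287834558*nu^3 + 92481350*nu^4 + 18631334*nu^5 + 2305702*nu^6 + 160850*nu^7 + 4862*nu^8 := by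
  unfold N; rw [D9, c9]

theorem Nv10 : N 10 = 5477198535096 + 14111968172012*nu + 16279245444366*nu^2 + 11139426789289*nu^3 + 5045523093067*nu^4 + 1596726359396*nu^5 + 362685410592*nu^6 + 59682753734*nu^7 + 7073267050*nu^8 + 589671240*nu^9 + 32868810*nu^10 + 1101305*nu^11 + 16795*nu^12 := by
  unfold N; rw [D10, c10]

theorem Nv11 : N 11 = 909206547799776 + 3161007142380640*nu + 5034638165464848*nu^2 + 4876285958423408*nu^3 + 3214283798362342*nu^4 + 1528667572736350*nu^5 + 542365714600566*nu^6 + 146324470054166*nu^7 + 30297423916444*nu^8 + 4820028091676*nu^9 + 585075428540*nu^10 + 53281783340*nu^11 + 3528727518*nu^12 + 160682214*nu^13 + 4505726*nu^14 + 58766*nu^15 := by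
  unfold N; rw [D11, c11]

theorem Nv12 : N 12 = 56597584571119296 + 192692999384069328*nu + 301999184325861264*nu^2 + 289471660053375464*nu^3 + 190112127110725020*nu^4 + 90803863584463077*nu^5 + 32662563229115293*nu^6 + 9035632363170495*nu^7 + 1945014097868619*nu^8 + 327276755313618*nu^9 + 42958190679234*nu^10 + 4358231808438*nu^11 + 335505933602*nu^12 + 18975109257*nu^13 + 744817569*nu^14 + 18163603*nu^15 + 207783*nu^16 := by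
  unfold N; rw [D12, c12]

theorem gv9 : g 9 = (nu+2)^1*(nu+9)^0 := by
  norm_num [g]

theorem hv9 : h 9 = (nu+3)^0*(nu+8)^0 := by
  norm_num [h]

theorem kv9 : k 9 = (nu+4)^0*(nu+7)^0 := by
  norm_num [k]

theorem lv9 : l 9 = (nu+5)^1*(nu+6)^0 := by
  norm_num [l]

theorem gv10 : g 10 = (nu+2)^0*(nu+9)^1 := by
  norm_num [g]

theorem hv10 : h 10 = (nu+3)^0*(nu+8)^1 := by
  norm_num [h]

theorem kv10 : k 10 = (nu+4)^0*(nu+7)^1 := by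
  norm_num [k]

theorem lv10 : l 10 = (nu+5)^0*(nu+6)^1 := by
  norm_num [l]

theorem gv11 : g 11 = (nu+2)^1*(nu+9)^0 := by
  norm_num [g]

theorem hv11 : h 11 = (nu+3)^1*(nu+8)^0 := by
  norm_num [h]

theorem kv11 : k 11 = (nu+4)^1*(nu+7)^0 := by
  norm_num [k]

theorem lv11 : l 11 = (nu+5)^0*(nu+6)^0 := by
  norm_num [l]

theorem gv12 : g 12 = (nu+2)^0*(nu+9)^1 := by
  norm_num [g]

theorem hv12 : h 12 = (nu+3)^0*(nu+8)^0 := by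
  norm_num [h]

theorem kv12 : k 12 = (nu+4)^0*(nu+7)^0 := by
  norm_num [k]

theorem lv12 : l 12 = (nu+5)^0*(nu+6)^0 := by
  norm_num [l]

def M1 (n : ℕ) : K := N n - 3 * (g (n) * h (n) * k (n) * l (n)) * N (n - 1)

def M2 (n : ℕ) : K := M1 n - 2 * (g (n) * h (n) * k (n) * l (n)) * M1 (n - 1)

def M3 (n : ℕ) : K := M2 n - (g (n) * h (n) * k (n) * l (n)) * M2 (n - 1)

def M4 (n : ℕ) : K := M3 n - 0 * (g (n) * h (n) * k (n) * l (n)) * M3 (n - 1)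

theorem hN (n : ℕ) (hn : 8 ≤ n) : N (n + 5) = 9 * (g (n + 5) * h (n + 5) * k (n + 5) * l (n + 5)) * N (n + 4) - 28 * ((nu+1)*(nu+10)) * (h (n + 5) * h (n + 4)) * (k (n + 5) * k (n + 4)) * (l (n + 5) * l (n + 4)) * N (n + 3) + 35 * ((nu+1)*(nu+10)) ^ 2 * g (n + 5) * (k (n + 5) * k (n + 4) * k (n + 3)) * (l (n + 5) * l (n + 4) * l (n + 3)) * N (n + 2) - 15 * ((nu+1)*(nu+10)) ^ 3 * ((nu+2)*(nu+9)) * h (n + 5) * (l (n + 5) * l (n + 4) * l (n + 3) * l (n + 2)) * N (n + 1) + 1 * ((nu+1)*(nu+10)) ^ 4 * (((nu+2)*(nu+9)) * g (n + 5)) * (h (n + 5) * h (n + 4)) * k (n + 5) * N n := by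
  have e1 := Ds n hn
  have e2 : D 9 (n + 2) = _ := Ds (n + 1) (by omega)
  have e3 : D 9 (n + 3) = _ := Ds (n + 2) (by omega)
  have e4 : D 9 (n + 4) = _ := Ds (n + 3) (by omega)
  have e5 : D 9 (n + 5) = _ := Ds (n + 4) (by omega)
  unfold N
  rw [e5, e4, e3, e2, e1]
  exact toN5 one_ne_zero (g_w (n + 4)) (g_p (n + 3)) (g_p (n + 2)) (g_p (n + 1)) (h_p (n + 2)) (h_p (n + 1)) (h_w (n + 1)) (k_p (n + 1)) (k_w (n + 1)) (l_w (n + 1)) (rr n (by omega))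

theorem bM1 : M1 (8 + 1) ∈ S := by
  have e : M1 (8 + 1) = ev [148286116, 307504362, 267844716, 127555718, 36145688, 6189014, 615580, 31418, 572] := by
    show N 9 - 3 * (g (9) * h (9) * k (9) * l (9)) * N 8 = _
    rw [Nv8, Nv9, gv9, hv9, kv9, lv9]; simp only [ev]; push_cast; ring
  rw [e]; exact ev_mem _

theorem bM2 : M2 (8 + 2) ∈ S := by
  have e : M2 (8 + 2) = ev [2204689662456, 5206794261428, 5448198074966, 3343193651239, 1341136210253, 370802127360, 72499192348, 10107059630, 998247194, 68292420, 3089414, 84019, 1065] := by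
    show ((N 10 - 3 * (g (10) * h (10) * k (10) * l (10)) * N 9) - 2 * (g (10) * h (10) * k (10) * l (10)) * (N 9 - 3 * (g (9) * h (9) * k (9) * l (9)) * N 8)) = _
    rw [Nv8, Nv9, Nv10, gv9, hv9, kv9, lv9, gv10, hv10, kv10, lv10]; simp only [ev]; push_cast; ring
  rw [e]; exact ev_mem _

theorem bM3 : M3 (8 + 3) ∈ S := by
  have e : M3 (8 + 3) = ev [313062544956768, 1011475310345920, 1486456006996320, 1318123351815208, 788825855242762, 337512019919418, 106682293896430, 25374196771082, 4581004277412, 628281467204, 65018327420, 4998572412, 277624658, 10603458, 252630, 2898] := by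
    show (((N 11 - 3 * (g (11) * h (11) * k (11) * l (11)) * N 10) - 2 * (g (11) * h (11) * k (11) * l (11)) * (N 10 - 3 * (g (10) * h (10) * k (10) * l (10)) * N 9)) - (g (11) * h (11) * k (11) * l (11)) * ((N 10 - 3 * (g (10) * h (10) * k (10) * l (10)) * N 9) - 2 * (g (10) * h (10) * k (10) * l (10)) * (N 9 - 3 * (g (9) * h (9) * k (9) * l (9)) * N 8))) = _
    rw [Nv8, Nv9, Nv10, Nv11, gv9, hv9, kv9, lv9, gv10, hv10, kv10, lv10, gv11, hv11, kv11, lv11]; simp only [ev]; push_cast; ring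
  rw [e]; exact ev_mem _

theorem bM4 : M4 (8 + 4) ∈ S := by
  have e : M4 (8 + 4) = ev [19487963349912384, 61559641489745664, 88949376582907776, 78079848666778000, 46630318706983740, 20103036728541740, 6476393598851060, 1591742425279732, 301927681077872, 44403633932904, 5054980419544, 441857430376, 29179557964, 1415444972, 47992180, 1030292, 10760] := by
    show ((((N 12 - 3 * (g (12) * h (12) * k (12) * l (12)) * N 11) - 2 * (g (12) * h (12) * k (12) * l (12)) * (N 11 - 3 * (g (11) * h (11) * k (11) * l (11)) * N 10)) - (g (12) * h (12) * k (12) * l (12)) * ((N 11 - 3 * (g (11) * h (11) * k (11) * l (11)) * N 10) - 2 * (g (11) * h (11) * k (11) * l (11)) * (N 10 - 3 * (g (10) * h (10) * k (10) * l (10)) * N 9))) - 0 * (g (12) * h (12) * k (12) * l (12)) * (((N 11 - 3 * (g (11) * h (11) * k (11) *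 l (11)) * N 10) - 2 * (g (11) * h (11) * k (11) * l (11)) * (N 10 - 3 * (g (10) * h (10) * k (10) * l (10)) * N 9)) - (g (11) * h (11) * k (11) * l (11)) * ((N 10 - 3 * (g (10) * h (10) * k (10) * l (10)) * N 9) - 2 * (g (10) * h (10) * k (10) * l (10)) * (N 9 - 3 * (g (9) * h (9) * k (9) * l (9)) * N 8)))) = _
    rw [Nv8, Nv9, Nv10, Nv11, Nv12, gv9, hv9, kv9, lv9, gv10, hv10, kv10, lv10, gv11, hv11, kv11, lv11, gv12, hv12, kv12, lv12]; simp only [ev]; push_cast; ring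
  rw [e]; exact ev_mem _

theorem main (n : ℕ) : D 9 n * c 9 n ∈ S := by
  rcases Nat.lt_or_ge n 8 with hn | hn
  · interval_cases n
    · exact m0
    · exact m1
    · exact m2
    · exact m3
    · exact m4
    · exact m5
    · exact m6
    · exact m7
  · exact (step5 (M1 := M1) (M2 := M2) (M3 := M3) (M4 := M4) (r := 0) (a2 := ((11 + 6 * 0) * ((nu+2)*(nu+9)) - 28 * ((nu+1)*(nu+10)) + (9 - 6 - 0) * (6 + 0) * ((nu+2)*(nu+9)))) (a3 := (35 * ((nu+1)*(nu+10)) ^ 2 - (6 + 11 * 0) * ((nu+2)*(nu+9)) * ((nu+3)*(nu+8)) - (9 - 6 - 0) * (11 + 6 * 0) * ((nu+2)*(nu+9)) * ((nu+3)*(nu+8)) + 6 * ((11 + 6 * 0) * ((nu+2)*(nu+9)) - 28 * ((nu+1)*(nu+10)) + (9 - 6 - 0) * (6 + 0) * ((nu+2)*(nu+9))) * ((nu+3)*(nu+8)))) (a4 := (-15 * ((nu+1)*(nu+10)) ^ 3 + 6 * 0 * ((nu+2)*(nu+9)) * ((nu+3)*(nu+8)) * ((nu+4)*(nu+7)) + (9 - 6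 - 0) * (6 + 11 * 0) * ((nu+2)*(nu+9)) * ((nu+3)*(nu+8)) * ((nu+4)*(nu+7)) - 11 * ((11 + 6 * 0) * ((nu+2)*(nu+9)) - 28 * ((nu+1)*(nu+10)) + (9 - 6 - 0) * (6 + 0) * ((nu+2)*(nu+9))) * ((nu+3)*(nu+8)) * ((nu+4)*(nu+7)) + 5 * (35 * ((nu+1)*(nu+10)) ^ 2 - (6 + 11 * 0) * ((nu+2)*(nu+9)) * ((nu+3)*(nu+8)) - (9 - 6 - 0) * (11 + 6 * 0) * ((nu+2)*(nu+9)) * ((nu+3)*(nu+8)) + 6 * ((11 + 6 * 0) * ((nu+2)*(nu+9)) - 28 * ((nu+1)*(nu+10)) + (9 - 6 - 0) * (6 + 0) * ((nu+2)*(nu+9))) * ((nu+3)*(nu+8))) * ((nu+4)*(nu+7)))) g_mem g_w g_p h_mem h_w h_p k_mem k_w k_p l_mem l_w hN rfl rfl rfl (by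
      have e : (0 : K) = ev [0] := by simp only [ev]; push_cast; ring
      rw [e]; exact ev_mem _) (by
      have e : (9 - 6 - 0 : K) = ev [3] := by simp only [ev]; push_cast; ring
      rw [e]; exact ev_mem _) (by
      have e : (((11 + 6 * 0) * ((nu+2)*(nu+9)) - 28 * ((nu+1)*(nu+10)) + (9 - 6 - 0) * (6 + 0) * ((nu+2)*(nu+9))) : K) = ev [242, 11, 1] := by simp only [ev]; push_cast; ring
      rw [e]; exact ev_mem _) (by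
      have e : ((35 * ((nu+1)*(nu+10)) ^ 2 - (6 + 11 * 0) * ((nu+2)*(nu+9)) * ((nu+3)*(nu+8)) - (9 - 6 - 0) * (11 + 6 * 0) * ((nu+2)*(nu+9)) * ((nu+3)*(nu+8)) + 6 * ((11 + 6 * 0) * ((nu+2)*(nu+9)) - 28 * ((nu+1)*(nu+10)) + (9 - 6 - 0) * (6 + 0) * ((nu+2)*(nu+9))) * ((nu+3)*(nu+8))) : K) = ev [21500, 7238, 900, 44, 2] := by simp only [ev]; push_cast; ring
      rw [e]; exact ev_mem _) (by
      have e : ((-15 * ((nu+1)*(nu+10)) ^ 3 + 6 * 0 * ((nu+2)*(nu+9)) * ((nu+3)*(nu+8)) * ((nu+4)*(nu+7)) + (9 - 6 - 0) * (6 + 11 * 0) * ((nu+2)*(nu+9)) * ((nu+3)*(nu+8)) * ((nu+4)*(nu+7)) - 11 * ((11 + 6 * 0) * ((nu+2)*(nu+9)) - 28 * ((nu+1)*(nu+10)) + (9 - 6 - 0) * (6 + 0) * ((nu+2)*(nu+9))) * ((nu+3)*(nu+8)) * ((nu+4)*(nu+7)) + 5 * (35 * ((nu+1)*(nu+10)) ^ 2 - (6 + 11 * 0) * ((nu+2)*(nu+9)) * ((nu+3)*(nu+8)) - (9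 - 6 - 0) * (11 + 6 * 0) * ((nu+2)*(nu+9)) * ((nu+3)*(nu+8)) + 6 * ((11 + 6 * 0) * ((nu+2)*(nu+9)) - 28 * ((nu+1)*(nu+10)) + (9 - 6 - 0) * (6 + 0) * ((nu+2)*(nu+9))) * ((nu+3)*(nu+8))) * ((nu+4)*(nu+7))) : K) = ev [1423864, 860728, 216914, 27874, 1872, 66, 2] := by simp only [ev]; push_cast; ring
      rw [e]; exact ev_mem _) (by
      have e : (1 * ((nu+1)*(nu+10)) ^ 4 - (9 - 6 - 0) * (6 * 0) * ((nu+2)*(nu+9)) * ((nu+3)*(nu+8)) * ((nu+4)*(nu+7)) * ((nu+5)*(nu+6)) + 6 * ((11 + 6 * 0) * ((nu+2)*(nu+9)) - 28 * ((nu+1)*(nu+10)) + (9 - 6 - 0) * (6 + 0) * ((nu+2)*(nu+9))) * ((nu+3)*(nu+8)) * ((nu+4)*(nu+7)) * ((nu+5)*(nu+6)) - 6 * (35 * ((nu+1)*(nu+10)) ^ 2 - (6 + 11 * 0) * ((nu+2)*(nu+9)) * ((nu+3)*(nu+8)) - (9 - 6 - 0) * (11 + 6 * 0) * ((nu+2)*(nu+9)) * ((nu+3)*(nu+8)) + 6 * ((11 + 6 * 0) * ((nu+2)*(nu+9))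 - 28 * ((nu+1)*(nu+10)) + (9 - 6 - 0) * (6 + 0) * ((nu+2)*(nu+9))) * ((nu+3)*(nu+8))) * ((nu+4)*(nu+7)) * ((nu+5)*(nu+6)) + 3 * (-15 * ((nu+1)*(nu+10)) ^ 3 + 6 * 0 * ((nu+2)*(nu+9)) * ((nu+3)*(nu+8)) * ((nu+4)*(nu+7)) + (9 - 6 - 0) * (6 + 11 * 0) * ((nu+2)*(nu+9)) * ((nu+3)*(nu+8)) * ((nu+4)*(nu+7)) - 11 * ((11 + 6 * 0) * ((nu+2)*(nu+9)) - 28 * ((nu+1)*(nu+10)) + (9 - 6 - 0) * (6 + 0) * ((nu+2)*(nu+9))) * ((nu+3)*(nu+8)) * ((nu+4)*(nu+7)) + 5 * (35 * ((nu+1)*(nu+10)) ^ 2 - (6 + 11 * 0) * ((nu+2)*(nu+9)) * ((nu+3)*(nu+8)) - (9 - 6 - 0) * (11 + 6 * 0) * ((nu+2)*(nu+9)) * ((nu+3)*(nu+8)) + 6 * ((11 + 6 * 0) * ((nu+2)*(nu+9)) - 28 * ((nu+1)*(nu+10)) + (9 - 6 - 0) * (6 + 0) * ((nu+2)*(nu+9))) * ((nu+3)*(nu+8))) * ((nu+4)*(nu+7))) * ((nu+5)*(nu+6)) : K) = ev [49070080, 42695576, 16329412, 3538370, 465271,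 36938, 1684, 44, 1] := by simp only [ev]; push_cast; ring
      rw [e]; exact ev_mem _) (mul_mem (xm 2) (xm 9)) (fun _ => rfl) (fun _ => rfl) (fun _ => rfl) (fun _ => rfl) (by unfold N; exact m8) bM1 bM2 bM3 bM4 n hn).1

end

end Pool.Agent.H629.LM.M9
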