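import Pool.Agent.H629.LM.Base

set_option autoImplicit false

namespace Pool.Agent.H629.LM

noncomputable section

/-- the polynomials in `ν` with coefficients in `ℕ`, in `ℚ(ν)` -/
def phi : Polynomial ℕ →+* K :=
  (algebraMap (Polynomial ℚ) K).comp (Polynomial.mapRingHom (Nat.castRingHom ℚ))

def S : Subsemiring K := phi.rangeS

theorem nu_mem : nu ∈ S := ⟨Polynomial.X, by simp [phi, nu, RatFunc.algebraMap_X]⟩

theorem nat_mem (k : ℕ) : (k : K) ∈ S := natCast_mem S k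

theorem xm (k : ℕ) [k.AtLeastTwo] : nu + (OfNat.ofNat k : K) ∈ S := by
  have h : (OfNat.ofNat k : K) = ((OfNat.ofNat k : ℕ) : K) := by simp
  rw [h]
  exact add_mem nu_mem (nat_mem _)

/-- polynomial with the given coefficients -/
def ev : List ℕ → K
  | [] => 0
  | a :: l => a + nu * ev l

theorem ev_mem (l : List ℕ) : ev l ∈ S := by
  induction l with
  | nil => exact zero_mem S
  | cons a l ih => exact add_mem (nat_mem a) (mul_mem nu_mem ih)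

theorem step2 {n0 : ℕ} {N g : ℕ → K} {C1 C2 rho : K} {y1 y2 : K}
    (hg : ∀ n, g n ∈ S) (hgg : ∀ n, g (n + 1) * g n = y2)
    (hN : ∀ n, n0 ≤ n → N (n + 2) = C1 * g (n + 2) * N (n + 1) - C2 * y1 * N n)
    (h1 : C1 - rho ∈ S) (h2 : rho ∈ S) (h3 : rho * (C1 - rho) * y2 - C2 * y1 ∈ S)
    (b0 : N n0 ∈ S) (b1 : N (n0 + 1) - rho * g (n0 + 1) * N n0 ∈ S) :
    ∀ n, n0 ≤ n → N n ∈ S ∧ N (n + 1) - rho * g (n + 1) * N n ∈ S := by
  intro n hn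
  induction n, hn using Nat.le_induction with
  | base => exact ⟨b0, b1⟩
  | succ n hn ih =>
    obtain ⟨i0, i1⟩ := ih
    have e1 : N (n + 1) = (N (n + 1) - rho * g (n + 1) * N n) + rho * g (n + 1) * N n := by ring
    have j1 : N (n + 1) ∈ S := by
      rw [e1]; exact add_mem i1 (mul_mem (mul_mem h2 (hg _)) i0)
    refine ⟨j1, ?_⟩
    have e2 : N (n + 1 + 1) - rho * g (n + 1 + 1) * N (n + 1) =
        (C1 - rho) * g (n + 2) * (N (n + 1) - rho * g (n + 1) * N n) +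
        (rho * (C1 - rho) * y2 - C2 * y1) * N n := by
      have := hN n hn
      have h' := hgg (n + 1)
      rw [show n + 1 + 1 = n + 2 from rfl] at *
      linear_combination this + (C1 - rho) * rho * N n * h'
    rw [e2]
    exact add_mem (mul_mem (mul_mem h1 (hg _)) i1) (mul_mem h3 i0)

theorem step3 {n0 : ℕ} {N g h : ℕ → K} {C1 C2 C3 : K} {y1 y2 y3 : K}
    (hg : ∀ n, g n ∈ S) (hgg : ∀ n, g (n + 1) * g n = y2) (hg2 : ∀ n, g (n + 2) = g n)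
    (hh : ∀ n, h n ∈ S) (hhh : ∀ n, h (n + 2) * h (n + 1) * h n = y3)
    (hN : ∀ n, n0 ≤ n → N (n + 3) = C1 * (g (n + 3) * h (n + 3)) * N (n + 2)
      - C2 * y1 * (h (n + 3) * h (n + 2)) * N (n + 1) + C3 * y1 ^ 2 * g (n + 3) * N n)
    (h1 : C1 - 5 ∈ S) (h2 : (5 * C1 - 19) * y2 - C2 * y1 ∈ S)
    (h3 : 3 * ((5 * C1 - 19) * y2 - C2 * y1) * y3 + C3 * y1 ^ 2 - 6 * (C1 - 5) * y2 * y3 ∈ S)
    {M1 M2 : ℕ → K} (hM1 : ∀ n, M1 (n + 1) = N (n + 1) - 3 * (g (n + 1) * h (n + 1)) * N n)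
    (hM2 : ∀ n, M2 (n + 1) = M1 (n + 1) - 2 * (g (n + 1) * h (n + 1)) * M1 n)
    (b0 : N n0 ∈ S) (b1 : M1 (n0 + 1) ∈ S) (b2 : M2 (n0 + 2) ∈ S) :
    ∀ n, n0 ≤ n → N n ∈ S ∧ M1 (n + 1) ∈ S ∧ M2 (n + 2) ∈ S := by
  intro n hn
  have k3 : (3 : K) ∈ S := by exact_mod_cast nat_mem 3
  have k2 : (2 : K) ∈ S := by exact_mod_cast nat_mem 2
  induction n, hn using Nat.le_induction with
  | base => exact ⟨b0, b1, b2⟩
  | succ n hn ih =>
    obtain ⟨i0, i1, i2⟩ := ih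
    have j1 : N (n + 1) ∈ S := by
      have e : N (n + 1) = M1 (n + 1) + 3 * (g (n + 1) * h (n + 1)) * N n := by rw [hM1]; ring
      rw [e]
      exact add_mem i1 (mul_mem (mul_mem k3 (mul_mem (hg _) (hh _))) i0)
    have j2 : M1 (n + 2) ∈ S := by
      have e : M1 (n + 2) = M2 (n + 2) + 2 * (g (n + 2) * h (n + 2)) * M1 (n + 1) := by
        rw [hM2 (n + 1)]; ring
      rw [e]
      exact add_mem i2 (mul_mem (mul_mem k2 (mul_mem (hg _) (hh _))) i1)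
    refine ⟨j1, j2, ?_⟩
    have e3 : M2 (n + 1 + 2) = (C1 - 5) * (g (n + 3) * h (n + 3)) * M2 (n + 2) +
        ((5 * C1 - 19) * y2 - C2 * y1) * (h (n + 3) * h (n + 2)) * M1 (n + 1) +
        (3 * ((5 * C1 - 19) * y2 - C2 * y1) * y3 + C3 * y1 ^ 2 - 6 * (C1 - 5) * y2 * y3) *
          g (n + 3) * N n := by
      have r := hN n hn
      have q0 := hM2 (n + 2)
      have q1 := hM1 (n + 2)
      have q2 := hM1 (n + 1)
      have q3 := hM2 (n + 1)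
      have q4 := hM1 n
      have s1 := hgg (n + 2)
      have s2 := hgg (n + 1)
      have s3 := hhh (n + 1)
      have s4 := hg2 (n + 1)
      simp only [show n + 1 + 2 = n + 3 from rfl, show n + 1 + 1 = n + 2 from rfl] at *
      rw [q0, q3, q1, q2, q4, r, ← s1, ← s3, s4]
      ring
    rw [e3]
    exact add_mem (add_mem (mul_mem (mul_mem h1 (mul_mem (hg _) (hh _))) i2)
      (mul_mem (mul_mem h2 (mul_mem (hh _) (hh _))) i1)) (mul_mem (mul_mem h3 (hg _)) i0)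

theorem step4 {n0 : ℕ} {N g h k : ℕ → K} {C1 C2 C3 C4 : K} {y1 y2 y3 y4 a2 a3 : K}
    (hg : ∀ n, g n ∈ S) (hgg : ∀ n, g (n + 1) * g n = y2) (hg2 : ∀ n, g (n + 2) = g n)
    (hh : ∀ n, h n ∈ S) (hhh : ∀ n, h (n + 2) * h (n + 1) * h n = y3)
    (hh2 : ∀ n, h (n + 3) = h n)
    (hk : ∀ n, k n ∈ S) (hkk : ∀ n, k (n + 3) * k (n + 2) * k (n + 1) * k n = y4)
    (hN : ∀ n, n0 ≤ n → N (n + 4) = C1 * (g (n + 4) * h (n + 4) * k (n + 4)) * N (n + 3)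
      - C2 * y1 * (h (n + 4) * h (n + 3)) * (k (n + 4) * k (n + 3)) * N (n + 2)
      + C3 * y1 ^ 2 * g (n + 4) * (k (n + 4) * k (n + 3) * k (n + 2)) * N (n + 1)
      - C4 * y1 ^ 3 * y2 * h (n + 4) * N n)
    (ha2 : a2 = (6 * C1 - 25) * y2 - C2 * y1)
    (ha3 : a3 = 5 * a2 * y3 + (60 - 11 * C1) * y2 * y3 + C3 * y1 ^ 2)
    (h1 : C1 - 6 ∈ S) (h2 : a2 ∈ S) (h3 : a3 ∈ S)
    (h4 : 3 * a3 * y4 - 6 * a2 * y3 * y4 + 6 * (C1 - 6) * y2 * y3 * y4 - C4 * y1 ^ 3 ∈ S)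
    (hy2 : y2 ∈ S)
    {M1 M2 M3 : ℕ → K}
    (hM1 : ∀ n, M1 (n + 1) = N (n + 1) - 3 * (g (n + 1) * h (n + 1) * k (n + 1)) * N n)
    (hM2 : ∀ n, M2 (n + 1) = M1 (n + 1) - 2 * (g (n + 1) * h (n + 1) * k (n + 1)) * M1 n)
    (hM3 : ∀ n, M3 (n + 1) = M2 (n + 1) - (g (n + 1) * h (n + 1) * k (n + 1)) * M2 n)
    (b0 : N n0 ∈ S) (b1 : M1 (n0 + 1) ∈ S) (b2 : M2 (n0 + 2) ∈ S) (b3 : M3 (n0 + 3) ∈ S) :
    ∀ n, n0 ≤ n → N n ∈ S ∧ M1 (n + 1) ∈ S ∧ M2 (n + 2) ∈ S ∧ M3 (n + 3) ∈ S := by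
  intro n hn
  have k3 : (3 : K) ∈ S := by exact_mod_cast nat_mem 3
  have k2 : (2 : K) ∈ S := by exact_mod_cast nat_mem 2
  induction n, hn using Nat.le_induction with
  | base => exact ⟨b0, b1, b2, b3⟩
  | succ n hn ih =>
    obtain ⟨i0, i1, i2, i3⟩ := ih
    have hG : ∀ n, g n * h n * k n ∈ S := fun n => mul_mem (mul_mem (hg _) (hh _)) (hk _)
    have j1 : N (n + 1) ∈ S := by
      have e : N (n + 1) = M1 (n + 1) + 3 * (g (n + 1) * h (n + 1) * k (n + 1)) * N n := by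
        rw [hM1]; ring
      rw [e]
      exact add_mem i1 (mul_mem (mul_mem k3 (hG _)) i0)
    have j2 : M1 (n + 2) ∈ S := by
      have e : M1 (n + 2) = M2 (n + 2) + 2 * (g (n + 2) * h (n + 2) * k (n + 2)) * M1 (n + 1) := by
        rw [hM2 (n + 1)]; ring
      rw [e]
      exact add_mem i2 (mul_mem (mul_mem k2 (hG _)) i1)
    have j3 : M2 (n + 3) ∈ S := by
      have e : M2 (n + 3) = M3 (n + 3) + (g (n + 3) * h (n + 3) * k (n + 3)) * M2 (n + 2) := by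
        rw [hM3 (n + 2)]; ring
      rw [e]
      exact add_mem i3 (mul_mem (hG _) i2)
    refine ⟨j1, j2, j3, ?_⟩
    have e3 : M3 (n + 1 + 3) = (C1 - 6) * (g (n + 4) * h (n + 4) * k (n + 4)) * M3 (n + 3) +
        a2 * (h (n + 4) * h (n + 3)) * (k (n + 4) * k (n + 3)) * M2 (n + 2) +
        a3 * g (n + 4) * (k (n + 4) * k (n + 3) * k (n + 2)) * M1 (n + 1) +
        (3 * a3 * y4 - 6 * a2 * y3 * y4 + 6 * (C1 - 6) * y2 * y3 * y4 - C4 * y1 ^ 3) *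
          (y2 * h (n + 4)) * N n := by
      have r := hN n hn
      have p4 : M3 (n + 4) = M2 (n + 4) - (g (n + 4) * h (n + 4) * k (n + 4)) * M2 (n + 3) :=
        hM3 (n + 3)
      have p3 : M3 (n + 3) = M2 (n + 3) - (g (n + 3) * h (n + 3) * k (n + 3)) * M2 (n + 2) :=
        hM3 (n + 2)
      have q4 : M2 (n + 4) = M1 (n + 4) - 2 * (g (n + 4) * h (n + 4) * k (n + 4)) * M1 (n + 3) :=
        hM2 (n + 3)
      have q3 : M2 (n + 3) = M1 (n + 3) - 2 * (g (n + 3) * h (n + 3) * k (n + 3)) * M1 (n + 2) :=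
        hM2 (n + 2)
      have q2 : M2 (n + 2) = M1 (n + 2) - 2 * (g (n + 2) * h (n + 2) * k (n + 2)) * M1 (n + 1) :=
        hM2 (n + 1)
      have t4 : M1 (n + 4) = N (n + 4) - 3 * (g (n + 4) * h (n + 4) * k (n + 4)) * N (n + 3) :=
        hM1 (n + 3)
      have t3 : M1 (n + 3) = N (n + 3) - 3 * (g (n + 3) * h (n + 3) * k (n + 3)) * N (n + 2) :=
        hM1 (n + 2)
      have t2 : M1 (n + 2) = N (n + 2) - 3 * (g (n + 2) * h (n + 2) * k (n + 2)) * N (n + 1) :=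
        hM1 (n + 1)
      have t1 : M1 (n + 1) = N (n + 1) - 3 * (g (n + 1) * h (n + 1) * k (n + 1)) * N n :=
        hM1 n
      have s1 : g (n + 4) * g (n + 3) = y2 := hgg (n + 3)
      have s4 : g (n + 4) = g (n + 2) := hg2 (n + 2)
      have s5 : g (n + 3) = g (n + 1) := hg2 (n + 1)
      have s6 : h (n + 4) = h (n + 1) := hh2 (n + 1)
      have s3 : h (n + 3) * h (n + 2) * h (n + 1) = y3 := hhh (n + 1)
      have s7 : k (n + 4) * k (n + 3) * k (n + 2) * k (n + 1) = y4 := hkk (n + 1)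
      rw [show n + 1 + 3 = n + 4 from rfl, ha3, ha2, p4, p3, q4, q3, q2, t4, t3, t2, t1, r, ← s1,
        ← s3, ← s7, s4, s5, s6]
      ring
    rw [e3]
    exact add_mem (add_mem (add_mem (mul_mem (mul_mem h1 (hG _)) i3)
      (mul_mem (mul_mem (mul_mem h2 (mul_mem (hh _) (hh _))) (mul_mem (hk _) (hk _))) i2))
      (mul_mem (mul_mem (mul_mem h3 (hg _)) (mul_mem (mul_mem (hk _) (hk _)) (hk _))) i1))
      (mul_mem (mul_mem h4 (mul_mem hy2 (hh _))) i0)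

/-- the exponents of the problem -/
def f (m n j : ℕ) : ℕ :=
  if 2 * j = m then 1
  else (max (((n : ℤ) + 1) / ((j : ℤ) + 1)) (((n : ℤ) + m + 1 - 2 * j) / ((m : ℤ) + 1 - j))).toNat

def D (m n : ℕ) : K := ∏ j ∈ Finset.range (m + 1), (nu + 1 + j) ^ f m n j

theorem toN2 {d Y y2 z g1 g2 c0 c1 c2 C1 C2 : K} (hz : z ≠ 0) (s1 : g2 * g1 = y2)
    (rr : Y * y2 * z * c2 - C1 * (y2 * z) * c1 + C2 * z * c0 = 0) :
    (d * Y * g1 * Y * g2) * c2 = C1 * g2 * ((d * Y * g1) * c1) - C2 * Y * (d * c0) := by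
  subst s1
  apply mul_left_cancel₀ hz
  linear_combination (d * Y) * rr

theorem toN3 {d Y y2 y3 z g1 g2 g3 h1 h2 h3 c0 c1 c2 c3 C1 C2 C3 : K} (hz : z ≠ 0)
    (s1 : g3 * g2 = y2) (s3 : h3 * h2 * h1 = y3) (s4 : g3 = g1)
    (rr : Y * y2 * y3 * z * c3 - C1 * (y2 * y3 * z) * c2 + C2 * (y3 * z) * c1 - C3 * z * c0 = 0) :
    (d * Y * (g1 * h1) * Y * (g2 * h2) * Y * (g3 * h3)) * c3 =
      C1 * (g3 * h3) * ((d * Y * (g1 * h1) * Y * (g2 * h2)) * c2) -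
      C2 * Y * (h3 * h2) * ((d * Y * (g1 * h1)) * c1) + C3 * Y ^ 2 * g3 * (d * c0) := by
  subst s1 s3 s4
  apply mul_left_cancel₀ hz
  linear_combination (d * Y ^ 2 * g3) * rr

theorem toN4 {d Y y2 y3 y4 z g1 g2 g3 g4 h1 h2 h3 h4 k1 k2 k3 k4 c0 c1 c2 c3 c4 C1 C2 C3 C4 : K}
    (hz : z ≠ 0) (s1 : g4 * g3 = y2) (s2 : g4 = g2) (s4 : g3 = g1) (s5 : h4 = h1)
    (s3 : h3 * h2 * h1 = y3) (s6 : k4 * k3 * k2 * k1 = y4)
    (rr : Y * y2 * y3 * y4 * z * c4 - C1 * (y2 * y3 * y4 * z) * c3 + C2 * (y3 * y4 * z) * c2 -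
      C3 * (y4 * z) * c1 + C4 * z * c0 = 0) :
    (d * Y * (g1 * h1 * k1) * Y * (g2 * h2 * k2) * Y * (g3 * h3 * k3) * Y * (g4 * h4 * k4)) * c4 =
      C1 * (g4 * h4 * k4) *
        ((d * Y * (g1 * h1 * k1) * Y * (g2 * h2 * k2) * Y * (g3 * h3 * k3)) * c3) -
      C2 * Y * (h4 * h3) * (k4 * k3) * ((d * Y * (g1 * h1 * k1) * Y * (g2 * h2 * k2)) * c2) +
      C3 * Y ^ 2 * g4 * (k4 * k3 * k2) * ((d * Y * (g1 * h1 * k1)) * c1) -
      C4 * Y ^ 3 * y2 * h4 * (d * c0) := by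
  subst s1 s3 s2 s4 s5 s6
  apply mul_left_cancel₀ hz
  linear_combination (d * Y ^ 3 * (g4 * g3) * h4) * rr

end

end Pool.Agent.H629.LM
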