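import Pool.Agent.H629.LM.Step

set_option autoImplicit false

namespace Pool.Agent.H629.LM

noncomputable section

theorem toN5 {d Y y2 y3 y4 y5 z g1 g2 g3 g4 g5 h1 h2 h3 h4 h5 k1 k2 k3 k4 k5 l1 l2 l3 l4 l5
    c0 c1 c2 c3 c4 c5 C1 C2 C3 C4 C5 : K}
    (hz : z ≠ 0) (s1 : g5 * g4 = y2) (s2 : g5 = g3) (s2' : g4 = g2) (s2'' : g3 = g1)
    (s5 : h5 = h2) (s5' : h4 = h1)
    (s3 : h3 * h2 * h1 = y3) (s7 : k5 = k1) (s6 : k4 * k3 * k2 * k1 = y4)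
    (s8 : l5 * l4 * l3 * l2 * l1 = y5)
    (rr : Y * y2 * y3 * y4 * y5 * z * c5 - C1 * (y2 * y3 * y4 * y5 * z) * c4 +
      C2 * (y3 * y4 * y5 * z) * c3 - C3 * (y4 * y5 * z) * c2 + C4 * (y5 * z) * c1 -
      C5 * z * c0 = 0) :
    (d * Y * (g1 * h1 * k1 * l1) * Y * (g2 * h2 * k2 * l2) * Y * (g3 * h3 * k3 * l3) * Y *
      (g4 * h4 * k4 * l4) * Y * (g5 * h5 * k5 * l5)) * c5 =
      C1 * (g5 * h5 * k5 * l5) *
        ((d * Y * (g1 * h1 * k1 * l1) * Y * (g2 * h2 * k2 * l2) * Y * (g3 * h3 * k3 * l3) * Y *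
          (g4 * h4 * k4 * l4)) * c4) -
      C2 * Y * (h5 * h4) * (k5 * k4) * (l5 * l4) *
        ((d * Y * (g1 * h1 * k1 * l1) * Y * (g2 * h2 * k2 * l2) * Y * (g3 * h3 * k3 * l3)) * c3) +
      C3 * Y ^ 2 * g5 * (k5 * k4 * k3) * (l5 * l4 * l3) *
        ((d * Y * (g1 * h1 * k1 * l1) * Y * (g2 * h2 * k2 * l2)) * c2) -
      C4 * Y ^ 3 * y2 * h5 * (l5 * l4 * l3 * l2) * ((d * Y * (g1 * h1 * k1 * l1)) * c1) +
      C5 * Y ^ 4 * (y2 * g5) * (h5 * h4) * k5 * (d * c0) := by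
  subst s1 s3 s2 s2' s2'' s5 s5' s7 s6 s8
  apply mul_left_cancel₀ hz
  linear_combination (d * Y ^ 4 * ((g5 * g4) * g5) * (h5 * h4) * k5) * rr

theorem step5 {n0 : ℕ} {N g h k l : ℕ → K} {C1 C2 C3 C4 C5 r : K}
    {y1 y2 y3 y4 y5 a2 a3 a4 : K}
    (hg : ∀ n, g n ∈ S) (hgg : ∀ n, g (n + 1) * g n = y2) (hg2 : ∀ n, g (n + 2) = g n)
    (hh : ∀ n, h n ∈ S) (hhh : ∀ n, h (n + 2) * h (n + 1) * h n = y3)
    (hh2 : ∀ n, h (n + 3) = h n)
    (hk : ∀ n, k n ∈ S) (hkk : ∀ n, k (n + 3) * k (n + 2) * k (n + 1) * k n = y4)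
    (hk2 : ∀ n, k (n + 4) = k n)
    (hl : ∀ n, l n ∈ S)
    (hll : ∀ n, l (n + 4) * l (n + 3) * l (n + 2) * l (n + 1) * l n = y5)
    (hN : ∀ n, n0 ≤ n → N (n + 5) =
      C1 * (g (n + 5) * h (n + 5) * k (n + 5) * l (n + 5)) * N (n + 4)
      - C2 * y1 * (h (n + 5) * h (n + 4)) * (k (n + 5) * k (n + 4)) * (l (n + 5) * l (n + 4)) *
        N (n + 3)
      + C3 * y1 ^ 2 * g (n + 5) * (k (n + 5) * k (n + 4) * k (n + 3)) *
        (l (n + 5) * l (n + 4) * l (n + 3)) * N (n + 2)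
      - C4 * y1 ^ 3 * y2 * h (n + 5) * (l (n + 5) * l (n + 4) * l (n + 3) * l (n + 2)) * N (n + 1)
      + C5 * y1 ^ 4 * (y2 * g (n + 5)) * (h (n + 5) * h (n + 4)) * k (n + 5) * N n)
    (ha2 : a2 = (11 + 6 * r) * y2 - C2 * y1 + (C1 - 6 - r) * (6 + r) * y2)
    (ha3 : a3 = C3 * y1 ^ 2 - (6 + 11 * r) * y2 * y3 - (C1 - 6 - r) * (11 + 6 * r) * y2 * y3 +
      6 * a2 * y3)
    (ha4 : a4 = -C4 * y1 ^ 3 + 6 * r * y2 * y3 * y4 + (C1 - 6 - r) * (6 + 11 * r) * y2 * y3 * y4 -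
      11 * a2 * y3 * y4 + 5 * a3 * y4)
    (h0 : r ∈ S) (h1 : C1 - 6 - r ∈ S) (h2 : a2 ∈ S) (h3 : a3 ∈ S) (h4 : a4 ∈ S)
    (h5 : C5 * y1 ^ 4 - (C1 - 6 - r) * (6 * r) * y2 * y3 * y4 * y5 + 6 * a2 * y3 * y4 * y5 -
      6 * a3 * y4 * y5 + 3 * a4 * y5 ∈ S)
    (hy2 : y2 ∈ S)
    {M1 M2 M3 M4 : ℕ → K}
    (hM1 : ∀ n, M1 (n + 1) =
      N (n + 1) - 3 * (g (n + 1) * h (n + 1) * k (n + 1) * l (n + 1)) * N n)
    (hM2 : ∀ n, M2 (n + 1) =
      M1 (n + 1) - 2 * (g (n + 1) * h (n + 1) * k (n + 1) * l (n + 1)) * M1 n)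
    (hM3 : ∀ n, M3 (n + 1) =
      M2 (n + 1) - (g (n + 1) * h (n + 1) * k (n + 1) * l (n + 1)) * M2 n)
    (hM4 : ∀ n, M4 (n + 1) =
      M3 (n + 1) - r * (g (n + 1) * h (n + 1) * k (n + 1) * l (n + 1)) * M3 n)
    (b0 : N n0 ∈ S) (b1 : M1 (n0 + 1) ∈ S) (b2 : M2 (n0 + 2) ∈ S) (b3 : M3 (n0 + 3) ∈ S)
    (b4 : M4 (n0 + 4) ∈ S) :
    ∀ n, n0 ≤ n → N n ∈ S ∧ M1 (n + 1) ∈ S ∧ M2 (n + 2) ∈ S ∧ M3 (n + 3) ∈ S ∧
      M4 (n + 4) ∈ S := by
  intro n hn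
  have k3 : (3 : K) ∈ S := by exact_mod_cast nat_mem 3
  have k2 : (2 : K) ∈ S := by exact_mod_cast nat_mem 2
  induction n, hn using Nat.le_induction with
  | base => exact ⟨b0, b1, b2, b3, b4⟩
  | succ n hn ih =>
    obtain ⟨i0, i1, i2, i3, i4⟩ := ih
    have hG : ∀ n, g n * h n * k n * l n ∈ S :=
      fun n => mul_mem (mul_mem (mul_mem (hg _) (hh _)) (hk _)) (hl _)
    have j1 : N (n + 1) ∈ S := by
      have e : N (n + 1) = M1 (n + 1) +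
        3 * (g (n + 1) * h (n + 1) * k (n + 1) * l (n + 1)) * N n := by rw [hM1]; ring
      rw [e]
      exact add_mem i1 (mul_mem (mul_mem k3 (hG _)) i0)
    have j2 : M1 (n + 2) ∈ S := by
      have e : M1 (n + 2) = M2 (n + 2) +
        2 * (g (n + 2) * h (n + 2) * k (n + 2) * l (n + 2)) * M1 (n + 1) := by
        rw [hM2 (n + 1)]; ring
      rw [e]
      exact add_mem i2 (mul_mem (mul_mem k2 (hG _)) i1)
    have j3 : M2 (n + 3) ∈ S := by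
      have e : M2 (n + 3) = M3 (n + 3) +
        (g (n + 3) * h (n + 3) * k (n + 3) * l (n + 3)) * M2 (n + 2) := by
        rw [hM3 (n + 2)]; ring
      rw [e]
      exact add_mem i3 (mul_mem (hG _) i2)
    have j4 : M3 (n + 4) ∈ S := by
      have e : M3 (n + 4) = M4 (n + 4) +
        r * (g (n + 4) * h (n + 4) * k (n + 4) * l (n + 4)) * M3 (n + 3) := by
        rw [hM4 (n + 3)]; ring
      rw [e]
      exact add_mem i4 (mul_mem (mul_mem h0 (hG _)) i3)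
    refine ⟨j1, j2, j3, j4, ?_⟩
    have e3 : M4 (n + 1 + 4) =
        (C1 - 6 - r) * (g (n + 5) * h (n + 5) * k (n + 5) * l (n + 5)) * M4 (n + 4) +
        a2 * (h (n + 5) * h (n + 4)) * (k (n + 5) * k (n + 4)) * (l (n + 5) * l (n + 4)) *
          M3 (n + 3) +
        a3 * g (n + 5) * (k (n + 5) * k (n + 4) * k (n + 3)) *
          (l (n + 5) * l (n + 4) * l (n + 3)) * M2 (n + 2) +
        a4 * (y2 * h (n + 5)) * (l (n + 5) * l (n + 4) * l (n + 3) * l (n + 2)) * M1 (n + 1) +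
        (C5 * y1 ^ 4 - (C1 - 6 - r) * (6 * r) * y2 * y3 * y4 * y5 + 6 * a2 * y3 * y4 * y5 -
          6 * a3 * y4 * y5 + 3 * a4 * y5) *
          ((y2 * g (n + 5)) * (h (n + 5) * h (n + 4)) * k (n + 5)) * N n := by
      have R := hN n hn
      have p5 : M4 (n + 5) = M3 (n + 5) -
        r * (g (n + 5) * h (n + 5) * k (n + 5) * l (n + 5)) * M3 (n + 4) := hM4 (n + 4)
      have p4 : M4 (n + 4) = M3 (n + 4) -
        r * (g (n + 4) * h (n + 4) * k (n + 4) * l (n + 4)) * M3 (n + 3) := hM4 (n + 3)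
      have q5 : M3 (n + 5) = M2 (n + 5) -
        (g (n + 5) * h (n + 5) * k (n + 5) * l (n + 5)) * M2 (n + 4) := hM3 (n + 4)
      have q4 : M3 (n + 4) = M2 (n + 4) -
        (g (n + 4) * h (n + 4) * k (n + 4) * l (n + 4)) * M2 (n + 3) := hM3 (n + 3)
      have q3 : M3 (n + 3) = M2 (n + 3) -
        (g (n + 3) * h (n + 3) * k (n + 3) * l (n + 3)) * M2 (n + 2) := hM3 (n + 2)
      have t5 : M2 (n + 5) = M1 (n + 5) -
        2 * (g (n + 5) * h (n + 5) * k (n + 5) * l (n + 5)) * M1 (n + 4) := hM2 (n + 4)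
      have t4 : M2 (n + 4) = M1 (n + 4) -
        2 * (g (n + 4) * h (n + 4) * k (n + 4) * l (n + 4)) * M1 (n + 3) := hM2 (n + 3)
      have t3 : M2 (n + 3) = M1 (n + 3) -
        2 * (g (n + 3) * h (n + 3) * k (n + 3) * l (n + 3)) * M1 (n + 2) := hM2 (n + 2)
      have t2 : M2 (n + 2) = M1 (n + 2) -
        2 * (g (n + 2) * h (n + 2) * k (n + 2) * l (n + 2)) * M1 (n + 1) := hM2 (n + 1)
      have u5 : M1 (n + 5) = N (n + 5) -
        3 * (g (n + 5) * h (n + 5) * k (n + 5) * l (n + 5)) * N (n + 4) := hM1 (n + 4)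
      have u4 : M1 (n + 4) = N (n + 4) -
        3 * (g (n + 4) * h (n + 4) * k (n + 4) * l (n + 4)) * N (n + 3) := hM1 (n + 3)
      have u3 : M1 (n + 3) = N (n + 3) -
        3 * (g (n + 3) * h (n + 3) * k (n + 3) * l (n + 3)) * N (n + 2) := hM1 (n + 2)
      have u2 : M1 (n + 2) = N (n + 2) -
        3 * (g (n + 2) * h (n + 2) * k (n + 2) * l (n + 2)) * N (n + 1) := hM1 (n + 1)
      have u1 : M1 (n + 1) = N (n + 1) -
        3 * (g (n + 1) * h (n + 1) * k (n + 1) * l (n + 1)) * N n := hM1 n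
      have s1 : g (n + 5) * g (n + 4) = y2 := hgg (n + 4)
      have s4 : g (n + 5) = g (n + 3) := hg2 (n + 3)
      have s4' : g (n + 4) = g (n + 2) := hg2 (n + 2)
      have s5 : g (n + 3) = g (n + 1) := hg2 (n + 1)
      have s6 : h (n + 5) = h (n + 2) := hh2 (n + 2)
      have s6' : h (n + 4) = h (n + 1) := hh2 (n + 1)
      have s8 : k (n + 5) = k (n + 1) := hk2 (n + 1)
      have s3 : h (n + 3) * h (n + 2) * h (n + 1) = y3 := hhh (n + 1)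
      have s7 : k (n + 4) * k (n + 3) * k (n + 2) * k (n + 1) = y4 := hkk (n + 1)
      have s9 : l (n + 5) * l (n + 4) * l (n + 3) * l (n + 2) * l (n + 1) = y5 := hll (n + 1)
      rw [show n + 1 + 4 = n + 5 from rfl, ha4, ha3, ha2, p5, p4, q5, q4, q3, t5, t4, t3, t2, u5,
        u4, u3, u2, u1, R, ← s1, ← s3, ← s7, ← s9, s4, s4', s5, s6, s6', s8]
      ring
    rw [e3]
    have hl4 : l (n + 5) * l (n + 4) * l (n + 3) * l (n + 2) ∈ S :=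
      mul_mem (mul_mem (mul_mem (hl _) (hl _)) (hl _)) (hl _)
    refine add_mem (add_mem (add_mem (add_mem ?_ ?_) ?_) ?_) ?_
    · exact mul_mem (mul_mem h1 (hG _)) i4
    · exact mul_mem (mul_mem (mul_mem (mul_mem h2 (mul_mem (hh _) (hh _)))
        (mul_mem (hk _) (hk _))) (mul_mem (hl _) (hl _))) i3
    · exact mul_mem (mul_mem (mul_mem (mul_mem h3 (hg _)) (mul_mem (mul_mem (hk _) (hk _)) (hk _)))
        (mul_mem (mul_mem (hl _) (hl _)) (hl _))) i2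
    · exact mul_mem (mul_mem (mul_mem h4 (mul_mem hy2 (hh _))) hl4) i1
    · exact mul_mem (mul_mem h5 (mul_mem (mul_mem (mul_mem hy2 (hg _)) (mul_mem (hh _) (hh _)))
        (hk _))) i0

end

end Pool.Agent.H629.LM
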